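import Pool.Agent.Lib.MP_65fa9b_an.Basic

/-!
# Copies of `Lip₀(X)` on families of balls

If a subset `M` of `X` is `r/(k+1)²`-dense in disjoint balls `B(c i k, r k)`, `i ∈ I`, `k ∈ ℕ`, then
the `ℓ_∞`-sum of `I` copies of `Lip₀(X)` is complemented in `Lip₀(M)`.
-/

set_option autoImplicit false

open Metric Set Filter Topology

open scoped BoundedContinuousFunction

namespace Pool.Agent.Lib.MP_65fa9b_an

variable {X : Type*} [NormedAddCommGroup X] [NormedSpace ℝ X]

/-- Data: disjoint balls on which `M` is almost dense. -/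
structure BallData (M : Set X) (I : Type*) where
  /-- the centres -/
  c : I → ℕ → X
  /-- the radii -/
  r : ℕ → ℝ
  r_pos : ∀ k, 0 < r k
  good : ∀ i k x, ‖x - c i k‖ ≤ r k → ∃ m ∈ M, ‖m - x‖ ≤ r k / ((k : ℝ) + 1) ^ 2
  disj : ∀ q q' : I × ℕ, ∀ x, ‖x - c q.1 q.2‖ < 2 * r q.2 → ‖x - c q'.1 q'.2‖ < 2 * r q'.2 → q' = q

namespace BallData

variable {M : Set X} {I : Type*} [TopologicalSpace I] [DiscreteTopology I] (B : BallData M I)

/-- rescaled coordinate -/
noncomputable def w (q : I × ℕ) (m : X) : X := (((q.2 : ℝ) + 1) / B.r q.2) • (m - B.c q.1 q.2)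

/-- the bump on the ball `q` -/
noncomputable def h (F : I →ᵇ Lip0 X (0 : X)) (q : I × ℕ) (m : X) : ℝ :=
  (B.r q.2 / ((q.2 : ℝ) + 1)) * (cut (‖B.w q m‖ / ((q.2 : ℝ) + 1)) • (F q.1) (B.w q m))

theorem h_lip (F : I →ᵇ Lip0 X (0 : X)) (q : I × ℕ) (m m' : X) :
    |B.h F q m - B.h F q m'| ≤ 3 * ‖F‖ * ‖m - m'‖ := by
  have hk : (0 : ℝ) < (q.2 : ℝ) + 1 := by positivity
  have hr := B.r_pos q.2
  have h1 := cut_lipschitz (X := X) (E := ℝ) (f := fun x => (F q.1) x) (L := ‖F q.1‖)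
    (norm_nonneg _) (fun x y => by
      have := (F q.1).abs_sub_le x y
      rwa [dist_eq_norm] at this) (F q.1).map_base hk (B.w q m) (B.w q m')
  have h2 : ‖B.w q m - B.w q m'‖ = (((q.2 : ℝ) + 1) / B.r q.2) * ‖m - m'‖ := by
    unfold w
    rw [← smul_sub, norm_smul, Real.norm_of_nonneg (by positivity), sub_sub_sub_cancel_right]
  unfold h
  rw [← mul_sub, abs_mul, abs_of_pos (by positivity)]
  rw [h2, Real.norm_eq_abs] at h1
  calc _ ≤ (B.r q.2 / ((q.2 : ℝ) + 1)) * (3 * ‖F q.1‖ * ((((q.2 : ℝ) + 1) / B.r q.2) * ‖m - m'‖)) :=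
        mul_le_mul_of_nonneg_left h1 (by positivity)
    _ = 3 * ‖F q.1‖ * ‖m - m'‖ := by field_simp
    _ ≤ 3 * ‖F‖ * ‖m - m'‖ := by
        have := F.norm_coe_le_norm q.1
        gcongr

theorem norm_lt_of_h_ne {F : I →ᵇ Lip0 X (0 : X)} {q : I × ℕ} {m : X} (h0 : B.h F q m ≠ 0) :
    ‖m - B.c q.1 q.2‖ < 2 * B.r q.2 := by
  have hk : (0 : ℝ) < (q.2 : ℝ) + 1 := by positivity
  have hr := B.r_pos q.2
  by_contra h'
  push Not at h'
  apply h0
  unfold h
  rw [cut_eq_zero, zero_smul, mul_zero]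
  unfold w
  rw [norm_smul, Real.norm_of_nonneg (by positivity), le_div_iff₀ hk]
  calc 2 * ((q.2 : ℝ) + 1) = (((q.2 : ℝ) + 1) / B.r q.2) * (2 * B.r q.2) := by field_simp
    _ ≤ _ := mul_le_mul_of_nonneg_left h' (by positivity)

/-- the glued function -/
noncomputable def G (F : I →ᵇ Lip0 X (0 : X)) (m : X) : ℝ := ∑ᶠ q, B.h F q m

theorem G_lip (F : I →ᵇ Lip0 X (0 : X)) (m m' : X) :
    |B.G F m - B.G F m'| ≤ 6 * ‖F‖ * dist m m' := by
  have := glue (M := X) (E := ℝ) (g := B.h F) (K := 3 * ‖F‖) (by positivity)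
    (fun q x y => by rw [dist_eq_norm]; exact B.h_lip F q x y)
    (fun x q q' hq hq' => B.disj q q' x (B.norm_lt_of_h_ne hq) (B.norm_lt_of_h_ne hq')) m m'
  calc _ ≤ _ := this
    _ = _ := by ring

theorem finite_support (F : I →ᵇ Lip0 X (0 : X)) (m : X) :
    (Function.support fun q => B.h F q m).Finite := by
  refine Set.Subsingleton.finite fun q hq q' hq' => ?_
  exact B.disj q' q m (B.norm_lt_of_h_ne hq') (B.norm_lt_of_h_ne hq)

theorem G_add (F F' : I →ᵇ Lip0 X (0 : X)) (m : X) : B.G (F + F') m = B.G F m + B.G F' m := by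
  unfold G
  rw [← finsum_add_distrib (B.finite_support F m) (B.finite_support F' m)]
  refine finsum_congr fun q => ?_
  unfold h
  rw [BoundedContinuousFunction.add_apply, Lip0.add_apply, smul_add, mul_add]

theorem G_smul (a : ℝ) (F : I →ᵇ Lip0 X (0 : X)) (m : X) : B.G (a • F) m = a * B.G F m := by
  unfold G
  rw [← smul_eq_mul, smul_finsum]
  refine finsum_congr fun q => ?_
  unfold h
  rw [BoundedContinuousFunction.smul_apply, Lip0.smul_apply]
  simp only [smul_eq_mul]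
  ring

/-- The embedding `J`. -/
noncomputable def J (p : M) : (I →ᵇ Lip0 X (0 : X)) →L[ℝ] Lip0 M p :=
  LinearMap.mkContinuous
    { toFun := fun F => ⟨fun m => B.G F m - B.G F p, by simp, 6 * ‖F‖₊,
        LipschitzWith.of_dist_le_mul fun x y => by
          rw [Real.dist_eq, sub_sub_sub_cancel_right]
          exact B.G_lip F x y⟩
      map_add' := fun f g => by
        apply DFunLike.ext
        intro x
        show B.G (f + g) x - B.G (f + g) p = (B.G f x - B.G f p) + (B.G g x - B.G g p)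
        rw [G_add, G_add]
        ring
      map_smul' := fun c f => by
        apply DFunLike.ext
        intro x
        show B.G (c • f) x - B.G (c • f) p = c * (B.G f x - B.G f p)
        rw [G_smul, G_smul]
        ring }
    6 (fun F => by
      refine Lip0.norm_le _ (by positivity) fun x y => ?_
      show |(B.G F x - B.G F p) - (B.G F y - B.G F p)| ≤ _
      rw [sub_sub_sub_cancel_right]
      exact B.G_lip F x y)

theorem J_apply (p : M) (F : I →ᵇ Lip0 X (0 : X)) (m : M) : B.J p F m = B.G F m - B.G F p := rfl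

open Classical in
/-- A point of `M` near `c i k + (r k / (k+1)) x`. -/
noncomputable def nu (p : M) (i : I) (k : ℕ) (x : X) : M :=
  if hx : ∃ m : M, ‖(m : X) - (B.c i k + (B.r k / ((k : ℝ) + 1)) • x)‖ ≤ B.r k / ((k : ℝ) + 1) ^ 2
  then hx.choose else p

omit [TopologicalSpace I] [DiscreteTopology I] in
theorem nu_spec (p : M) (i : I) (k : ℕ) (x : X) (hx : ‖x‖ ≤ (k : ℝ) + 1) :
    ‖(B.nu p i k x : X) - (B.c i k + (B.r k / ((k : ℝ) + 1)) • x)‖ ≤
      B.r k / ((k : ℝ) + 1) ^ 2 := by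
  have hk : (0 : ℝ) < (k : ℝ) + 1 := by positivity
  have hr := B.r_pos k
  have h : ∃ m : M, ‖(m : X) - (B.c i k + (B.r k / ((k : ℝ) + 1)) • x)‖ ≤
      B.r k / ((k : ℝ) + 1) ^ 2 := by
    obtain ⟨m, hm, hm'⟩ := B.good i k (B.c i k + (B.r k / ((k : ℝ) + 1)) • x) (by
      rw [add_sub_cancel_left, norm_smul, Real.norm_of_nonneg (by positivity)]
      calc B.r k / ((k : ℝ) + 1) * ‖x‖ ≤ B.r k / ((k : ℝ) + 1) * ((k : ℝ) + 1) :=
            mul_le_mul_of_nonneg_left hx (by positivity)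
        _ = B.r k := by field_simp)
    exact ⟨⟨m, hm⟩, hm'⟩
  unfold nu
  rw [dif_pos h]
  exact h.choose_spec

omit [TopologicalSpace I] [DiscreteTopology I] in
theorem norm_w_nu (p : M) (i : I) (k : ℕ) (x : X) (hx : ‖x‖ ≤ (k : ℝ) + 1) :
    ‖B.w (i, k) (B.nu p i k x) - x‖ ≤ 1 / ((k : ℝ) + 1) := by
  have hk : (0 : ℝ) < (k : ℝ) + 1 := by positivity
  have hr := B.r_pos k
  have h := B.nu_spec p i k x hx
  have e : B.w (i, k) (B.nu p i k x) - x = (((k : ℝ) + 1) / B.r k) •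
      ((B.nu p i k x : X) - (B.c i k + (B.r k / ((k : ℝ) + 1)) • x)) := by
    unfold w
    rw [← sub_sub, smul_sub _ ((B.nu p i k x : X) - B.c i k), smul_smul,
      div_mul_div_cancel₀ hr.ne', div_self hk.ne', one_smul]
  rw [e, norm_smul, Real.norm_of_nonneg (by positivity)]
  calc _ ≤ (((k : ℝ) + 1) / B.r k) * (B.r k / ((k : ℝ) + 1) ^ 2) :=
        mul_le_mul_of_nonneg_left h (by positivity)
    _ = 1 / ((k : ℝ) + 1) := by field_simp

/-- The rescaled difference. -/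
noncomputable def a (p : M) (g : Lip0 M p) (i : I) (x : X) (k : ℕ) : ℝ :=
  (((k : ℝ) + 1) / B.r k) * (g (B.nu p i k x) - g (B.nu p i k 0))

omit [TopologicalSpace I] [DiscreteTopology I] in
theorem abs_a_sub_le (p : M) (g : Lip0 M p) (i : I) (x y : X) (k : ℕ) (hx : ‖x‖ ≤ (k : ℝ) + 1)
    (hy : ‖y‖ ≤ (k : ℝ) + 1) :
    |B.a p g i x k - B.a p g i y k| ≤ ‖g‖ * ‖x - y‖ + ‖g‖ * (2 / ((k : ℝ) + 1)) := by
  have hk : (0 : ℝ) < (k : ℝ) + 1 := by positivity
  have hr := B.r_pos k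
  have h1 := B.norm_w_nu p i k x hx
  have h2 := B.norm_w_nu p i k y hy
  have h3 : ‖B.w (i, k) (B.nu p i k x) - B.w (i, k) (B.nu p i k y)‖ ≤
      ‖x - y‖ + 2 / ((k : ℝ) + 1) := by
    have e : B.w (i, k) (B.nu p i k x) - B.w (i, k) (B.nu p i k y) =
        (B.w (i, k) (B.nu p i k x) - x) + (x - y) - (B.w (i, k) (B.nu p i k y) - y) := by abel
    rw [e]
    calc _ ≤ ‖(B.w (i, k) (B.nu p i k x) - x) + (x - y)‖ + ‖B.w (i, k) (B.nu p i k y) - y‖ :=
          norm_sub_le _ _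
      _ ≤ (‖B.w (i, k) (B.nu p i k x) - x‖ + ‖x - y‖) + ‖B.w (i, k) (B.nu p i k y) - y‖ := by
          gcongr
          exact norm_add_le _ _
      _ ≤ (1 / ((k : ℝ) + 1) + ‖x - y‖) + 1 / ((k : ℝ) + 1) := by gcongr
      _ = _ := by ring
  have h4 : ‖B.w (i, k) (B.nu p i k x) - B.w (i, k) (B.nu p i k y)‖ =
      (((k : ℝ) + 1) / B.r k) * dist (B.nu p i k x) (B.nu p i k y) := by
    unfold w
    rw [← smul_sub, norm_smul, Real.norm_of_nonneg (by positivity), sub_sub_sub_cancel_right,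
      Subtype.dist_eq, dist_eq_norm]
  have h5 := g.abs_sub_le (B.nu p i k x) (B.nu p i k y)
  unfold a
  rw [← mul_sub, sub_sub_sub_cancel_right, abs_mul, abs_of_pos (by positivity)]
  calc _ ≤ (((k : ℝ) + 1) / B.r k) * (‖g‖ * dist (B.nu p i k x) (B.nu p i k y)) :=
        mul_le_mul_of_nonneg_left h5 (by positivity)
    _ = ‖g‖ * ((((k : ℝ) + 1) / B.r k) * dist (B.nu p i k x) (B.nu p i k y)) := by ring
    _ ≤ ‖g‖ * (‖x - y‖ + 2 / ((k : ℝ) + 1)) := by
        rw [← h4]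
        exact mul_le_mul_of_nonneg_left h3 (norm_nonneg _)
    _ = _ := by ring

omit [TopologicalSpace I] [DiscreteTopology I] in
theorem a_zero (p : M) (g : Lip0 M p) (i : I) (k : ℕ) : B.a p g i 0 k = 0 := by
  simp [a]

/-- A fixed nonprincipal ultrafilter on `ℕ`. -/
noncomputable abbrev UU : Ultrafilter ℕ := hyperfilter ℕ

theorem eventually_le (t : ℝ) : ∀ᶠ k : ℕ in (UU : Filter ℕ), t ≤ (k : ℝ) + 1 := by
  refine Nat.hyperfilter_le_atTop ?_
  filter_upwards [eventually_ge_atTop (⌈t⌉₊)] with k hk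
  have h1 : t ≤ (⌈t⌉₊ : ℝ) := Nat.le_ceil t
  have h2 : ((⌈t⌉₊ : ℕ) : ℝ) ≤ k := by exact_mod_cast hk
  linarith

theorem tendsto_aux (C : ℝ) : Tendsto (fun k : ℕ => C * (2 / ((k : ℝ) + 1))) UU (𝓝 0) := by
  have h1 : Tendsto (fun k : ℕ => C * (2 / ((k : ℝ) + 1))) atTop (𝓝 (C * 0)) := by
    refine Tendsto.const_mul _ ?_
    exact tendsto_const_nhds.div_atTop
      (tendsto_atTop_add_const_right _ _ tendsto_natCast_atTop_atTop)
  rw [mul_zero] at h1
  exact h1.mono_left Nat.hyperfilter_le_atTop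

omit [TopologicalSpace I] [DiscreteTopology I] in
theorem a_bdd (p : M) (g : Lip0 M p) (i : I) (x : X) :
    ∃ C, ∀ᶠ k in (UU : Filter ℕ), |B.a p g i x k| ≤ C := by
  refine ⟨‖g‖ * ‖x‖ + ‖g‖ * 2, ?_⟩
  filter_upwards [eventually_le ‖x‖] with k hk
  have h := B.abs_a_sub_le p g i x 0 k hk (by rw [norm_zero]; positivity)
  rw [a_zero, sub_zero, sub_zero] at h
  refine h.trans ?_
  have h2 : 2 / ((k : ℝ) + 1) ≤ 2 := div_le_self (by norm_num) (by linarith [Nat.cast_nonneg (α := ℝ) k])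
  gcongr

/-- The limit. -/
noncomputable def lim (p : M) (g : Lip0 M p) (i : I) (x : X) : ℝ := ulim UU (B.a p g i x)

omit [TopologicalSpace I] [DiscreteTopology I] in
theorem lim_lip (p : M) (g : Lip0 M p) (i : I) (x y : X) :
    |B.lim p g i x - B.lim p g i y| ≤ ‖g‖ * dist x y := by
  rw [dist_eq_norm]
  refine abs_ulim_sub_le UU (B.a_bdd p g i x) (B.a_bdd p g i y) (tendsto_aux ‖g‖) ?_
  filter_upwards [eventually_le ‖x‖, eventually_le ‖y‖] with k hx hy
  exact B.abs_a_sub_le p g i x y k hx hy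

omit [TopologicalSpace I] [DiscreteTopology I] in
theorem tendsto_lim (p : M) (g : Lip0 M p) (i : I) (x : X) :
    Tendsto (B.a p g i x) UU (𝓝 (B.lim p g i x)) := by
  obtain ⟨C, hC⟩ := B.a_bdd p g i x
  exact tendsto_ulim UU hC

/-- The limit as an element of `Lip₀(X)`. -/
noncomputable def limF (p : M) (g : Lip0 M p) (i : I) : Lip0 X (0 : X) :=
  ⟨B.lim p g i, by
    refine ulim_eq UU ?_
    rw [show B.a p g i 0 = fun _ => 0 from funext fun k => B.a_zero p g i k]
    exact tendsto_const_nhds, ‖g‖₊, LipschitzWith.of_dist_le_mul fun x y => by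
      rw [Real.dist_eq]
      exact B.lim_lip p g i x y⟩

omit [TopologicalSpace I] [DiscreteTopology I] in
theorem limF_apply (p : M) (g : Lip0 M p) (i : I) (x : X) : B.limF p g i x = B.lim p g i x := rfl

omit [TopologicalSpace I] [DiscreteTopology I] in
theorem norm_limF_le (p : M) (g : Lip0 M p) (i : I) : ‖B.limF p g i‖ ≤ ‖g‖ :=
  Lip0.norm_le _ (norm_nonneg _) (B.lim_lip p g i)

/-- The projection `R`. -/
noncomputable def R (p : M) : Lip0 M p →L[ℝ] (I →ᵇ Lip0 X (0 : X)) :=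
  LinearMap.mkContinuous
    { toFun := fun g => BoundedContinuousFunction.ofNormedAddCommGroupDiscrete
        (fun i => B.limF p g i) ‖g‖ (B.norm_limF_le p g)
      map_add' := fun f g => by
        ext i
        apply DFunLike.ext
        intro x
        show B.lim p (f + g) i x = B.lim p f i x + B.lim p g i x
        refine ulim_eq UU ?_
        have e : B.a p (f + g) i x = fun k => B.a p f i x k + B.a p g i x k := by
          funext k
          simp only [a, Lip0.add_apply]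
          ring
        rw [e]
        exact (B.tendsto_lim p f i x).add (B.tendsto_lim p g i x)
      map_smul' := fun c f => by
        ext i
        apply DFunLike.ext
        intro x
        show B.lim p (c • f) i x = c * B.lim p f i x
        refine ulim_eq UU ?_
        have e : B.a p (c • f) i x = fun k => c * B.a p f i x k := by
          funext k
          simp only [a, Lip0.smul_apply]
          ring
        rw [e]
        exact (B.tendsto_lim p f i x).const_mul c }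
    1 (fun g => by
      rw [one_mul]
      exact (BoundedContinuousFunction.norm_le (norm_nonneg _)).mpr (B.norm_limF_le p g))

theorem R_apply (p : M) (g : Lip0 M p) (i : I) (x : X) : B.R p g i x = B.lim p g i x := rfl

theorem G_nu (p : M) (F : I →ᵇ Lip0 X (0 : X)) (i : I) (k : ℕ) (x : X) (hx : ‖x‖ + 1 ≤ (k : ℝ) + 1) :
    B.G F (B.nu p i k x) = (B.r k / ((k : ℝ) + 1)) * (F i) (B.w (i, k) (B.nu p i k x)) := by
  have hk : (0 : ℝ) < (k : ℝ) + 1 := by positivity
  have hk1 : (1 : ℝ) ≤ (k : ℝ) + 1 := by linarith [Nat.cast_nonneg (α := ℝ) k]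
  have hr := B.r_pos k
  have h1 := B.norm_w_nu p i k x (by linarith)
  have h2 : ‖B.w (i, k) (B.nu p i k x)‖ ≤ (k : ℝ) + 1 := by
    have e : B.w (i, k) (B.nu p i k x) = (B.w (i, k) (B.nu p i k x) - x) + x := by abel
    rw [e]
    have h3 : 1 / ((k : ℝ) + 1) ≤ 1 := (div_le_one hk).mpr hk1
    calc _ ≤ ‖B.w (i, k) (B.nu p i k x) - x‖ + ‖x‖ := norm_add_le _ _
      _ ≤ 1 + ‖x‖ := by linarith
      _ ≤ _ := by linarith
  have h3 : ‖(B.nu p i k x : X) - B.c i k‖ < 2 * B.r k := by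
    have e : ‖B.w (i, k) (B.nu p i k x)‖ =
        (((k : ℝ) + 1) / B.r k) * ‖(B.nu p i k x : X) - B.c i k‖ := by
      unfold w
      rw [norm_smul, Real.norm_of_nonneg (by positivity)]
    rw [e] at h2
    have h4 : ‖(B.nu p i k x : X) - B.c i k‖ ≤ B.r k := by
      have h5 : ‖(B.nu p i k x : X) - B.c i k‖ = (B.r k / ((k : ℝ) + 1)) *
          ((((k : ℝ) + 1) / B.r k) * ‖(B.nu p i k x : X) - B.c i k‖) := by field_simp
      rw [h5]
      calc _ ≤ (B.r k / ((k : ℝ) + 1)) * ((k : ℝ) + 1) :=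
            mul_le_mul_of_nonneg_left h2 (by positivity)
        _ = B.r k := by field_simp
    linarith
  unfold G
  rw [finsum_eq_single _ (i, k)]
  · unfold h
    rw [cut_eq_one ((div_le_one hk).mpr h2), one_smul]
  · intro q hq
    by_contra h0
    exact hq (B.disj (i, k) q _ h3 (B.norm_lt_of_h_ne h0))

theorem RJ (p : M) (F : I →ᵇ Lip0 X (0 : X)) : B.R p (B.J p F) = F := by
  ext i
  apply DFunLike.ext
  intro x
  rw [R_apply]
  refine ulim_eq UU ?_
  rw [tendsto_iff_norm_sub_tendsto_zero]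
  refine squeeze_zero' (Eventually.of_forall fun _ => norm_nonneg _) ?_ (tendsto_aux ‖F i‖)
  filter_upwards [eventually_le (‖x‖ + 1)] with k hk
  have hk0 : (0 : ℝ) < (k : ℝ) + 1 := by positivity
  have hr := B.r_pos k
  have e : B.a p (B.J p F) i x k =
      (F i) (B.w (i, k) (B.nu p i k x)) - (F i) (B.w (i, k) (B.nu p i k 0)) := by
    unfold a
    rw [J_apply, J_apply, B.G_nu p F i k x hk, B.G_nu p F i k 0 (by
      rw [norm_zero]; linarith [norm_nonneg x]), sub_sub_sub_cancel_right, ← mul_sub, ← mul_assoc,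
      div_mul_div_cancel₀ hr.ne', div_self hk0.ne', one_mul]
  have h1 := B.norm_w_nu p i k x (by linarith)
  have h2 := B.norm_w_nu p i k 0 (by rw [norm_zero]; positivity)
  have h3 := (F i).abs_sub_le (B.w (i, k) (B.nu p i k x)) x
  have h4 := (F i).abs_sub_le (B.w (i, k) (B.nu p i k 0)) 0
  rw [(F i).map_base, sub_zero] at h4
  rw [dist_eq_norm] at h3 h4
  rw [e, Real.norm_eq_abs]
  calc _ = |((F i) (B.w (i, k) (B.nu p i k x)) - (F i) x) - (F i) (B.w (i, k) (B.nu p i k 0))| := by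
        congr 1; ring
    _ ≤ |(F i) (B.w (i, k) (B.nu p i k x)) - (F i) x| + |(F i) (B.w (i, k) (B.nu p i k 0))| :=
        abs_sub _ _
    _ ≤ ‖F i‖ * ‖B.w (i, k) (B.nu p i k x) - x‖ + ‖F i‖ * ‖B.w (i, k) (B.nu p i k 0) - 0‖ := by
        gcongr
    _ ≤ ‖F i‖ * (1 / ((k : ℝ) + 1)) + ‖F i‖ * (1 / ((k : ℝ) + 1)) := by gcongr
    _ = ‖F i‖ * (2 / ((k : ℝ) + 1)) := by ring

/-- The `ℓ_∞`-sum of `I` copies of `Lip₀(X)` is complemented in `Lip₀(M)`. -/
theorem fac (B : BallData M I) (p : M) : Fac (I →ᵇ Lip0 X (0 : X)) (Lip0 M p) :=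
  ⟨B.J p, B.R p, B.RJ p⟩

end BallData

end Pool.Agent.Lib.MP_65fa9b_an
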