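import Pool.Agent.Lib.MP_65fa9b_an.Defs

/-!
# Basic tools: complemented subspaces, gluing, limits along ultrafilters, cut-off functions
-/

set_option autoImplicit false

open Metric Set Filter Topology

namespace Pool.Agent.Lib.MP_65fa9b_an

section Fac

variable {U V W : Type*} [NormedAddCommGroup U] [NormedSpace ℝ U] [NormedAddCommGroup V]
  [NormedSpace ℝ V] [NormedAddCommGroup W] [NormedSpace ℝ W]

/-- The identity of `U` factors through `V` with constant `C`. -/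
def FacC (C : ℝ) (U V : Type*) [NormedAddCommGroup U] [NormedSpace ℝ U] [NormedAddCommGroup V]
    [NormedSpace ℝ V] : Prop :=
  ∃ (J : U →L[ℝ] V) (R : V →L[ℝ] U), (∀ u, R (J u) = u) ∧ ‖J‖ ≤ C ∧ ‖R‖ ≤ C

/-- The identity of `U` factors through `V`: `U` is isomorphic to a complemented subspace. -/
def Fac (U V : Type*) [NormedAddCommGroup U] [NormedSpace ℝ U] [NormedAddCommGroup V]
    [NormedSpace ℝ V] : Prop :=
  ∃ (J : U →L[ℝ] V) (R : V →L[ℝ] U), ∀ u, R (J u) = u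

theorem FacC.fac {C : ℝ} (h : FacC C U V) : Fac U V := by
  obtain ⟨J, R, h, -, -⟩ := h
  exact ⟨J, R, h⟩

theorem FacC.nonneg {C : ℝ} (h : FacC C U V) : 0 ≤ C := by
  obtain ⟨J, -, -, h, -⟩ := h
  exact (norm_nonneg J).trans h

theorem FacC.trans {C D : ℝ} (h : FacC C U V) (h' : FacC D V W) : FacC (C * D) U W := by
  have hC := h.nonneg
  have hD := h'.nonneg
  obtain ⟨J, R, h1, h2, h3⟩ := h
  obtain ⟨J', R', h1', h2', h3'⟩ := h'
  refine ⟨J'.comp J, R.comp R', fun u => by simp [h1', h1], ?_, ?_⟩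
  · calc ‖J'.comp J‖ ≤ ‖J'‖ * ‖J‖ := J'.opNorm_comp_le J
      _ ≤ D * C := mul_le_mul h2' h2 (norm_nonneg _) hD
      _ = C * D := mul_comm _ _
  · calc ‖R.comp R'‖ ≤ ‖R‖ * ‖R'‖ := R.opNorm_comp_le R'
      _ ≤ C * D := mul_le_mul h3 h3' (norm_nonneg _) hC

theorem Fac.trans (h : Fac U V) (h' : Fac V W) : Fac U W := by
  obtain ⟨J, R, h1⟩ := h
  obtain ⟨J', R', h1'⟩ := h'
  exact ⟨J'.comp J, R.comp R', fun u => by simp [h1', h1]⟩

theorem Fac.of_equiv (e : U ≃L[ℝ] V) : Fac U V :=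
  ⟨e.toContinuousLinearMap, e.symm.toContinuousLinearMap, fun u => by simp⟩

theorem Fac.refl : Fac U U := ⟨ContinuousLinearMap.id ℝ U, ContinuousLinearMap.id ℝ U, fun _ => rfl⟩

end Fac

section Glue

variable {M : Type*} [PseudoMetricSpace M] {E : Type*} [NormedAddCommGroup E] {ι : Type*}

theorem finsum_eq_of_ne {f : ι → E} {i : ι} (h : ∀ j, f i ≠ 0 → f j ≠ 0 → j = i) (hi : f i ≠ 0) :
    ∑ᶠ j, f j = f i :=
  finsum_eq_single f i fun j hj => by
    by_contra h0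
    exact hj (h j hi h0)

/-- Gluing: the sum of `K`-Lipschitz maps with disjoint supports is `2K`-Lipschitz. -/
theorem glue {g : ι → M → E} {K : ℝ} (hK : 0 ≤ K)
    (hg : ∀ i x y, ‖g i x - g i y‖ ≤ K * dist x y)
    (hd : ∀ x i j, g i x ≠ 0 → g j x ≠ 0 → j = i) (x y : M) :
    ‖∑ᶠ i, g i x - ∑ᶠ i, g i y‖ ≤ 2 * K * dist x y := by
  have hnn : 0 ≤ K * dist x y := mul_nonneg hK dist_nonneg
  by_cases hx : ∃ i, g i x ≠ 0
  · obtain ⟨i, hi⟩ := hx
    rw [finsum_eq_of_ne (fun j => hd x i j) hi]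
    by_cases hy : ∃ j, g j y ≠ 0
    · obtain ⟨j, hj⟩ := hy
      rw [finsum_eq_of_ne (fun k => hd y j k) hj]
      rcases eq_or_ne i j with rfl | hij
      · linarith [hg i x y]
      · have h1 : g i y = 0 := by
          by_contra h0
          exact hij (hd y j i hj h0)
        have h2 : g j x = 0 := by
          by_contra h0
          exact hij (hd x j i h0 hi)
        have h3 := hg i x y
        have h4 := hg j x y
        rw [h1, sub_zero] at h3
        rw [h2, zero_sub, norm_neg] at h4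
        calc ‖g i x - g j y‖ ≤ ‖g i x‖ + ‖g j y‖ := norm_sub_le _ _
          _ ≤ 2 * K * dist x y := by linarith
    · push Not at hy
      have h1 : ∑ᶠ j, g j y = 0 := by
        rw [show (fun j => g j y) = fun _ => 0 from funext hy, finsum_zero]
      rw [h1]
      have h3 := hg i x y
      rw [hy i] at h3
      linarith
  · push Not at hx
    have h0 : ∑ᶠ j, g j x = 0 := by
      rw [show (fun j => g j x) = fun _ => 0 from funext hx, finsum_zero]
    rw [h0]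
    by_cases hy : ∃ j, g j y ≠ 0
    · obtain ⟨j, hj⟩ := hy
      rw [finsum_eq_of_ne (fun k => hd y j k) hj]
      have h4 := hg j x y
      rw [hx j] at h4
      linarith
    · push Not at hy
      have h1 : ∑ᶠ j, g j y = 0 := by
        rw [show (fun j => g j y) = fun _ => 0 from funext hy, finsum_zero]
      rw [h1, sub_zero, norm_zero]
      linarith

end Glue

section Ulim

variable {ι : Type*} (U : Ultrafilter ι)

/-- The limit along an ultrafilter. -/
noncomputable def ulim (a : ι → ℝ) : ℝ := limUnder (U : Filter ι) a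

theorem tendsto_ulim {a : ι → ℝ} {C : ℝ} (h : ∀ᶠ i in (U : Filter ι), |a i| ≤ C) :
    Tendsto a U (𝓝 (ulim U a)) := by
  have hc : IsCompact (Icc (-C) C) := isCompact_Icc
  have h' : ∀ᶠ i in (U : Filter ι), a i ∈ Icc (-C) C := h.mono fun i hi => abs_le.mp hi
  obtain ⟨x, -, hx⟩ := hc.ultrafilter_le_nhds (U.map a) (by
    rw [le_principal_iff]
    exact h')
  exact tendsto_nhds_limUnder ⟨x, hx⟩

theorem ulim_eq {a : ι → ℝ} {x : ℝ} (h : Tendsto a U (𝓝 x)) : ulim U a = x := h.limUnder_eq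

theorem abs_ulim_sub_le {a b : ι → ℝ} {C : ℝ} {e : ι → ℝ}
    (ha : ∃ A, ∀ᶠ i in (U : Filter ι), |a i| ≤ A) (hb : ∃ B, ∀ᶠ i in (U : Filter ι), |b i| ≤ B)
    (he : Tendsto e U (𝓝 0)) (h : ∀ᶠ i in (U : Filter ι), |a i - b i| ≤ C + e i) :
    |ulim U a - ulim U b| ≤ C := by
  obtain ⟨A, hA⟩ := ha
  obtain ⟨B, hB⟩ := hb
  have h1 := tendsto_ulim U hA
  have h2 := tendsto_ulim U hB
  have h3 : Tendsto (fun i => C + e i) U (𝓝 (C + 0)) := tendsto_const_nhds.add he
  rw [add_zero] at h3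
  exact le_of_tendsto_of_tendsto (h1.sub h2).abs h3 h

end Ulim

section Cutoff

variable {X : Type*} [NormedAddCommGroup X] [NormedSpace ℝ X]

/-- Cut-off function, `1` on `[0, 1]` and `0` on `[2, ∞)`. -/
noncomputable def cut (t : ℝ) : ℝ := max 0 (min 1 (2 - t))

theorem cut_nonneg (t : ℝ) : 0 ≤ cut t := le_max_left _ _

theorem cut_le_one (t : ℝ) : cut t ≤ 1 := max_le zero_le_one (min_le_left _ _)

theorem cut_eq_one {t : ℝ} (h : t ≤ 1) : cut t = 1 := by
  unfold cut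
  rw [min_eq_left (by linarith), max_eq_right zero_le_one]

theorem cut_eq_zero {t : ℝ} (h : 2 ≤ t) : cut t = 0 := by
  unfold cut
  exact max_eq_left ((min_le_right _ _).trans (by linarith))

theorem abs_cut_sub_le (s t : ℝ) : |cut s - cut t| ≤ |s - t| := by
  unfold cut
  calc |max 0 (min 1 (2 - s)) - max 0 (min 1 (2 - t))| ≤ |min 1 (2 - s) - min 1 (2 - t)| := by
        simpa using abs_max_sub_max_le_max 0 (min 1 (2 - s)) 0 (min 1 (2 - t))
    _ ≤ |(2 - s) - (2 - t)| := by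
        simpa using abs_min_sub_min_le_max 1 (2 - s) 1 (2 - t)
    _ = |s - t| := by rw [show (2 - s) - (2 - t) = -(s - t) by ring, abs_neg]

/-- A vector valued cut-off: the truncation of a map which is `L`-Lipschitz and vanishes at `0`. -/
theorem cut_lipschitz {E : Type*} [NormedAddCommGroup E] [NormedSpace ℝ E] {f : X → E} {L : ℝ}
    (hL : 0 ≤ L) (hf : ∀ x y, ‖f x - f y‖ ≤ L * ‖x - y‖) (h0 : f 0 = 0) {ρ : ℝ} (hρ : 0 < ρ)
    (x y : X) :
    ‖cut (‖x‖ / ρ) • f x - cut (‖y‖ / ρ) • f y‖ ≤ 3 * L * ‖x - y‖ := by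
  have hsub : |cut (‖x‖ / ρ) - cut (‖y‖ / ρ)| ≤ ‖x - y‖ / ρ := by
    refine (abs_cut_sub_le _ _).trans ?_
    rw [← sub_div, abs_div, abs_of_pos hρ]
    exact div_le_div_of_nonneg_right (abs_norm_sub_norm_le x y) hρ.le
  have hfn : ∀ z, ‖f z‖ ≤ L * ‖z‖ := fun z => by simpa [h0] using hf z 0
  have key : ∀ x y : X, ‖x - y‖ / ρ * ‖y‖ ≤ 2 * ‖x - y‖ ∨ 2 < ‖y‖ / ρ := by
    intro x y
    by_cases h : ‖y‖ / ρ ≤ 2
    · left
      calc ‖x - y‖ / ρ * ‖y‖ = ‖x - y‖ * (‖y‖ / ρ) := by ring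
        _ ≤ ‖x - y‖ * 2 := mul_le_mul_of_nonneg_left h (norm_nonneg _)
        _ = 2 * ‖x - y‖ := mul_comm _ _
    · exact Or.inr (not_le.mp h)
  have main : ∀ x y : X, |cut (‖x‖ / ρ) - cut (‖y‖ / ρ)| ≤ ‖x - y‖ / ρ → ‖y‖ / ρ ≤ 2 →
      ‖cut (‖x‖ / ρ) • f x - cut (‖y‖ / ρ) • f y‖ ≤ 3 * L * ‖x - y‖ := by
    intro x y hxy hy
    have e : cut (‖x‖ / ρ) • f x - cut (‖y‖ / ρ) • f y =
        cut (‖x‖ / ρ) • (f x - f y) + (cut (‖x‖ / ρ) - cut (‖y‖ / ρ)) • f y := by
      rw [smul_sub, sub_smul]; abel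
    rw [e]
    have h1 : ‖cut (‖x‖ / ρ) • (f x - f y)‖ ≤ L * ‖x - y‖ := by
      rw [norm_smul, Real.norm_eq_abs, abs_of_nonneg (cut_nonneg _)]
      calc cut (‖x‖ / ρ) * ‖f x - f y‖ ≤ 1 * ‖f x - f y‖ :=
            mul_le_mul_of_nonneg_right (cut_le_one _) (norm_nonneg _)
        _ ≤ L * ‖x - y‖ := by rw [one_mul]; exact hf x y
    have h2 : ‖(cut (‖x‖ / ρ) - cut (‖y‖ / ρ)) • f y‖ ≤ 2 * L * ‖x - y‖ := by
      rw [norm_smul, Real.norm_eq_abs]
      calc |cut (‖x‖ / ρ) - cut (‖y‖ / ρ)| * ‖f y‖ ≤ (‖x - y‖ / ρ) * (L * ‖y‖) :=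
            mul_le_mul hxy (hfn y) (norm_nonneg _) (by positivity)
        _ = L * ((‖x - y‖ / ρ) * ‖y‖) := by ring
        _ ≤ L * (2 * ‖x - y‖) := by
            refine mul_le_mul_of_nonneg_left ?_ hL
            rcases key x y with h | h
            · exact h
            · exact absurd hy (not_le.mpr h)
        _ = 2 * L * ‖x - y‖ := by ring
    calc _ ≤ _ := norm_add_le _ _
      _ ≤ 3 * L * ‖x - y‖ := by linarith
  by_cases hy : ‖y‖ / ρ ≤ 2
  · exact main x y hsub hy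
  · by_cases hx : ‖x‖ / ρ ≤ 2
    · have := main y x (by rw [abs_sub_comm, norm_sub_rev]; exact hsub) hx
      rw [norm_sub_rev, norm_sub_rev y x] at this
      exact this
    · push Not at hx hy
      rw [cut_eq_zero hx.le, cut_eq_zero hy.le, zero_smul, zero_smul, sub_zero, norm_zero]
      positivity

end Cutoff

end Pool.Agent.Lib.MP_65fa9b_an
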