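import Mathlib

/-!
# Banach spaces containing the Hamming cubes uniformly
-/

set_option autoImplicit false

namespace Pool.Agent.Lib.MP_65fa9b_an

/-- `X` contains the Hamming cubes `{0,1}ⁿ` with uniformly bounded distortion: for some `C` and all
`n` there is a map `f : {0,1}ⁿ → X` such that `d(s, t) ≤ ‖f s - f t‖ ≤ C d(s, t)` for all `s`, `t`,
where `d(s, t)` is the number of coordinates in which `s` and `t` differ. -/
def ContainsCubes (X : Type*) [NormedAddCommGroup X] : Prop :=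
  ∃ C : ℝ, ∀ n : ℕ, ∃ f : (Fin n → Bool) → X, ∀ s t : Fin n → Bool,
    (hammingDist s t : ℝ) ≤ ‖f s - f t‖ ∧ ‖f s - f t‖ ≤ C * hammingDist s t

/-- `X` contains the spaces `ℓ₁ⁿ` uniformly: for some `C` and all `n` there is a linear map
`i : ℓ₁ⁿ → X` such that `‖a‖ ≤ ‖i a‖ ≤ C ‖a‖` for all `a`, where `‖a‖ = ∑ |a k|`. -/
def ContainsEllOne (X : Type*) [NormedAddCommGroup X] [NormedSpace ℝ X] : Prop :=
  ∃ C : ℝ, ∀ n : ℕ, ∃ i : (Fin n → ℝ) →ₗ[ℝ] X, ∀ a : Fin n → ℝ,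
    ∑ k, |a k| ≤ ‖i a‖ ∧ ‖i a‖ ≤ C * ∑ k, |a k|

end Pool.Agent.Lib.MP_65fa9b_an
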