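import Pool.Agent.Lib.MP_65fa9b_an.Cubes
import Pool.Agent.Lib.MP_65fa9b_an.CubesDef
import Pool.Agent.Lib.MP_65fa9b_an.Basic

/-!
# Lipschitz spaces of finite metric spaces factor through `Lip₀(X)`, if `X` contains the cubes
-/

set_option autoImplicit false

namespace Pool.Agent.Lib.MP_65fa9b_an

namespace Base

open Gr LocTree

section

variable {F : Type*} [MetricSpace F] (δ : ℝ) (N : ℕ)

/-- The number of edges between two points. -/
noncomputable def len (a b : F) : ℕ := ⌈dist a b / δ⌉₊

/-- Linear interpolation along the segments. -/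
noncomputable def lift (f : F → ℝ) (v : F × F × Fin (N + 1)) : ℝ :=
  f v.1 + min 1 ((v.2.2 : ℕ) / (len δ v.1 v.2.1 : ℝ)) * (f v.2.1 - f v.1)

/-- Edges of the graph spanned by a finite metric space. -/
def Edge (F : Type*) [MetricSpace F] (δ : ℝ) (N : ℕ) : Type _ :=
  {x : (F × F × Fin (N + 1)) × (F × F × Fin (N + 1)) // ∀ (f : F → ℝ) (K : ℝ), 0 ≤ K →
    (∀ a b, |f a - f b| ≤ K * (dist a b / δ)) → |lift δ N f x.1 - lift δ N f x.2| ≤ K}

/-- Source. -/
def es (e : Edge F δ N) : F × F × Fin (N + 1) := e.1.1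

/-- Target. -/
def et (e : Edge F δ N) : F × F × Fin (N + 1) := e.1.2

variable {δ N}

theorem lift_EL {f : F → ℝ} {K : ℝ} (hK : 0 ≤ K) (hf : ∀ a b, |f a - f b| ≤ K * (dist a b / δ)) :
    EL (es δ N) (et δ N) K (lift δ N f) := fun e => e.2 f K hK hf

theorem lift_zero (f : F → ℝ) (a b : F) : lift δ N f (a, b, 0) = f a := by
  simp [lift]

theorem lift_abs_le {f : F → ℝ} {B : ℝ} (hf : ∀ a, |f a| ≤ B) (v : F × F × Fin (N + 1)) :
    |lift δ N f v| ≤ B := by
  unfold lift
  set c := min 1 ((v.2.2 : ℕ) / (len δ v.1 v.2.1 : ℝ)) with hc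
  have h0 : 0 ≤ c := le_min zero_le_one (by positivity)
  have h1 : c ≤ 1 := min_le_left _ _
  have e : f v.1 + c * (f v.2.1 - f v.1) = (1 - c) * f v.1 + c * f v.2.1 := by ring
  rw [e]
  calc |(1 - c) * f v.1 + c * f v.2.1| ≤ |(1 - c) * f v.1| + |c * f v.2.1| := abs_add_le _ _
    _ ≤ (1 - c) * B + c * B := by
        rw [abs_mul, abs_mul, abs_of_nonneg h0, abs_of_nonneg (sub_nonneg.mpr h1)]
        exact add_le_add (mul_le_mul_of_nonneg_left (hf _) (sub_nonneg.mpr h1))
          (mul_le_mul_of_nonneg_left (hf _) h0)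
    _ = B := by ring

theorem lift_add (f g : F → ℝ) (v : F × F × Fin (N + 1)) :
    lift δ N (fun a => f a + g a) v = lift δ N f v + lift δ N g v := by
  unfold lift; ring

theorem lift_smul (c : ℝ) (f : F → ℝ) (v : F × F × Fin (N + 1)) :
    lift δ N (fun a => c * f a) v = c * lift δ N f v := by
  unfold lift; ring

/-- Increments along the path between two points. -/
theorem chain {h : F × F × Fin (N + 1) → ℝ} {K : ℝ} (hh : EL (es δ N) (et δ N) K h)
    {a b : F} (hab : 0 < len δ a b) (hN : len δ a b ≤ N) :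
    |h (a, a, 0) - h (b, b, 0)| ≤ ((len δ a b : ℝ) + 2) * K := by
  have hlen : (0 : ℝ) < len δ a b := by exact_mod_cast hab
  have hceil : dist a b / δ ≤ len δ a b := Nat.le_ceil _
  -- the first edge
  have h1 : |h (a, a, 0) - h (a, b, 0)| ≤ K :=
    hh ⟨((a, a, 0), (a, b, 0)), fun f K hK _ => by
      rw [lift_zero, lift_zero, sub_self, abs_zero]; exact hK⟩
  -- the last edge
  have h2 : |h (a, b, ⟨len δ a b, by omega⟩) - h (b, b, 0)| ≤ K :=
    hh ⟨((a, b, ⟨len δ a b, by omega⟩), (b, b, 0)), fun f K hK _ => by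
      rw [lift_zero]
      unfold lift
      simp only
      rw [div_self hlen.ne', min_self, one_mul, add_sub_cancel, sub_self, abs_zero]
      exact hK⟩
  -- the middle edges
  have h3 : ∀ j (hj : j ≤ len δ a b), |h (a, b, 0) - h (a, b, ⟨j, by omega⟩)| ≤ j * K := by
    intro j
    induction j with
    | zero =>
      intro _
      have : (⟨0, by omega⟩ : Fin (N + 1)) = 0 := rfl
      rw [this, sub_self, abs_zero]
      simp
    | succ j ih =>
      intro hj
      have h4 := ih (by omega)
      have h5 : |h (a, b, ⟨j, by omega⟩) - h (a, b, ⟨j + 1, by omega⟩)| ≤ K :=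
        hh ⟨((a, b, ⟨j, by omega⟩), (a, b, ⟨j + 1, by omega⟩)), fun f K hK hf => by
          unfold lift
          simp only
          have hj1 : ((j : ℕ) : ℝ) / len δ a b ≤ 1 := by
            rw [div_le_one hlen]
            exact_mod_cast (by omega : j ≤ len δ a b)
          have hj2 : ((j + 1 : ℕ) : ℝ) / len δ a b ≤ 1 := by
            rw [div_le_one hlen]
            exact_mod_cast hj
          rw [min_eq_right hj1, min_eq_right hj2]
          have e : f a + (j : ℝ) / len δ a b * (f b - f a) -
              (f a + ((j + 1 : ℕ) : ℝ) / len δ a b * (f b - f a)) =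
              -((f b - f a) / len δ a b) := by
            push_cast
            ring
          rw [e, abs_neg, abs_div, abs_of_pos hlen, div_le_iff₀ hlen]
          have := hf b a
          rw [dist_comm] at this
          exact this.trans (mul_le_mul_of_nonneg_left hceil hK)⟩
      calc |h (a, b, 0) - h (a, b, ⟨j + 1, by omega⟩)|
          ≤ |h (a, b, 0) - h (a, b, ⟨j, by omega⟩)| +
            |h (a, b, ⟨j, by omega⟩) - h (a, b, ⟨j + 1, by omega⟩)| := abs_sub_le _ _ _
        _ ≤ j * K + K := add_le_add h4 h5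
        _ = ((j + 1 : ℕ) : ℝ) * K := by push_cast; ring
  have h6 := h3 (len δ a b) le_rfl
  calc |h (a, a, 0) - h (b, b, 0)| ≤ |h (a, a, 0) - h (a, b, 0)| + |h (a, b, 0) - h (b, b, 0)| :=
        abs_sub_le _ _ _
    _ ≤ |h (a, a, 0) - h (a, b, 0)| + (|h (a, b, 0) - h (a, b, ⟨len δ a b, by omega⟩)| +
        |h (a, b, ⟨len δ a b, by omega⟩) - h (b, b, 0)|) :=
        add_le_add le_rfl (abs_sub_le _ _ _)
    _ ≤ K + (len δ a b * K + K) := add_le_add h1 (add_le_add h6 h2)
    _ = ((len δ a b : ℝ) + 2) * K := by ring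

end

section Code

variable {V E : Type*} [Fintype V] [DecidableEq V] [Fintype E] [DecidableEq E]

/-- The embedding of the cover in a Hamming cube. -/
def code (s t : E → V) (g : ℕ) (p : V × (E → ZMod 2)) : E ⊕ ((V → ZMod 2) × Fin g) → Bool :=
  Sum.elim (fun e => decide (p.2 e = 1)) fun x => decide (x.1 = kap s t p)

theorem hd_code (s t : E → V) (g : ℕ) (p q : V × (E → ZMod 2)) :
    hammingDist (code s t g p) (code s t g q) = rho s t (2 * g) p q := by
  unfold hammingDist
  rw [Finset.card_filter, Fintype.sum_sum_type]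
  have h1 : ∑ e : E, (if code s t g p (Sum.inl e) ≠ code s t g q (Sum.inl e) then 1 else 0) =
      hammingDist p.2 q.2 := by
    rw [hd_sum]
    refine Finset.sum_congr rfl fun e _ => ?_
    have key : ∀ x y : ZMod 2, ((if decide (x = 1) ≠ decide (y = 1) then 1 else 0) : ℕ) =
        if x ≠ y then 1 else 0 := by decide
    exact key _ _
  have h2 : ∑ x : (V → ZMod 2) × Fin g,
      (if code s t g p (Sum.inr x) ≠ code s t g q (Sum.inr x) then 1 else 0) =
      if kap s t p = kap s t q then 0 else 2 * g := by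
    rw [Fintype.sum_prod_type]
    have h3 : ∀ x : V → ZMod 2, ∑ j : Fin g,
        (if code s t g p (Sum.inr (x, j)) ≠ code s t g q (Sum.inr (x, j)) then 1 else 0) =
        g * (if decide (x = kap s t p) ≠ decide (x = kap s t q) then 1 else 0) := by
      intro x
      have : ∀ j : Fin g,
          ((if code s t g p (Sum.inr (x, j)) ≠ code s t g q (Sum.inr (x, j)) then 1 else 0) : ℕ) =
          if decide (x = kap s t p) ≠ decide (x = kap s t q) then 1 else 0 := fun j => rfl
      simp only [this, Finset.sum_const, Finset.card_univ, Fintype.card_fin, smul_eq_mul]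
    simp only [h3]
    rw [← Finset.mul_sum]
    by_cases hk : kap s t p = kap s t q
    · rw [if_pos hk]
      simp [hk]
    · rw [if_neg hk]
      have h4 : ∀ x : V → ZMod 2,
          ((if decide (x = kap s t p) ≠ decide (x = kap s t q) then 1 else 0) : ℕ) =
          (if x = kap s t p then 1 else 0) + if x = kap s t q then 1 else 0 := by
        intro x
        by_cases hx : x = kap s t p
        · have hx' : x ≠ kap s t q := fun h => hk (hx.symm.trans h)
          simp [hx, hk]
        · by_cases hx' : x = kap s t q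
          · simp [hx', Ne.symm hk]
          · simp [hx, hx']
      simp only [h4, Finset.sum_add_distrib, Finset.sum_ite_eq', Finset.mem_univ, if_true]
      ring
  have h1' : ∑ e : E, (if code s t g p (Sum.inl e) ≠ code s t g q (Sum.inl e) then 1 else 0) +
      ∑ x : (V → ZMod 2) × Fin g,
        (if code s t g p (Sum.inr x) ≠ code s t g q (Sum.inr x) then 1 else 0) =
      rho s t (2 * g) p q := by
    rw [h1, h2]
    rfl
  exact h1'

theorem rho_edge (s t : E → V) (N : ℕ) (x : E × (E → ZMod 2)) :
    rho s t N (cs s x) (ct t x) = 1 := by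
  have hk : kap s t (cs s x) = kap s t (ct t x) := by
    unfold kap cs ct
    simp only
    rw [map_add, bd_single, be]
    funext v
    simp only [Pi.add_apply]
    have := zmod2_add_self ((Pi.single (t x.1) 1 : V → ZMod 2) v)
    linear_combination -this
  rw [rho_of_kap hk]
  exact hd_single _ _

end Code

end Base

end Pool.Agent.Lib.MP_65fa9b_an
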