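import Pool.Agent.Lib.MP_65fa9b_an.Graph

/-!
# Averaging over the fibres of a cover
-/

set_option autoImplicit false

namespace Pool.Agent.Lib.MP_65fa9b_an

namespace Gr

universe u

section

variable {V E V' E' V'' E'' : Type*}

/-- `f` changes by at most `K` along every edge. -/
def EL (s t : E → V) (K : ℝ) (f : V → ℝ) : Prop := ∀ e, |f (s e) - f (t e)| ≤ K

/-- A map of graphs `π` with an averaging operator. -/
def IsCover (s t : E → V) (s' t' : E' → V') : Prop :=
  ∃ (π : V' → V) (A : (V' → ℝ) →ₗ[ℝ] (V → ℝ)), (∀ f, A (f ∘ π) = f) ∧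
    (∀ K h, EL s' t' K h → EL s t K (A h)) ∧ (∀ K f, EL s t K f → EL s' t' K (f ∘ π))

theorem IsCover.refl (s t : E → V) : IsCover s t s t :=
  ⟨id, LinearMap.id, fun _ => rfl, fun _ _ h => h, fun _ _ h => h⟩

theorem IsCover.trans {s t : E → V} {s' t' : E' → V'} {s'' t'' : E'' → V''}
    (h : IsCover s t s' t') (h' : IsCover s' t' s'' t'') : IsCover s t s'' t'' := by
  obtain ⟨π, A, h1, h2, h3⟩ := h
  obtain ⟨π', A', h1', h2', h3'⟩ := h'
  refine ⟨π ∘ π', A.comp A', fun f => ?_, fun K f hf => h2 K _ (h2' K f hf), fun K f hf => ?_⟩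
  · have := h1' (f ∘ π)
    rw [LinearMap.comp_apply, ← Function.comp_assoc, this, h1]
  · rw [← Function.comp_assoc]
    exact h3' K _ (h3 K f hf)

end

section

variable {V E : Type*} [Fintype V] [DecidableEq V] [Fintype E] [DecidableEq E]

/-- Averages over the fibres. -/
noncomputable def avg (V E : Type*) [Fintype E] [DecidableEq E] :
    (V × (E → ZMod 2) → ℝ) →ₗ[ℝ] (V → ℝ) where
  toFun h := fun v => (Fintype.card (E → ZMod 2) : ℝ)⁻¹ * ∑ S : E → ZMod 2, h (v, S)
  map_add' f g := by
    funext v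
    simp only [Pi.add_apply, Finset.sum_add_distrib, mul_add]
  map_smul' c f := by
    funext v
    simp only [Pi.smul_apply, smul_eq_mul, ← Finset.mul_sum, RingHom.id_apply]
    ring

theorem avg_apply (h : V × (E → ZMod 2) → ℝ) (v : V) :
    avg V E h v = (Fintype.card (E → ZMod 2) : ℝ)⁻¹ * ∑ S : E → ZMod 2, h (v, S) := rfl

theorem card_ne : (Fintype.card (E → ZMod 2) : ℝ) ≠ 0 := by
  have : 0 < Fintype.card (E → ZMod 2) := Fintype.card_pos
  positivity

theorem avg_comp (f : V → ℝ) : avg V E (f ∘ Prod.fst) = f := by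
  funext v
  rw [avg_apply]
  simp only [Function.comp_apply, Finset.sum_const, nsmul_eq_mul, Finset.card_univ]
  rw [← mul_assoc, inv_mul_cancel₀ (card_ne (E := E)), one_mul]

/-- Averages of functions with small increments along the lifts of an edge. -/
theorem avg_EL (s t : E → V) (K : ℝ) (h : V × (E → ZMod 2) → ℝ) (hh : EL (cs s) (ct t) K h) :
    EL s t K (avg V E h) := by
  intro e
  rw [avg_apply, avg_apply]
  have h1 : ∑ S : E → ZMod 2, h (t e, S) = ∑ S : E → ZMod 2, h (t e, S + Pi.single e 1) :=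
    (Equiv.sum_comp (Equiv.addRight (Pi.single e (1 : ZMod 2) : E → ZMod 2))
      fun S => h (t e, S)).symm
  rw [h1, ← mul_sub, ← Finset.sum_sub_distrib, abs_mul]
  have hpos : (0 : ℝ) < Fintype.card (E → ZMod 2) := by
    have : 0 < Fintype.card (E → ZMod 2) := Fintype.card_pos
    positivity
  rw [abs_of_pos (inv_pos.mpr hpos)]
  calc (Fintype.card (E → ZMod 2) : ℝ)⁻¹ * |∑ S : E → ZMod 2,
        (h (s e, S) - h (t e, S + Pi.single e 1))|
      ≤ (Fintype.card (E → ZMod 2) : ℝ)⁻¹ * ∑ S : E → ZMod 2, K := by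
        refine mul_le_mul_of_nonneg_left ?_ (inv_pos.mpr hpos).le
        refine (Finset.abs_sum_le_sum_abs _ _).trans (Finset.sum_le_sum fun S _ => ?_)
        exact hh (e, S)
    _ = K := by
        rw [Finset.sum_const, nsmul_eq_mul, Finset.card_univ, ← mul_assoc,
          inv_mul_cancel₀ hpos.ne', one_mul]

theorem isCover_cover (s t : E → V) : IsCover s t (cs s) (ct t) :=
  ⟨Prod.fst, avg V E, avg_comp, avg_EL s t, fun _ _ hf x => hf x.1⟩

end

/-- Covers of large girth. -/
theorem exists_cover (k : ℕ) (V E : Type u) [Fintype V] [DecidableEq V] [Fintype E] [DecidableEq E]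
    (s t : E → V) : ∃ (V' E' : Type u) (_ : Fintype V') (_ : DecidableEq V') (_ : Fintype E')
      (_ : DecidableEq E') (s' t' : E' → V'), IsCover s t s' t' ∧ Girth s' t' (2 ^ k) := by
  induction k with
  | zero => exact ⟨V, E, inferInstance, inferInstance, inferInstance, inferInstance, s, t,
      IsCover.refl s t, by simpa using girth_one s t⟩
  | succ k ih =>
    obtain ⟨V', E', i1, i2, i3, i4, s', t', hc, hg⟩ := ih
    refine ⟨V' × (E' → ZMod 2), E' × (E' → ZMod 2), inferInstance, inferInstance, inferInstance,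
      inferInstance, cs s', ct t', hc.trans (isCover_cover s' t'), ?_⟩
    rw [pow_succ, mul_comm]
    exact girth_cover hg

end Gr

end Pool.Agent.Lib.MP_65fa9b_an
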