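import Pool.Agent.Lib.MP_65fa9b_an.MainGen

/-!
# Necessity of the local condition
-/

set_option autoImplicit false

open Metric Set Filter Topology

namespace Pool.Agent.Lib.MP_65fa9b_an

variable {X : Type*} [NormedAddCommGroup X] [NormedSpace ℝ X]

/-- A sequence of finite sets, scaled and moved far apart. -/
structure Copies (X : Type*) [NormedAddCommGroup X] [NormedSpace ℝ X] where
  F : ℕ → Set X
  p : ∀ n, F n
  D : ℕ → ℝ
  D_pos : ∀ n, 0 < D n
  D_le : ∀ n, ∀ x ∈ F n, ‖x - p n‖ ≤ D n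
  e : X
  norm_e : ‖e‖ = 1

namespace Copies

variable (S : Copies X)

/-- The placement map. -/
noncomputable def ψ (n : ℕ) (x : X) : X :=
  (4 * ((n : ℝ) + 1)) • S.e + (S.D n)⁻¹ • (x - S.p n)

/-- The union of the unit ball and the copies. -/
def M : Set X := closedBall 0 1 ∪ ⋃ n, S.ψ n '' S.F n

theorem zero_mem : (0 : X) ∈ S.M := Or.inl (mem_closedBall_self zero_le_one)

theorem ψ_mem (n : ℕ) {x : X} (hx : x ∈ S.F n) : S.ψ n x ∈ S.M :=
  Or.inr (mem_iUnion.mpr ⟨n, x, hx, rfl⟩)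

theorem ψ_sub (n : ℕ) (x y : X) : S.ψ n x - S.ψ n y = (S.D n)⁻¹ • (x - y) := by
  unfold ψ
  rw [add_sub_add_left_eq_sub, ← smul_sub, sub_sub_sub_cancel_right]

theorem norm_ψ_sub (n : ℕ) (x y : X) : ‖S.ψ n x - S.ψ n y‖ = (S.D n)⁻¹ * ‖x - y‖ := by
  rw [ψ_sub, norm_smul, Real.norm_eq_abs, abs_of_pos (inv_pos.mpr (S.D_pos n))]

theorem norm_ψ_center (n : ℕ) {x : X} (hx : x ∈ S.F n) :
    ‖S.ψ n x - (4 * ((n : ℝ) + 1)) • S.e‖ ≤ 1 := by
  unfold ψ
  rw [add_sub_cancel_left, norm_smul, Real.norm_eq_abs, abs_of_pos (inv_pos.mpr (S.D_pos n)),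
    inv_mul_le_iff₀ (S.D_pos n), mul_one]
  exact S.D_le n x hx

theorem ψ_inj (n : ℕ) {x y : X} (h : S.ψ n x = S.ψ n y) : x = y := by
  have h1 := S.norm_ψ_sub n x y
  rw [h, sub_self, norm_zero] at h1
  have h2 : ‖x - y‖ = 0 := by
    rcases mul_eq_zero.mp h1.symm with h3 | h3
    · exact absurd h3 (inv_pos.mpr (S.D_pos n)).ne'
    · exact h3
  exact sub_eq_zero.mp (norm_eq_zero.mp h2)

/-- The copies are far from the rest. -/
theorem far (n : ℕ) {x : X} (hx : x ∈ S.F n) {y : X} (hy : y ∈ S.M) (hy' : y ∉ S.ψ n '' S.F n) :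
    1 ≤ ‖S.ψ n x - y‖ := by
  have h1 := S.norm_ψ_center n hx
  rcases hy with hy | hy
  · have h2 : ‖(4 * ((n : ℝ) + 1)) • S.e‖ = 4 * ((n : ℝ) + 1) := by
      rw [norm_smul, S.norm_e, mul_one, Real.norm_eq_abs, abs_of_pos (by positivity)]
    have h3 : ‖y‖ ≤ 1 := mem_closedBall_zero_iff.mp hy
    have h4 : (4 * ((n : ℝ) + 1)) • S.e =
        (S.ψ n x - y) - (S.ψ n x - (4 * ((n : ℝ) + 1)) • S.e) + y := by abel
    have h5 := norm_add_le ((S.ψ n x - y) - (S.ψ n x - (4 * ((n : ℝ) + 1)) • S.e)) y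
    have h6 := norm_sub_le (S.ψ n x - y) (S.ψ n x - (4 * ((n : ℝ) + 1)) • S.e)
    rw [← h4, h2] at h5
    have h7 : (0 : ℝ) ≤ n := Nat.cast_nonneg n
    linarith
  · obtain ⟨m, z, hz, rfl⟩ := mem_iUnion.mp hy
    have hmn : m ≠ n := by
      rintro rfl
      exact hy' ⟨z, hz, rfl⟩
    have h2 := S.norm_ψ_center m hz
    have h3 : ‖(4 * ((n : ℝ) + 1)) • S.e - (4 * ((m : ℝ) + 1)) • S.e‖ = 4 * |(n : ℝ) - m| := by
      rw [← sub_smul, norm_smul, S.norm_e, mul_one, Real.norm_eq_abs,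
        show 4 * ((n : ℝ) + 1) - 4 * ((m : ℝ) + 1) = 4 * ((n : ℝ) - m) by ring, abs_mul,
        abs_of_pos (by norm_num : (0 : ℝ) < 4)]
    have h4 : 1 ≤ |(n : ℝ) - m| := by
      have : (1 : ℤ) ≤ |(n : ℤ) - m| := by
        apply Int.one_le_abs
        intro h0
        apply hmn
        omega
      exact_mod_cast this
    have h5 : (4 * ((n : ℝ) + 1)) • S.e - (4 * ((m : ℝ) + 1)) • S.e =
        (S.ψ n x - S.ψ m z) - (S.ψ n x - (4 * ((n : ℝ) + 1)) • S.e) +
          (S.ψ m z - (4 * ((m : ℝ) + 1)) • S.e) := by abel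
    have h6 := norm_add_le ((S.ψ n x - S.ψ m z) - (S.ψ n x - (4 * ((n : ℝ) + 1)) • S.e))
      (S.ψ m z - (4 * ((m : ℝ) + 1)) • S.e)
    have h7 := norm_sub_le (S.ψ n x - S.ψ m z) (S.ψ n x - (4 * ((n : ℝ) + 1)) • S.e)
    rw [← h5, h3] at h6
    linarith

open Classical in
/-- Extension by zero from a copy. -/
noncomputable def ez (n : ℕ) (f : Lip0 (S.F n) (S.p n)) (y : X) : ℝ :=
  if h : ∃ x : S.F n, S.ψ n x = y then (S.D n)⁻¹ * f h.choose else 0

theorem ez_ψ (n : ℕ) (f : Lip0 (S.F n) (S.p n)) (x : S.F n) :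
    S.ez n f (S.ψ n x) = (S.D n)⁻¹ * f x := by
  have h : ∃ x' : S.F n, S.ψ n x' = S.ψ n x := ⟨x, rfl⟩
  have h1 : h.choose = x := Subtype.ext (S.ψ_inj n h.choose_spec)
  unfold ez
  rw [dif_pos h, h1]

theorem ez_of_not (n : ℕ) (f : Lip0 (S.F n) (S.p n)) {y : X} (hy : y ∉ S.ψ n '' S.F n) :
    S.ez n f y = 0 := by
  unfold ez
  rw [dif_neg]
  rintro ⟨x, hx⟩
  exact hy ⟨x, x.2, hx⟩

theorem abs_f_le (n : ℕ) (f : Lip0 (S.F n) (S.p n)) (x : S.F n) :
    (S.D n)⁻¹ * |f x| ≤ ‖f‖ := by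
  rw [inv_mul_le_iff₀ (S.D_pos n)]
  have h := f.abs_sub_le x (S.p n)
  rw [f.map_base, sub_zero] at h
  refine h.trans ?_
  rw [mul_comm]
  refine mul_le_mul_of_nonneg_right ?_ (norm_nonneg _)
  rw [Subtype.dist_eq, dist_eq_norm]
  exact S.D_le n x x.2

theorem ez_lip (n : ℕ) (f : Lip0 (S.F n) (S.p n)) {y y' : X} (hy : y ∈ S.M) (hy' : y' ∈ S.M) :
    |S.ez n f y - S.ez n f y'| ≤ ‖f‖ * ‖y - y'‖ := by
  have hD := inv_pos.mpr (S.D_pos n)
  by_cases h : y ∈ S.ψ n '' S.F n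
  · obtain ⟨x, hx, rfl⟩ := h
    have e1 := S.ez_ψ n f ⟨x, hx⟩
    by_cases h' : y' ∈ S.ψ n '' S.F n
    · obtain ⟨x', hx', rfl⟩ := h'
      have e2 := S.ez_ψ n f ⟨x', hx'⟩
      rw [e1, e2, ← mul_sub, abs_mul, abs_of_pos hD, norm_ψ_sub]
      have h1 := f.abs_sub_le ⟨x, hx⟩ ⟨x', hx'⟩
      rw [Subtype.dist_eq, dist_eq_norm] at h1
      calc (S.D n)⁻¹ * |f ⟨x, hx⟩ - f ⟨x', hx'⟩| ≤ (S.D n)⁻¹ * (‖f‖ * ‖x - x'‖) :=
            mul_le_mul_of_nonneg_left h1 hD.le
        _ = ‖f‖ * ((S.D n)⁻¹ * ‖x - x'‖) := by ring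
    · rw [e1, S.ez_of_not n f h', sub_zero, abs_mul, abs_of_pos hD]
      have h1 := S.far n hx hy' h'
      have h2 := S.abs_f_le n f ⟨x, hx⟩
      calc _ ≤ ‖f‖ * 1 := by rw [mul_one]; exact h2
        _ ≤ ‖f‖ * ‖S.ψ n x - y'‖ := mul_le_mul_of_nonneg_left h1 (norm_nonneg _)
  · rw [S.ez_of_not n f h]
    by_cases h' : y' ∈ S.ψ n '' S.F n
    · obtain ⟨x', hx', rfl⟩ := h'
      have e2 := S.ez_ψ n f ⟨x', hx'⟩
      rw [e2, zero_sub, abs_neg, abs_mul, abs_of_pos hD, norm_sub_rev]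
      have h1 := S.far n hx' hy h
      have h2 := S.abs_f_le n f ⟨x', hx'⟩
      calc _ ≤ ‖f‖ * 1 := by rw [mul_one]; exact h2
        _ ≤ ‖f‖ * ‖S.ψ n x' - y‖ := mul_le_mul_of_nonneg_left h1 (norm_nonneg _)
    · rw [S.ez_of_not n f h', sub_zero, abs_zero]
      positivity

theorem zero_not (n : ℕ) : (0 : X) ∉ S.ψ n '' S.F n := by
  rintro ⟨x, hx, h0⟩
  have h1 := S.norm_ψ_center n hx
  rw [h0, zero_sub, norm_neg, norm_smul, S.norm_e, mul_one, Real.norm_eq_abs,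
    abs_of_pos (by positivity)] at h1
  have : (0 : ℝ) ≤ n := Nat.cast_nonneg n
  linarith

theorem ez_add (n : ℕ) (f g : Lip0 (S.F n) (S.p n)) (y : X) :
    S.ez n (f + g) y = S.ez n f y + S.ez n g y := by
  unfold ez
  by_cases h : ∃ x : S.F n, S.ψ n x = y
  · simp only [h, dif_pos, Lip0.add_apply]
    ring
  · simp only [h, not_false_eq_true, dif_neg, add_zero]

theorem ez_smul (n : ℕ) (c : ℝ) (f : Lip0 (S.F n) (S.p n)) (y : X) :
    S.ez n (c • f) y = c * S.ez n f y := by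
  unfold ez
  by_cases h : ∃ x : S.F n, S.ψ n x = y
  · simp only [h, dif_pos, Lip0.smul_apply]
    ring
  · simp only [h, not_false_eq_true, dif_neg, mul_zero]

/-- The Lipschitz space of each finite set factors through the Lipschitz space of the union. -/
theorem facC (n : ℕ) : FacC 1 (Lip0 (S.F n) (S.p n)) (Lip0 S.M (⟨0, S.zero_mem⟩ : S.M)) := by
  have hD := S.D_pos n
  let J : Lip0 (S.F n) (S.p n) →L[ℝ] Lip0 S.M (⟨0, S.zero_mem⟩ : S.M) := LinearMap.mkContinuous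
    { toFun := fun f => ⟨fun y => S.ez n f y, S.ez_of_not n f (S.zero_not n),
        ‖f‖₊, LipschitzWith.of_dist_le_mul fun y y' => by
          rw [Real.dist_eq, Subtype.dist_eq, dist_eq_norm]
          exact S.ez_lip n f y.2 y'.2⟩
      map_add' := fun f g => by
        apply DFunLike.ext
        intro y
        exact S.ez_add n f g y
      map_smul' := fun c f => by
        apply DFunLike.ext
        intro y
        exact S.ez_smul n c f y }
    1 (fun f => by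
      refine Lip0.norm_le _ (by positivity) fun y y' => ?_
      show |S.ez n f y - S.ez n f y'| ≤ _
      rw [one_mul, Subtype.dist_eq, dist_eq_norm]
      exact S.ez_lip n f y.2 y'.2)
  let m : S.F n → S.M := fun x => ⟨S.ψ n x, S.ψ_mem n x.2⟩
  have hlip : ∀ h : Lip0 S.M (⟨0, S.zero_mem⟩ : S.M), ∀ x x' : S.F n,
      |S.D n * h (m x) - S.D n * h (m x')| ≤ ‖h‖ * dist x x' := by
    intro h x x'
    have h1 := h.abs_sub_le (m x) (m x')
    have h2 : dist (m x) (m x') = (S.D n)⁻¹ * dist x x' := by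
      rw [Subtype.dist_eq, dist_eq_norm, Subtype.dist_eq, dist_eq_norm]
      exact S.norm_ψ_sub n x x'
    rw [← mul_sub, abs_mul, abs_of_pos hD]
    rw [h2] at h1
    calc S.D n * |h (m x) - h (m x')| ≤ S.D n * (‖h‖ * ((S.D n)⁻¹ * dist x x')) :=
          mul_le_mul_of_nonneg_left h1 hD.le
      _ = ‖h‖ * dist x x' := by field_simp
  let R : Lip0 S.M (⟨0, S.zero_mem⟩ : S.M) →L[ℝ] Lip0 (S.F n) (S.p n) := LinearMap.mkContinuous
    { toFun := fun h => ⟨fun x => S.D n * h (m x) - S.D n * h (m (S.p n)), sub_self _,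
        ‖h‖₊, LipschitzWith.of_dist_le_mul fun x x' => by
          rw [Real.dist_eq, sub_sub_sub_cancel_right]
          exact hlip h x x'⟩
      map_add' := fun h h' => by
        apply DFunLike.ext
        intro x
        show S.D n * (h (m x) + h' (m x)) - S.D n * (h (m (S.p n)) + h' (m (S.p n))) =
          (S.D n * h (m x) - S.D n * h (m (S.p n))) + (S.D n * h' (m x) - S.D n * h' (m (S.p n)))
        ring
      map_smul' := fun c h => by
        apply DFunLike.ext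
        intro x
        show S.D n * (c * h (m x)) - S.D n * (c * h (m (S.p n))) =
          c * (S.D n * h (m x) - S.D n * h (m (S.p n)))
        ring }
    1 (fun h => by
      refine Lip0.norm_le _ (by positivity) fun x x' => ?_
      show |(S.D n * h (m x) - S.D n * h (m (S.p n))) -
        (S.D n * h (m x') - S.D n * h (m (S.p n)))| ≤ _
      rw [sub_sub_sub_cancel_right, one_mul]
      exact hlip h x x')
  refine ⟨J, R, fun f => ?_, LinearMap.mkContinuous_norm_le _ zero_le_one _,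
    LinearMap.mkContinuous_norm_le _ zero_le_one _⟩
  apply DFunLike.ext
  intro x
  show S.D n * S.ez n f (S.ψ n x) - S.D n * S.ez n f (S.ψ n (S.p n)) = f x
  rw [S.ez_ψ, S.ez_ψ, f.map_base]
  field_simp
  ring

theorem not_porous [Nontrivial X] : ¬ Porous S.M := by
  rintro ⟨c, hc, h⟩
  obtain ⟨x, hx⟩ := h 0 1 one_pos (by rw [ediam_univ]; exact le_top)
  have h1 := hx (mem_closedBall_self (by positivity))
  exact h1.2 (Or.inl h1.1)

end Copies

/-- If all `Lip₀(M)`, `M` containing the unit ball, factor through `Lip₀(X)`, then the local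
condition holds. -/
theorem localCondition_of_fac [Nontrivial X]
    (h : ∀ (M : Set X), ¬ Porous M → ∀ p : M, Fac (Lip0 M p) (Lip0 X (0 : X))) :
    LocalCondition X := by
  by_contra hcon
  unfold LocalCondition at hcon
  push Not at hcon
  choose F hF p hp using hcon
  obtain ⟨e, he⟩ := exists_unit (X := X)
  have hD : ∀ n : ℕ, ∃ D : ℝ, 0 < D ∧ ∀ x ∈ F n, ‖x - p n‖ ≤ D := by
    intro n
    obtain ⟨B, hB⟩ := (hF n).isBounded.subset_closedBall ((p n : F n) : X)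
    refine ⟨max B 1, lt_of_lt_of_le one_pos (le_max_right _ _), fun x hx => ?_⟩
    have := hB hx
    rw [mem_closedBall, dist_eq_norm] at this
    exact this.trans (le_max_left _ _)
  choose D hD1 hD2 using hD
  let S : Copies X := ⟨fun n => F n, fun n => p n, D, hD1, hD2, e, he⟩
  obtain ⟨J, R, hJR⟩ := h S.M S.not_porous ⟨0, S.zero_mem⟩
  have h1 : FacC (max ‖J‖ ‖R‖) (Lip0 S.M (⟨0, S.zero_mem⟩ : S.M)) (Lip0 X (0 : X)) :=
    ⟨J, R, hJR, le_max_left _ _, le_max_right _ _⟩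
  obtain ⟨n, hn⟩ := exists_nat_ge (1 * max ‖J‖ ‖R‖)
  obtain ⟨J', R', h2, h3, h4⟩ := ((S.facC n).trans h1).mono hn
  exact absurd h4 (not_le.mpr (hp n J' R' h2 h3))

/-- The local criterion. -/
theorem criterion (hX : ¬ FiniteDimensional ℝ X) :
    List.TFAE [
      ∀ M : Set X, ¬ Porous M → ∀ (p : M) (q : X), Nonempty (Lip0 M p ≃L[ℝ] Lip0 X q),
      ∀ (M : Set X) (p : M) (q : X), ∃ (J : Lip0 M p →L[ℝ] Lip0 X q)
        (R : Lip0 X q →L[ℝ] Lip0 M p), ∀ f, R (J f) = f,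
      LocalCondition X] := by
  have hnt := nontrivial_of_not_fd hX
  tfae_have 3 → 1 := fun h M hM p q => main_equiv_gen hX h hM p q
  tfae_have 3 → 2 := fun h M p q => complemented_gen hX h p q
  tfae_have 1 → 3 := fun h => localCondition_of_fac fun M hM p => by
    obtain ⟨e⟩ := h M hM p 0
    exact Fac.of_equiv e
  tfae_have 2 → 3 := fun h => localCondition_of_fac fun M _ p => h M p 0
  tfae_finish

end Pool.Agent.Lib.MP_65fa9b_an
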