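import Pool.Agent.Lib.MP_65fa9b_an.Tree

/-!
# The extension operator for locally tree-like subsets of normed spaces
-/

set_option autoImplicit false

namespace Pool.Agent.Lib.MP_65fa9b_an

namespace LocTree

variable {P : Type*} {ρ : P → P → ℕ} {g : ℕ} {X : Type*} [NormedAddCommGroup X] [Fintype P]
  [Nonempty P] {A : P → X} {R : ℝ}

/-- Near the set, the weights are concentrated near one point and add up to `1`. -/
theorem lam_lemma (h : LocTree ρ g) (hR : 1 ≤ R) (hg : 40 * R < g)
    (hA : ∀ p q, (ρ p q : ℝ) ≤ ‖A p - A q‖) {y : X} {p : P} (hp : ‖y - A p‖ ≤ R) :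
    ∃ (u v : P), (∑ z, lam ρ A R z y = 1) ∧ (∀ z, z ≠ u → z ≠ v → lam ρ A R z y = 0) ∧
      (∀ z, far ρ A R z y < rad ρ A R y + 2 → ρ z u ≤ 2) := by
  classical
  obtain ⟨u, v, t, ht0, ht1, hu, hv, hvu, hz, hz2⟩ := structure_lemma h hR hg hA hp
  have hzero : ∀ z, z ≠ u → z ≠ v → lam ρ A R z y = 0 := by
    intro z h1 h2
    have := hz z h1 h2
    exact max_eq_left (by linarith)
  have hlu : lam ρ A R u y = 1 - t := by
    unfold lam
    rw [hu, max_eq_right (by linarith)]
    ring
  refine ⟨u, v, ?_, hzero, hz2⟩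
  by_cases hne : v = u
  · have ht := hvu hne
    rw [Finset.sum_eq_single u]
    · rw [hlu, ht, sub_zero]
    · intro z _ hzu
      exact hzero z hzu (by rw [hne]; exact hzu)
    · intro h'
      exact absurd (Finset.mem_univ _) h'
  · have hlv : lam ρ A R v y = t := by
      unfold lam
      rw [hv hne, max_eq_right (by linarith)]
      ring
    rw [← Finset.sum_subset (Finset.subset_univ {u, v})]
    · rw [Finset.sum_pair (Ne.symm hne), hlu, hlv]
      ring
    · intro z _ hzuv
      simp only [Finset.mem_insert, Finset.mem_singleton, not_or] at hzuv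
      exact hzero z hzuv.1 hzuv.2

/-- Functions with unit increments are Lipschitz at small distances. -/
theorem abs_sub_le_of_step (h : LocTree ρ g) {f : P → ℝ} {K : ℝ}
    (hf : ∀ p q, ρ p q = 1 → |f p - f q| ≤ K) :
    ∀ (n : ℕ) (p q : P), ρ p q = n → n < g → |f p - f q| ≤ n * K := by
  intro n
  induction n with
  | zero =>
    intro p q hpq _
    rw [h.eq_of p q hpq]
    simp
  | succ n ih =>
    intro p q hpq hn
    have hne : p ≠ q := by
      rintro rfl
      rw [h.self] at hpq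
      omega
    obtain ⟨p', hp1, hp2⟩ := h.step p q hne (by omega)
    have h1 := ih p' q (by omega) (by omega)
    have h2 := hf p p' hp1
    calc |f p - f q| ≤ |f p - f p'| + |f p' - f q| := abs_sub_le _ _ _
      _ ≤ K + n * K := add_le_add h2 h1
      _ = ((n + 1 : ℕ) : ℝ) * K := by push_cast; ring

/-- The main local estimate. -/
theorem abs_G_sub_le (h : LocTree ρ g) (hR : 1 ≤ R) (hg : 40 * R < g)
    (hA : ∀ p q, (ρ p q : ℝ) ≤ ‖A p - A q‖) {f : P → ℝ} {K : ℝ} (hK : 0 ≤ K)
    (hf : ∀ p q, ρ p q = 1 → |f p - f q| ≤ K)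
    {y y' : X} {p p' : P} (hp : ‖y - A p‖ ≤ R) (hp' : ‖y' - A p'‖ ≤ R) (hy : ‖y - y'‖ ≤ 1 / 8) :
    |∑ z, lam ρ A R z y * f z - ∑ z, lam ρ A R z y' * f z| ≤ 32 * K * ‖y - y'‖ := by
  classical
  obtain ⟨u, v, hsum, hzero, h2⟩ := lam_lemma h hR hg hA hp
  obtain ⟨u', v', hsum', hzero', -⟩ := lam_lemma h hR hg hA hp'
  have hgg : 2 < g := by
    have : (2 : ℝ) < g := by linarith
    exact_mod_cast this
  have e1 : ∑ z, lam ρ A R z y * f z - ∑ z, lam ρ A R z y' * f z =
      ∑ z, (lam ρ A R z y - lam ρ A R z y') * (f z - f u) := by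
    have : ∀ z, (lam ρ A R z y - lam ρ A R z y') * (f z - f u) =
        lam ρ A R z y * f z - lam ρ A R z y' * f z - (lam ρ A R z y * f u - lam ρ A R z y' * f u) :=
      fun z => by ring
    simp only [this, Finset.sum_sub_distrib, ← Finset.sum_mul, hsum, hsum']
    ring
  rw [e1]
  have hterm : ∀ z, |(lam ρ A R z y - lam ρ A R z y') * (f z - f u)| ≤ 4 * ‖y - y'‖ * (2 * K) := by
    intro z
    by_cases hfar : far ρ A R z y < rad ρ A R y + 2
    · have h3 := h2 z hfar
      have h4 := abs_sub_le_of_step h hf (ρ z u) z u rfl (by omega)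
      have h5 : ((ρ z u : ℕ) : ℝ) * K ≤ 2 * K := by
        refine mul_le_mul_of_nonneg_right ?_ hK
        exact_mod_cast h3
      rw [abs_mul]
      exact mul_le_mul (abs_lam_sub_le z y y') (h4.trans h5) (abs_nonneg _) (by positivity)
    · push Not at hfar
      have h3 : lam ρ A R z y = 0 := max_eq_left (by linarith)
      have h4 : lam ρ A R z y' = 0 := by
        refine max_eq_left ?_
        have h5 := far_le_far (ρ := ρ) (A := A) (R := R) z y y'
        have h6 := rad_le_rad (ρ := ρ) (A := A) (R := R) y' y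
        rw [norm_sub_rev y' y] at h6
        linarith
      rw [h3, h4, sub_self, zero_mul, abs_zero]
      positivity
  have hsub : ∑ z, (lam ρ A R z y - lam ρ A R z y') * (f z - f u) =
      ∑ z ∈ ({u, v, u', v'} : Finset P), (lam ρ A R z y - lam ρ A R z y') * (f z - f u) := by
    refine (Finset.sum_subset (Finset.subset_univ _) fun z _ hz => ?_).symm
    simp only [Finset.mem_insert, Finset.mem_singleton, not_or] at hz
    rw [hzero z hz.1 hz.2.1, hzero' z hz.2.2.1 hz.2.2.2, sub_self, zero_mul]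
  rw [hsub]
  have hcard : (({u, v, u', v'} : Finset P).card : ℝ) ≤ 4 := by
    exact_mod_cast Finset.card_le_four
  calc |∑ z ∈ ({u, v, u', v'} : Finset P), (lam ρ A R z y - lam ρ A R z y') * (f z - f u)|
      ≤ ∑ z ∈ ({u, v, u', v'} : Finset P),
        |(lam ρ A R z y - lam ρ A R z y') * (f z - f u)| := Finset.abs_sum_le_sum_abs _ _
    _ ≤ ∑ z ∈ ({u, v, u', v'} : Finset P), 4 * ‖y - y'‖ * (2 * K) :=
        Finset.sum_le_sum fun z _ => hterm z
    _ = (({u, v, u', v'} : Finset P).card : ℝ) * (4 * ‖y - y'‖ * (2 * K)) := by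
        rw [Finset.sum_const, nsmul_eq_mul]
    _ ≤ 4 * (4 * ‖y - y'‖ * (2 * K)) := mul_le_mul_of_nonneg_right hcard (by positivity)
    _ = 32 * K * ‖y - y'‖ := by ring

/-- The sum is bounded near the set. -/
theorem abs_G_le (h : LocTree ρ g) (hR : 1 ≤ R) (hg : 40 * R < g)
    (hA : ∀ p q, (ρ p q : ℝ) ≤ ‖A p - A q‖) {f : P → ℝ} {B : ℝ}
    (hf : ∀ p, |f p| ≤ B) {y : X} {p : P} (hp : ‖y - A p‖ ≤ R) :
    |∑ z, lam ρ A R z y * f z| ≤ B := by
  obtain ⟨u, v, hsum, -, -⟩ := lam_lemma h hR hg hA hp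
  calc |∑ z, lam ρ A R z y * f z| ≤ ∑ z, |lam ρ A R z y * f z| := Finset.abs_sum_le_sum_abs _ _
    _ ≤ ∑ z, lam ρ A R z y * B := Finset.sum_le_sum fun z _ => by
        rw [abs_mul, abs_of_nonneg (lam_nonneg z y)]
        exact mul_le_mul_of_nonneg_left (hf z) (lam_nonneg z y)
    _ = B := by rw [← Finset.sum_mul, hsum, one_mul]

/-- The local Lipschitz estimate. -/
theorem abs_ext_sub_le_local (h : LocTree ρ g) (hR : 1 ≤ R) (hg : 40 * R < g)
    (hA : ∀ p q, (ρ p q : ℝ) ≤ ‖A p - A q‖) {f : P → ℝ} {K : ℝ} (hK : 0 ≤ K)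
    (hf : ∀ p q, ρ p q = 1 → |f p - f q| ≤ K) (hf' : ∀ p, |f p| ≤ R * K)
    {y y' : X} (hy : ‖y - y'‖ ≤ 1 / 8) :
    |ext ρ A R f y - ext ρ A R f y'| ≤ 33 * K * ‖y - y'‖ := by
  have hR0 : 0 < R := by linarith
  have hnn := norm_nonneg (y - y')
  -- one point near, the other far
  have key : ∀ y y' : X, R ≤ dd A y' → |ext ρ A R f y - ext ρ A R f y'| ≤ K * ‖y - y'‖ := by
    intro y y' hfar'
    unfold ext
    rw [cf_eq_zero hR0 hfar', zero_mul, sub_zero, abs_mul]
    by_cases hnear : dd A y ≤ R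
    · obtain ⟨p, hp⟩ := exists_dd (A := A) y
      have h1 := abs_G_le h hR hg hA hf' (p := p) (by rw [← hp]; exact hnear)
      have h2 := abs_cf_sub_le (A := A) hR0 y y'
      rw [cf_eq_zero hR0 hfar', sub_zero] at h2
      calc |cf A R y| * |∑ z, lam ρ A R z y * f z| ≤ ‖y - y'‖ / R * (R * K) :=
            mul_le_mul h2 h1 (abs_nonneg _) (by positivity)
        _ = K * ‖y - y'‖ := by field_simp
    · push Not at hnear
      rw [cf_eq_zero hR0 hnear.le, abs_zero, zero_mul]
      positivity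
  by_cases h1 : dd A y ≤ R
  · by_cases h2 : dd A y' ≤ R
    · obtain ⟨p, hp⟩ := exists_dd (A := A) y
      obtain ⟨p', hp'⟩ := exists_dd (A := A) y'
      have hG := abs_G_sub_le h hR hg hA hK hf (p := p) (p' := p') (by rw [← hp]; exact h1)
        (by rw [← hp']; exact h2) hy
      have hB := abs_G_le h hR hg hA hf' (p := p') (by rw [← hp']; exact h2)
      have hc := abs_cf_sub_le (A := A) hR0 y y'
      have e1 : ext ρ A R f y - ext ρ A R f y' =
          cf A R y * (∑ z, lam ρ A R z y * f z - ∑ z, lam ρ A R z y' * f z) +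
          (cf A R y - cf A R y') * ∑ z, lam ρ A R z y' * f z := by
        unfold ext; ring
      rw [e1]
      calc _ ≤ |cf A R y * (∑ z, lam ρ A R z y * f z - ∑ z, lam ρ A R z y' * f z)| +
            |(cf A R y - cf A R y') * ∑ z, lam ρ A R z y' * f z| := abs_add_le _ _
        _ ≤ 1 * (32 * K * ‖y - y'‖) + ‖y - y'‖ / R * (R * K) := by
            rw [abs_mul, abs_mul]
            refine add_le_add ?_ ?_
            · rw [abs_of_nonneg (cf_nonneg y)]
              exact mul_le_mul (cf_le_one hR0 y) hG (abs_nonneg _) zero_le_one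
            · exact mul_le_mul hc hB (abs_nonneg _) (by positivity)
        _ = 33 * K * ‖y - y'‖ := by
            have : ‖y - y'‖ / R * (R * K) = K * ‖y - y'‖ := by field_simp
            rw [this]; ring
    · push Not at h2
      refine (key y y' h2.le).trans ?_
      have : 0 ≤ K * ‖y - y'‖ := by positivity
      nlinarith
  · push Not at h1
    have h3 := key y' y h1.le
    rw [abs_sub_comm, norm_sub_rev] at h3
    refine h3.trans ?_
    have : 0 ≤ K * ‖y - y'‖ := by positivity
    nlinarith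

/-- The extension operator extends. -/
theorem ext_apply (h : LocTree ρ g) (hR : 1 ≤ R) 
    (hA : ∀ p q, (ρ p q : ℝ) ≤ ‖A p - A q‖) (f : P → ℝ) (p : P) :
    ext ρ A R f (A p) = f p := by
  classical
  have hR0 : 0 < R := by linarith
  have hwp : wt A R p (A p) = 0 := by
    unfold wt
    rw [sub_self, norm_zero, th_of_le (by linarith)]
  have hfar : ∀ z, far ρ A R z (A p) = ρ z p := by
    intro z
    refine le_antisymm (far_le fun x => ?_) ?_
    · have h1 : (ρ z x : ℝ) ≤ ρ z p + ρ p x := by exact_mod_cast h.tri z p x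
      have h2 := hA p x
      have h3 : ‖A p - A x‖ ≤ wt A R x (A p) := le_th _ _
      linarith
    · have h1 := le_far (ρ := ρ) (A := A) (R := R) z p (A p)
      rwa [hwp, sub_zero] at h1
  have hrad : rad ρ A R (A p) = 0 := by
    refine le_antisymm (rad_le fun x₁ x₂ => ?_) ?_
    · have h1 : (ρ x₁ x₂ : ℝ) ≤ ρ x₁ p + ρ p x₂ := by exact_mod_cast h.tri x₁ p x₂
      have h2 := hA p x₂
      have h3 : ‖A p - A x₂‖ ≤ wt A R x₂ (A p) := le_th _ _
      have h4 := hA p x₁
      have h5 : ‖A p - A x₁‖ ≤ wt A R x₁ (A p) := le_th _ _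
      rw [h.symm p x₁] at h4
      linarith
    · have h1 := le_rad (ρ := ρ) (A := A) (R := R) p p (A p)
      rw [hwp, h.self] at h1
      simpa using h1
  have hdd : dd A (A p) = 0 := by
    refine le_antisymm ?_ (dd_nonneg _)
    have := dd_le (A := A) p (A p)
    rwa [sub_self, norm_zero] at this
  unfold ext
  rw [Finset.sum_eq_single p]
  · have h1 : lam ρ A R p (A p) = 1 := by
      unfold lam
      rw [hfar, hrad, h.self]
      simp
    have h2 : cf A R (A p) = 1 := by
      unfold cf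
      rw [hdd]
      simp
    rw [h1, h2]
    ring
  · intro z _ hz
    have h1 : 1 ≤ ρ z p := by
      by_contra hlt
      exact hz (h.eq_of _ _ (by omega))
    have h2 : (1 : ℝ) ≤ ρ z p := by exact_mod_cast h1
    have h3 : lam ρ A R z (A p) = 0 := by
      unfold lam
      rw [hfar, hrad]
      exact max_eq_left (by linarith)
    rw [h3, zero_mul]
  · intro h'
    exact absurd (Finset.mem_univ _) h'

/-- In a normed space, functions which are Lipschitz at small scale are Lipschitz. -/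
theorem lipschitz_of_local [NormedSpace ℝ X] {f : X → ℝ} {K η : ℝ} (hη : 0 < η)
    (hf : ∀ y y', ‖y - y'‖ ≤ η → |f y - f y'| ≤ K * ‖y - y'‖) (y y' : X) :
    |f y - f y'| ≤ K * ‖y - y'‖ := by
  obtain ⟨n, hn⟩ := exists_nat_gt (‖y - y'‖ / η)
  have hn0 : (0 : ℝ) < n := lt_of_le_of_lt (by positivity) hn
  have hstep : ‖y - y'‖ / n ≤ η := by
    rw [div_le_iff₀ hn0]
    rw [div_lt_iff₀ hη] at hn
    linarith
  let c : ℕ → X := fun i => y' + ((i : ℝ) / n) • (y - y')
  have h1 : ∀ i, |f (c (i + 1)) - f (c i)| ≤ K * (‖y - y'‖ / n) := by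
    intro i
    have e : c (i + 1) - c i = ((1 : ℝ) / n) • (y - y') := by
      simp only [c]
      rw [add_sub_add_left_eq_sub, ← sub_smul]
      congr 1
      push_cast
      ring
    have e' : ‖c (i + 1) - c i‖ = ‖y - y'‖ / n := by
      rw [e, norm_smul, Real.norm_eq_abs, abs_of_pos (by positivity)]
      ring
    have := hf (c (i + 1)) (c i) (by rw [e']; exact hstep)
    rwa [e'] at this
  have h2 : ∀ m : ℕ, |f (c m) - f (c 0)| ≤ m * (K * (‖y - y'‖ / n)) := by
    intro m
    induction m with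
    | zero => simp
    | succ m ih =>
      calc |f (c (m + 1)) - f (c 0)| ≤ |f (c (m + 1)) - f (c m)| + |f (c m) - f (c 0)| :=
            abs_sub_le _ _ _
        _ ≤ K * (‖y - y'‖ / n) + m * (K * (‖y - y'‖ / n)) := add_le_add (h1 m) ih
        _ = ((m + 1 : ℕ) : ℝ) * (K * (‖y - y'‖ / n)) := by push_cast; ring
  have h3 := h2 n
  have e0 : c 0 = y' := by simp [c]
  have en : c n = y := by
    simp only [c]
    rw [div_self hn0.ne', one_smul]
    abel
  rw [e0, en] at h3
  calc |f y - f y'| ≤ n * (K * (‖y - y'‖ / n)) := h3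
    _ = K * ‖y - y'‖ := by field_simp

/-- The Lipschitz estimate for the extension operator. -/
theorem abs_ext_sub_le [NormedSpace ℝ X] (h : LocTree ρ g) (hR : 1 ≤ R) (hg : 40 * R < g)
    (hA : ∀ p q, (ρ p q : ℝ) ≤ ‖A p - A q‖) {f : P → ℝ} {K : ℝ} (hK : 0 ≤ K)
    (hf : ∀ p q, ρ p q = 1 → |f p - f q| ≤ K) (hf' : ∀ p, |f p| ≤ R * K) (y y' : X) :
    |ext ρ A R f y - ext ρ A R f y'| ≤ 33 * K * ‖y - y'‖ :=
  lipschitz_of_local (by norm_num : (0 : ℝ) < 1 / 8)
    (fun _ _ hy => abs_ext_sub_le_local h hR hg hA hK hf hf' hy) y y'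

end LocTree

end Pool.Agent.Lib.MP_65fa9b_an
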