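import Pool.Agent.Lib.MP_65fa9b_an.Cover
import Pool.Agent.Lib.MP_65fa9b_an.TreeExt

/-!
# The cover of a graph of large girth is a locally tree-like subset of a Hamming cube
-/

set_option autoImplicit false

namespace Pool.Agent.Lib.MP_65fa9b_an

namespace Gr

section

variable {V E : Type*} [Fintype V] [DecidableEq V] [Fintype E] [DecidableEq E]

theorem hd_sum {E : Type*} [Fintype E] [DecidableEq E] (a b : E → ZMod 2) :
    hammingDist a b = ∑ e, if a e ≠ b e then 1 else 0 := by
  unfold hammingDist
  rw [Finset.card_filter]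

theorem hd_add {E : Type*} [Fintype E] [DecidableEq E] (a b c : E → ZMod 2) :
    hammingDist a c + hammingDist c b =
      hammingDist a b + 2 * ∑ e, if c e ≠ a e ∧ c e ≠ b e then 1 else 0 := by
  rw [hd_sum, hd_sum, hd_sum, Finset.mul_sum, ← Finset.sum_add_distrib, ← Finset.sum_add_distrib]
  refine Finset.sum_congr rfl fun e _ => ?_
  have key : ∀ x y z : ZMod 2, ((if x ≠ z then 1 else 0) + (if z ≠ y then 1 else 0) : ℕ) =
      (if x ≠ y then 1 else 0) + 2 * (if z ≠ x ∧ z ≠ y then 1 else 0) := by decide
  exact key (a e) (b e) (c e)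

theorem hd_between {E : Type*} [Fintype E] [DecidableEq E] {a b c : E → ZMod 2} :
    hammingDist a c + hammingDist c b = hammingDist a b ↔ ∀ e, c e = a e ∨ c e = b e := by
  rw [hd_add]
  constructor
  · intro h e
    have h0 : ∑ e, (if c e ≠ a e ∧ c e ≠ b e then 1 else 0) = 0 := by omega
    have h1 := Finset.sum_eq_zero_iff.mp h0 e (Finset.mem_univ e)
    by_contra hne
    push Not at hne
    rw [if_pos hne] at h1
    exact one_ne_zero h1
  · intro h
    have h0 : ∑ e, (if c e ≠ a e ∧ c e ≠ b e then 1 else 0) = 0 := by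
      refine Finset.sum_eq_zero fun e _ => if_neg ?_
      rintro ⟨h1, h2⟩
      rcases h e with h3 | h3
      · exact h1 h3
      · exact h2 h3
    rw [h0]
    rfl

theorem hd_flip_ne {E : Type*} [Fintype E] [DecidableEq E] {S T : E → ZMod 2} {e : E}
    (h : S e ≠ T e) : hammingDist (S + Pi.single e 1) T + 1 = hammingDist S T := by
  rw [hd_sum, hd_sum, ← Finset.add_sum_erase _ _ (Finset.mem_univ e),
    ← Finset.add_sum_erase _ _ (Finset.mem_univ e)]
  have h1 : ∑ x ∈ Finset.univ.erase e,
      (if (S + (Pi.single e 1 : E → ZMod 2)) x ≠ T x then 1 else 0) =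
      ∑ x ∈ Finset.univ.erase e, if S x ≠ T x then 1 else 0 := by
    refine Finset.sum_congr rfl fun x hx => ?_
    have hx' : x ≠ e := (Finset.mem_erase.mp hx).1
    simp [hx']
  have key : ∀ x y : ZMod 2, x ≠ y → x + 1 = y := by decide
  rw [h1, if_pos h]
  simp only [Pi.add_apply, Pi.single_eq_same, key _ _ h]
  simp only [ne_eq, not_true_eq_false, if_false]
  omega

theorem hd_flip_eq {E : Type*} [Fintype E] [DecidableEq E] {S T : E → ZMod 2} {e : E}
    (h : S e = T e) : hammingDist (S + Pi.single e 1) T = hammingDist S T + 1 := by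
  have key : ∀ x y : ZMod 2, x = y → x + 1 ≠ y := by decide
  have h1 : (S + (Pi.single e 1 : E → ZMod 2)) e ≠ T e := by
    simp only [Pi.add_apply, Pi.single_eq_same]
    exact key _ _ h
  have h2 := hd_flip_ne h1
  have h3 : S + Pi.single e 1 + Pi.single e 1 = S := by
    funext x
    simp only [Pi.add_apply]
    rw [add_assoc, zmod2_add_self, add_zero]
  rw [h3] at h2
  exact h2.symm

theorem hd_single {E : Type*} [Fintype E] [DecidableEq E] (S : E → ZMod 2) (e : E) :
    hammingDist S (S + Pi.single e 1) = 1 := by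
  have h := hd_flip_eq (S := S) (T := S) (e := e) rfl
  rw [hammingDist_self] at h
  rw [hammingDist_comm]
  exact h

theorem hd_eq_one {E : Type*} [Fintype E] [DecidableEq E] {S T : E → ZMod 2}
    (h : hammingDist S T = 1) : ∃ e, T = S + Pi.single e 1 := by
  have hne : S ≠ T := by
    rintro rfl
    rw [hammingDist_self] at h
    omega
  obtain ⟨e, he⟩ := Function.ne_iff.mp hne
  have h1 := hd_flip_ne he
  rw [h] at h1
  have h2 : hammingDist (S + Pi.single e 1) T = 0 := by omega
  exact ⟨e, (hammingDist_eq_zero.mp h2).symm⟩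

/-- The invariant of the components of the cover. -/
def kap (s t : E → V) (p : V × (E → ZMod 2)) : V → ZMod 2 := bd s t p.2 + Pi.single p.1 1

/-- The metric on the cover. -/
def rho (s t : E → V) (N : ℕ) (p q : V × (E → ZMod 2)) : ℕ :=
  hammingDist p.2 q.2 + if kap s t p = kap s t q then 0 else N

theorem kap_of_lt {s t : E → V} {N : ℕ} {p q : V × (E → ZMod 2)} (h : rho s t N p q < N) :
    kap s t p = kap s t q := by
  by_contra hne
  unfold rho at h
  rw [if_neg hne] at h
  omega

theorem rho_of_kap {s t : E → V} {N : ℕ} {p q : V × (E → ZMod 2)}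
    (h : kap s t p = kap s t q) : rho s t N p q = hammingDist p.2 q.2 := by
  unfold rho
  rw [if_pos h, add_zero]

theorem bd_add_of_kap {s t : E → V} {p q : V × (E → ZMod 2)} (h : kap s t p = kap s t q) :
    bd s t (p.2 + q.2) = Pi.single p.1 1 + Pi.single q.1 1 := by
  rw [map_add]
  unfold kap at h
  funext v
  have h' := congrFun h v
  simp only [Pi.add_apply] at h' ⊢
  have h1 := zmod2_add_self ((Pi.single p.1 1 : V → ZMod 2) v)
  have h2 := zmod2_add_self (bd s t q.2 v)
  linear_combination h' - h1 + h2

theorem add_eq_zero_iff {E : Type*} {a b : E → ZMod 2} : a + b = 0 ↔ a = b := by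
  constructor
  · intro h
    funext e
    have := congrFun h e
    simp only [Pi.add_apply, Pi.zero_apply] at this
    have h2 := zmod2_add_self (b e)
    linear_combination this - h2
  · rintro rfl
    funext e
    exact zmod2_add_self _

theorem hd_norm {E : Type*} [Fintype E] [DecidableEq E] (a b : E → ZMod 2) :
    hammingDist a b = hammingNorm (a + b) := by
  unfold hammingDist hammingNorm
  congr 1
  ext e
  simp only [Finset.mem_filter, Finset.mem_univ, true_and, Pi.add_apply]
  have key : ∀ x y : ZMod 2, x ≠ y ↔ x + y ≠ 0 := by decide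
  exact key _ _

/-- Adjacent points of the cover lie over the ends of an edge. -/
theorem edge_of_rho_eq_one {s t : E → V} {N : ℕ} (hN : 1 < N) {p q : V × (E → ZMod 2)}
    (h : rho s t N p q = 1) : ∃ e, q.2 = p.2 + Pi.single e 1 ∧
      ((Pi.single p.1 1 : V → ZMod 2) + Pi.single q.1 1 = be s t e) := by
  have hk : kap s t p = kap s t q := kap_of_lt (N := N) (by omega)
  rw [rho_of_kap hk] at h
  obtain ⟨e, he⟩ := hd_eq_one h
  refine ⟨e, he, ?_⟩
  rw [← bd_add_of_kap hk, ← bd_single s t e]
  congr 1
  funext x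
  rw [he]
  simp only [Pi.add_apply]
  have := zmod2_add_self (p.2 x)
  linear_combination this

/-- Functions with small increments along the edges, lifted to the cover. -/
theorem abs_sub_le_of_EL {s t : E → V} {N : ℕ} (hN : 1 < N) {K : ℝ} (hK : 0 ≤ K) {f : V → ℝ}
    (hf : EL s t K f) {p q : V × (E → ZMod 2)} (h : rho s t N p q = 1) :
    |f p.1 - f q.1| ≤ K := by
  obtain ⟨e, -, he⟩ := edge_of_rho_eq_one hN h
  by_cases hpq : p.1 = q.1
  · rw [hpq, sub_self, abs_zero]
    exact hK
  · have h1 := congrFun he p.1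
    have h2 := congrFun he q.1
    simp only [be, Pi.add_apply, Pi.single_eq_same, Pi.single_apply, hpq, Ne.symm hpq, if_false,
      add_zero, zero_add] at h1 h2
    have hfe := hf e
    by_cases hs : p.1 = s e
    · by_cases ht : q.1 = t e
      · rw [hs, ht]
        exact hfe
      · by_cases hs2 : q.1 = s e
        · exact absurd (hs.trans hs2.symm) hpq
        · simp [ht, hs2] at h2
    · by_cases ht : p.1 = t e
      · by_cases hs2 : q.1 = s e
        · rw [ht, hs2, abs_sub_comm]
          exact hfe
        · by_cases ht2 : q.1 = t e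
          · exact absurd (ht.trans ht2.symm) hpq
          · simp [hs2, ht2] at h2
      · simp [hs, ht] at h1

theorem rho_tri (s t : E → V) (N : ℕ) (p q r : V × (E → ZMod 2)) :
    rho s t N p r ≤ rho s t N p q + rho s t N q r := by
  unfold rho
  have h1 := hammingDist_triangle p.2 q.2 r.2
  have h2 : (if kap s t p = kap s t r then 0 else N) ≤
      (if kap s t p = kap s t q then 0 else N) + (if kap s t q = kap s t r then 0 else N) := by
    by_cases h3 : kap s t p = kap s t q
    · rw [h3]; omega
    · rw [if_neg h3]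
      split_ifs <;> omega
  omega

/-- The step towards another point. -/
theorem exists_step {s t : E → V} {g N : ℕ} (hg : Girth s t g) (hN : g ≤ N)
    {p q : V × (E → ZMod 2)} (hpq : p ≠ q) (hlt : rho s t N p q < g) :
    ∃ p', rho s t N p p' = 1 ∧ rho s t N p' q + 1 = rho s t N p q := by
  have hk : kap s t p = kap s t q := kap_of_lt (N := N) (by omega)
  have hb := bd_add_of_kap hk
  have hne : p.1 ≠ q.1 := by
    intro h0
    rw [h0] at hb
    have hb0 : bd s t (p.2 + q.2) = 0 := by
      rw [hb]
      exact add_eq_zero_iff.mpr rfl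
    by_cases hT : p.2 + q.2 = 0
    · exact hpq (Prod.ext h0 (add_eq_zero_iff.mp hT))
    · have := hg _ hT hb0
      rw [← hd_norm, ← rho_of_kap (N := N) hk] at this
      omega
  have h1 : bd s t (p.2 + q.2) p.1 = 1 := by
    rw [hb]
    simp [Pi.single_apply, hne]
  obtain ⟨e, he1, he2⟩ : ∃ e, (p.2 + q.2) e ≠ 0 ∧ be s t e p.1 ≠ 0 := by
    by_contra hcon
    push Not at hcon
    rw [bd_apply, Finset.sum_apply] at h1
    rw [Finset.sum_eq_zero] at h1
    · exact zero_ne_one h1
    · intro e _
      by_cases h0 : (p.2 + q.2) e = 0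
      · rw [h0, zero_smul]
        rfl
      · rw [Pi.smul_apply, hcon e h0, smul_zero]
  have hpe : p.2 e ≠ q.2 e := by
    have key : ∀ x y : ZMod 2, x + y ≠ 0 → x ≠ y := by decide
    exact key _ _ he1
  -- the other end of the edge
  obtain ⟨v, hv⟩ : ∃ v, be s t e = Pi.single p.1 1 + Pi.single v 1 := by
    by_cases hs : s e = p.1
    · exact ⟨t e, by unfold be; rw [hs]⟩
    · by_cases ht : t e = p.1
      · exact ⟨s e, by unfold be; rw [ht, add_comm]⟩
      · exfalso
        apply he2
        simp [be, Pi.single_apply, Ne.symm hs, Ne.symm ht]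
  let p' : V × (E → ZMod 2) := (v, p.2 + Pi.single e 1)
  have hkp : kap s t p = kap s t p' := by
    unfold kap
    simp only [p']
    rw [map_add, bd_single, hv]
    funext x
    simp only [Pi.add_apply]
    have := zmod2_add_self ((Pi.single v 1 : V → ZMod 2) x)
    linear_combination -this
  refine ⟨p', ?_, ?_⟩
  · rw [rho_of_kap hkp]
    exact hd_single _ _
  · rw [rho_of_kap (hkp.symm.trans hk), rho_of_kap hk]
    exact hd_flip_ne hpe

/-- The median property. -/
theorem median {s t : E → V} {g N : ℕ} (hg : Girth s t g) (hN : g ≤ N)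
    (c x₁ x₂ z : V × (E → ZMod 2)) (hlt : rho s t N c x₁ + rho s t N c x₂ + rho s t N c z < g)
    (hb : rho s t N x₁ c + rho s t N c x₂ = rho s t N x₁ x₂) :
    rho s t N z c + rho s t N c x₁ = rho s t N z x₁ ∨
      rho s t N z c + rho s t N c x₂ = rho s t N z x₂ := by
  classical
  have k1 : kap s t c = kap s t x₁ := kap_of_lt (N := N) (by omega)
  have k2 : kap s t c = kap s t x₂ := kap_of_lt (N := N) (by omega)
  have kz : kap s t c = kap s t z := kap_of_lt (N := N) (by omega)
  rw [rho_of_kap k1, rho_of_kap k2, rho_of_kap kz] at hlt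
  rw [rho_of_kap k1.symm, rho_of_kap k2, rho_of_kap (k1.symm.trans k2), hd_between] at hb
  rw [rho_of_kap kz.symm, rho_of_kap k1, rho_of_kap k2, rho_of_kap (kz.symm.trans k1),
    rho_of_kap (kz.symm.trans k2), hd_between, hd_between]
  by_contra hcon
  push Not at hcon
  obtain ⟨⟨e₁, h1z, h11⟩, ⟨e₂, h2z, h22⟩⟩ := hcon
  have h12 : c.2 e₁ = x₂.2 e₁ := (hb e₁).resolve_left h11
  have h21 : c.2 e₂ = x₁.2 e₂ := (hb e₂).resolve_right h22
  have hne : e₂ ≠ e₁ := by
    rintro rfl
    exact h22 h12
  let W : Finset E := Finset.univ.filter fun e => c.2 e ≠ x₁.2 e ∨ c.2 e ≠ x₂.2 e ∨ c.2 e ≠ z.2 e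
  have hW : W.card < g := by
    refine lt_of_le_of_lt ?_ hlt
    have h1 : W ⊆ (Finset.univ.filter fun e => c.2 e ≠ x₁.2 e) ∪
        (Finset.univ.filter fun e => c.2 e ≠ x₂.2 e) ∪
        (Finset.univ.filter fun e => c.2 e ≠ z.2 e) := by
      intro e he
      simp only [W, Finset.mem_filter, Finset.mem_univ, true_and, Finset.mem_union] at he ⊢
      tauto
    calc W.card ≤ _ := Finset.card_le_card h1
      _ ≤ _ := (Finset.card_union_le _ _).trans
        (Nat.add_le_add_right (Finset.card_union_le _ _) _)
  obtain ⟨μ, hμ⟩ := exists_left_inverse hg W hW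
  have hT : ∀ q : V × (E → ZMod 2), kap s t c = kap s t q → (∀ e ∉ W, c.2 e = q.2 e) →
      μ (Pi.single c.1 1) + μ (Pi.single q.1 1) = c.2 + q.2 := by
    intro q hq hq'
    rw [← map_add, ← bd_add_of_kap hq]
    refine hμ _ fun e he => ?_
    simp only [Pi.add_apply]
    rw [hq' e he]
    exact zmod2_add_self _
  have hout : ∀ e ∉ W, c.2 e = x₁.2 e ∧ c.2 e = x₂.2 e ∧ c.2 e = z.2 e := by
    intro e he
    simp only [W, Finset.mem_filter, Finset.mem_univ, true_and, not_or, not_not] at he
    exact he
  have hT1 := hT x₁ k1 fun e he => (hout e he).1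
  have hT2 := hT x₂ k2 fun e he => (hout e he).2.1
  have hTz := hT z kz fun e he => (hout e he).2.2
  let a : V → ZMod 2 := fun v => μ (Pi.single c.1 1) e₁ + μ (Pi.single v 1) e₁
  let b : V → ZMod 2 := fun v => μ (Pi.single c.1 1) e₂ + μ (Pi.single v 1) e₂
  have ha : ∀ e ∈ W, a (s e) + a (t e) = (Pi.single e 1 : E → ZMod 2) e₁ := by
    intro e he
    have h1 := congrFun (mu_edge hμ he) e₁
    have h2 := zmod2_add_self (μ (Pi.single c.1 1) e₁)
    simp only [Pi.add_apply] at h1
    simp only [a]
    linear_combination h1 + h2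
  have hbb : ∀ e ∈ W, b (s e) + b (t e) = (Pi.single e 1 : E → ZMod 2) e₂ := by
    intro e he
    have h1 := congrFun (mu_edge hμ he) e₂
    have h2 := zmod2_add_self (μ (Pi.single c.1 1) e₂)
    simp only [Pi.add_apply] at h1
    simp only [b]
    linear_combination h1 + h2
  let α := a (s e₂)
  let y : V → ZMod 2 := fun v => (a v + α) * b v
  let β := y (s e₁) + y (t e₁)
  have key2 : ∀ u w : ZMod 2, u + w = 0 → w = u := by decide
  -- the coboundary of `y`
  have hy : ∀ e ∈ W, e ≠ e₁ → y (s e) + y (t e) = 0 := by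
    intro e he hee
    have h1 := ha e he
    have h2 := hbb e he
    have h3 : a (t e) = a (s e) := by
      rw [Pi.single_apply, if_neg (Ne.symm hee)] at h1
      exact key2 _ _ h1
    simp only [y]
    rw [h3]
    by_cases he2 : e = e₂
    · have h4 : a (s e) + α = 0 := by
        rw [he2]
        exact zmod2_add_self _
      rw [h4]
      ring
    · rw [Pi.single_apply, if_neg (Ne.symm he2)] at h2
      rw [key2 _ _ h2]
      exact zmod2_add_self _
  have hsum : ∀ q : V × (E → ZMod 2), kap s t c = kap s t q → (∀ e ∉ W, c.2 e = q.2 e) →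
      y c.1 + y q.1 = (c.2 e₁ + q.2 e₁) * β := by
    intro q hq hq'
    have h := stokes s t y (c.2 + q.2)
    rw [bd_add_of_kap hq] at h
    have hl : ∑ v, y v * ((Pi.single c.1 1 : V → ZMod 2) + (Pi.single q.1 1 : V → ZMod 2)) v =
        y c.1 + y q.1 := by
      simp only [Pi.add_apply, mul_add, Finset.sum_add_distrib]
      simp [Pi.single_apply]
    rw [hl] at h
    rw [h, Finset.sum_eq_single e₁]
    · rfl
    · intro e _ hee
      by_cases he : e ∈ W
      · rw [hy e he hee, mul_zero]
      · have : (c.2 + q.2) e = 0 := by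
          simp only [Pi.add_apply]
          rw [hq' e he]
          exact zmod2_add_self _
        rw [this, zero_mul]
    · intro h'
      exact absurd (Finset.mem_univ _) h'
  have s1 := hsum x₁ k1 fun e he => (hout e he).1
  have s2 := hsum x₂ k2 fun e he => (hout e he).2.1
  have sz := hsum z kz fun e he => (hout e he).2.2
  have yc : y c.1 = 0 := by
    simp only [y, b]
    rw [zmod2_add_self, mul_zero]
  have key : ∀ u w : ZMod 2, u ≠ w → u + w = 1 := by decide
  have az : a z.1 = 1 := by
    have := congrFun hTz e₁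
    simp only [Pi.add_apply] at this
    simp only [a]
    rw [this]
    exact key _ _ h1z
  have bz : b z.1 = 1 := by
    have := congrFun hTz e₂
    simp only [Pi.add_apply] at this
    simp only [b]
    rw [this]
    exact key _ _ h2z
  have b1 : b x₁.1 = 0 := by
    have := congrFun hT1 e₂
    simp only [Pi.add_apply] at this
    simp only [b]
    rw [this, h21]
    exact zmod2_add_self _
  have a2 : a x₂.1 = 0 := by
    have := congrFun hT2 e₁
    simp only [Pi.add_apply] at this
    simp only [a]
    rw [this, h12]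
    exact zmod2_add_self _
  have b2 : b x₂.1 = 1 := by
    have := congrFun hT2 e₂
    simp only [Pi.add_apply] at this
    simp only [b]
    rw [this]
    exact key _ _ h22
  have y1 : y x₁.1 = 0 := by simp only [y]; rw [b1, mul_zero]
  have y2 : y x₂.1 = α := by simp only [y]; rw [a2, b2]; ring
  have yz : y z.1 = 1 + α := by simp only [y]; rw [az, bz]; ring
  rw [yc, y1, key _ _ h11] at s1
  rw [yc, y2, h12, zmod2_add_self] at s2
  rw [yc, yz, key _ _ h1z] at sz
  have f1 : β = 0 := by linear_combination -s1
  have f2 : α = 0 := by linear_combination s2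
  rw [f1, f2] at sz
  revert sz
  decide

/-- Distances from a point to adjacent points have different parity. -/
theorem parity {s t : E → V} {g N : ℕ} (hN : g ≤ N) (hN1 : 1 < N)
    (z u v : V × (E → ZMod 2)) (hlt : rho s t N z u + rho s t N z v < g)
    (huv : rho s t N u v = 1) : rho s t N z u ≠ rho s t N z v := by
  have ku : kap s t z = kap s t u := kap_of_lt (N := N) (by omega)
  have kv : kap s t z = kap s t v := kap_of_lt (N := N) (by omega)
  rw [rho_of_kap ku, rho_of_kap kv]
  obtain ⟨e, he, -⟩ := edge_of_rho_eq_one hN1 huv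
  rw [hammingDist_comm z.2 v.2, hammingDist_comm z.2 u.2, he]
  by_cases h : u.2 e = z.2 e
  · have := hd_flip_eq h
    omega
  · have := hd_flip_ne h
    omega

/-- The cover of a graph of large girth is locally tree-like. -/
theorem locTree {s t : E → V} {g N : ℕ} (hg : Girth s t g) (hN : g ≤ N) (hN1 : 1 < N) :
    LocTree (rho s t N) g where
  self p := by rw [rho_of_kap rfl, hammingDist_self]
  eq_of p q h := by
    have hk : kap s t p = kap s t q := kap_of_lt (N := N) (by omega)
    rw [rho_of_kap hk] at h
    have h2 : p.2 = q.2 := hammingDist_eq_zero.mp h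
    have hb := bd_add_of_kap hk
    rw [h2, add_eq_zero_iff.mpr rfl, map_zero] at hb
    have h3 : (Pi.single p.1 1 : V → ZMod 2) = Pi.single q.1 1 := add_eq_zero_iff.mp hb.symm
    have h4 := congrFun h3 p.1
    rw [Pi.single_eq_same, Pi.single_apply] at h4
    have h5 : p.1 = q.1 := by
      by_contra hne
      rw [if_neg hne] at h4
      exact one_ne_zero h4
    exact Prod.ext h5 h2
  symm p q := by
    unfold rho
    rw [hammingDist_comm]
    by_cases h : kap s t p = kap s t q
    · rw [if_pos h, if_pos h.symm]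
    · rw [if_neg h, if_neg (Ne.symm h)]
  tri := rho_tri s t N
  step p q hpq hlt := exists_step hg hN hpq hlt
  med := median hg hN
  par := parity hN hN1

end

end Gr

end Pool.Agent.Lib.MP_65fa9b_an
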