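import Pool.Agent.Lib.MP_65fa9b_an.CubesDef

/-!
# Examples of spaces containing the Hamming cubes uniformly
-/

set_option autoImplicit false

open scoped ENNReal ZeroAtInfty

namespace Pool.Agent.Lib.MP_65fa9b_an

theorem hamming_sum {n : ℕ} (s t : Fin n → Bool) :
    (hammingDist s t : ℝ) = ∑ k, |(if s k then (1 : ℝ) else 0) - (if t k then 1 else 0)| := by
  unfold hammingDist
  rw [Finset.card_filter]
  push_cast
  refine Finset.sum_congr rfl fun k _ => ?_
  cases s k <;> cases t k <;> simp

/-- A space containing `ℓ₁ⁿ` uniformly contains the Hamming cubes uniformly. -/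
theorem ContainsEllOne.containsCubes {X : Type*} [NormedAddCommGroup X] [NormedSpace ℝ X]
    (h : ContainsEllOne X) : ContainsCubes X := by
  obtain ⟨C, hC⟩ := h
  refine ⟨C, fun n => ?_⟩
  obtain ⟨i, hi⟩ := hC n
  refine ⟨fun s => i fun k => if s k then 1 else 0, fun s t => ?_⟩
  rw [← map_sub, hamming_sum]
  exact hi _

/-- `ℓ₁` contains `ℓ₁ⁿ` uniformly. -/
theorem containsEllOne_lp : ContainsEllOne (lp (fun _ : ℕ => ℝ) 1) := by
  classical
  refine ⟨1, fun n => ?_⟩
  have hnorm' : ∀ f : lp (fun _ : ℕ => ℝ) 1, ‖f‖ = ∑' k, ‖f k‖ := fun f => by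
    rw [lp.norm_eq_tsum_rpow (by norm_num)]
    simp
  let i0 : (Fin n → ℝ) →ₗ[ℝ] lp (fun _ : ℕ => ℝ) 1 :=
    { toFun := fun a => ∑ k : Fin n, a k • (lp.single 1 (k : ℕ) (1 : ℝ) : lp (fun _ : ℕ => ℝ) 1)
      map_add' := fun a b => by
        simp only [Pi.add_apply, add_smul, Finset.sum_add_distrib]
      map_smul' := fun c a => by
        simp only [Pi.smul_apply, smul_eq_mul, mul_smul, Finset.smul_sum, RingHom.id_apply] }
  have hcoe : ∀ (a : Fin n → ℝ) (m : ℕ), (i0 a) m = if h : m < n then a ⟨m, h⟩ else 0 := by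
    intro a m
    show ((∑ j : Fin n, a j • (lp.single 1 (j : ℕ) (1 : ℝ) : lp (fun _ : ℕ => ℝ) 1)) :
      lp (fun _ : ℕ => ℝ) 1) m = _
    rw [lp.coeFn_sum, Finset.sum_apply]
    by_cases h : m < n
    · rw [dif_pos h, Finset.sum_eq_single ⟨m, h⟩]
      · simp
      · intro j _ hj
        have : m ≠ (j : ℕ) := fun h' => hj (Fin.ext h'.symm)
        simp [this]
      · simp
    · rw [dif_neg h]
      refine Finset.sum_eq_zero fun j _ => ?_
      have : m ≠ (j : ℕ) := fun h' => h (h' ▸ j.2)
      simp [this]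
  have hn : ∀ a, ‖i0 a‖ = ∑ k, |a k| := by
    intro a
    rw [hnorm', tsum_eq_sum (s := Finset.range n)]
    · rw [Finset.sum_range]
      refine Finset.sum_congr rfl fun k _ => ?_
      rw [hcoe, dif_pos k.2, Real.norm_eq_abs]
    · intro m hm
      rw [hcoe, dif_neg (by simpa using hm), norm_zero]
  exact ⟨i0, fun a => ⟨(hn a).ge, by rw [hn a, one_mul]⟩⟩

/-- `c₀` contains the Hamming cubes isometrically. -/
theorem containsCubes_c0 : ContainsCubes C₀(ℕ, ℝ) := by
  classical
  refine ⟨1, fun n => ?_⟩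
  let e := Fintype.equivFin (Fin n → Bool)
  let m := Fintype.card (Fin n → Bool)
  let g : (Fin n → Bool) → ℕ → ℝ := fun s k =>
    if h : k < m then (hammingDist s (e.symm ⟨k, h⟩) : ℝ) else 0
  let f : (Fin n → Bool) → C₀(ℕ, ℝ) := fun s =>
    { toFun := g s
      continuous_toFun := continuous_of_discreteTopology
      zero_at_infty' := by
        refine tendsto_const_nhds.congr' ?_
        have hfin : {k : ℕ | k < m}.Finite := Set.finite_lt_nat m
        have hcomp : IsCompact {k : ℕ | k < m} := hfin.isCompact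
        filter_upwards [hcomp.compl_mem_cocompact] with k hk
        have hk' : ¬ k < m := hk
        simp only [g, dif_neg hk'] }
  have hf : ∀ s k, f s k = g s k := fun s k => rfl
  refine ⟨f, fun s t => ?_⟩
  constructor
  · have h1 : |(f s - f t) (e t)| ≤ ‖f s - f t‖ := by
      rw [← Real.norm_eq_abs, ← ZeroAtInftyContinuousMap.norm_toBCF_eq_norm]
      exact (f s - f t).toBCF.norm_coe_le_norm (e t)
    refine le_trans ?_ h1
    rw [ZeroAtInftyContinuousMap.sub_apply, hf, hf]
    have hlt : (e t : ℕ) < m := (e t).2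
    simp only [g, dif_pos hlt, Fin.eta, Equiv.symm_apply_apply, hammingDist_self]
    simp
  · rw [one_mul, ← ZeroAtInftyContinuousMap.norm_toBCF_eq_norm]
    refine (BoundedContinuousFunction.norm_le (Nat.cast_nonneg _)).mpr fun k => ?_
    show ‖(f s - f t) k‖ ≤ _
    rw [ZeroAtInftyContinuousMap.sub_apply, hf, hf, Real.norm_eq_abs]
    by_cases hk : k < m
    · simp only [g, dif_pos hk]
      have h1 := hammingDist_triangle s t (e.symm ⟨k, hk⟩)
      have h2 := hammingDist_triangle t s (e.symm ⟨k, hk⟩)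
      rw [hammingDist_comm t s] at h2
      have h1' : (hammingDist s (e.symm ⟨k, hk⟩) : ℝ) ≤
        hammingDist s t + hammingDist t (e.symm ⟨k, hk⟩) := by exact_mod_cast h1
      have h2' : (hammingDist t (e.symm ⟨k, hk⟩) : ℝ) ≤
        hammingDist s t + hammingDist s (e.symm ⟨k, hk⟩) := by exact_mod_cast h2
      rw [abs_le]
      constructor <;> linarith
    · simp only [g, dif_neg hk, sub_self, abs_zero]
      positivity

end Pool.Agent.Lib.MP_65fa9b_an
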