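import Mathlib

/-!
# Lipschitz spaces over subsets of Banach spaces: definitions
-/

set_option autoImplicit false

open Metric Set

namespace Pool.Agent.Lib.MP_65fa9b_an

/-- The real vector space of Lipschitz functions on `M` which vanish at the base point `p`. -/
def lip0Submodule (M : Type*) [MetricSpace M] (p : M) : Submodule ℝ (M → ℝ) where
  carrier := {f | f p = 0 ∧ ∃ K, LipschitzWith K f}
  add_mem' := by
    rintro f g ⟨hf, K, hK⟩ ⟨hg, L, hL⟩
    exact ⟨by simp [hf, hg], K + L, hK.add hL⟩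
  zero_mem' := ⟨rfl, 0, LipschitzWith.const 0⟩
  smul_mem' := by
    rintro c f ⟨hf, K, hK⟩
    refine ⟨by simp [hf], ‖c‖₊ * K, ?_⟩
    exact LipschitzWith.of_dist_le_mul fun x y => by
      have := hK.dist_le_mul x y
      simp only [Pi.smul_apply, smul_eq_mul, Real.dist_eq, ← mul_sub, abs_mul, NNReal.coe_mul,
        coe_nnnorm, Real.norm_eq_abs] at *
      rw [mul_assoc]
      exact mul_le_mul_of_nonneg_left this (abs_nonneg c)

/-- `Lip₀(M)`: the space of Lipschitz functions on `M` which vanish at the base point `p`. -/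
def Lip0 (M : Type*) [MetricSpace M] (p : M) : Type _ := ↥(lip0Submodule M p)

section

variable {M : Type*} [MetricSpace M] {p : M}

/-- Pointwise addition. -/
@[reducible] def Lip0.addCommGroup : AddCommGroup (Lip0 M p) :=
  inferInstanceAs (AddCommGroup ↥(lip0Submodule M p))

attribute [local instance] Lip0.addCommGroup

/-- Pointwise scalar multiplication. -/
@[reducible] def Lip0.module : Module ℝ (Lip0 M p) :=
  inferInstanceAs (Module ℝ ↥(lip0Submodule M p))

attribute [local instance] Lip0.module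

instance : FunLike (Lip0 M p) M ℝ where
  coe f := f.1
  coe_injective := Subtype.val_injective

/-- The norm of `Lip₀(M)`: the least Lipschitz constant, that is, the supremum of
`|f x - f y| / d(x, y)` (pairs with `x = y` contribute the value `0`). -/
noncomputable instance : Norm (Lip0 M p) :=
  ⟨fun f => ⨆ q : M × M, |f q.1 - f q.2| / dist q.1 q.2⟩

theorem Lip0.add_apply' (f g : Lip0 M p) (x : M) : (f + g) x = f x + g x := rfl
theorem Lip0.smul_apply' (c : ℝ) (f : Lip0 M p) (x : M) : (c • f) x = c * f x := rfl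
theorem Lip0.zero_apply' (x : M) : (0 : Lip0 M p) x = 0 := rfl

theorem Lip0.map_base (f : Lip0 M p) : f p = 0 := f.2.1

theorem Lip0.bddAbove (f : Lip0 M p) :
    BddAbove (range fun q : M × M => |f q.1 - f q.2| / dist q.1 q.2) := by
  obtain ⟨K, hK⟩ := f.2.2
  refine ⟨K, ?_⟩
  rintro _ ⟨q, rfl⟩
  have h := hK.dist_le_mul q.1 q.2
  rw [Real.dist_eq] at h
  exact div_le_of_le_mul₀ dist_nonneg K.2 h

theorem Lip0.norm_def (f : Lip0 M p) : ‖f‖ = ⨆ q : M × M, |f q.1 - f q.2| / dist q.1 q.2 := rfl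

theorem Lip0.norm_nonneg' (f : Lip0 M p) : 0 ≤ ‖f‖ :=
  Real.iSup_nonneg fun _ => by positivity

theorem Lip0.abs_sub_le (f : Lip0 M p) (x y : M) : |f x - f y| ≤ ‖f‖ * dist x y := by
  rcases eq_or_ne x y with rfl | hxy
  · simp
  · have h := le_ciSup f.bddAbove (x, y)
    have hd : 0 < dist x y := dist_pos.mpr hxy
    rw [← Lip0.norm_def] at h
    exact (div_le_iff₀ hd).mp h

theorem Lip0.norm_le (f : Lip0 M p) {C : ℝ} (hC : 0 ≤ C)
    (h : ∀ x y, |f x - f y| ≤ C * dist x y) : ‖f‖ ≤ C := by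
  have : Nonempty (M × M) := ⟨(p, p)⟩
  exact ciSup_le fun q => div_le_of_le_mul₀ dist_nonneg hC (h q.1 q.2)

theorem Lip0.core : NormedSpace.Core ℝ (Lip0 M p) where
  norm_nonneg := Lip0.norm_nonneg'
  norm_smul := by
    have key : ∀ (c : ℝ) (f : Lip0 M p), ‖c • f‖ ≤ ‖c‖ * ‖f‖ := by
      intro c f
      refine Lip0.norm_le _ (mul_nonneg (norm_nonneg c) f.norm_nonneg') fun x y => ?_
      rw [Lip0.smul_apply', Lip0.smul_apply', ← mul_sub, abs_mul, mul_assoc, Real.norm_eq_abs]
      exact mul_le_mul_of_nonneg_left (f.abs_sub_le x y) (abs_nonneg c)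
    intro c f
    refine le_antisymm (key c f) ?_
    rcases eq_or_ne c 0 with rfl | hc
    · simpa using Lip0.norm_nonneg' ((0 : ℝ) • f)
    · have h := key c⁻¹ (c • f)
      rw [smul_smul, inv_mul_cancel₀ hc, one_smul, norm_inv] at h
      have hc' : 0 < ‖c‖ := norm_pos_iff.mpr hc
      calc ‖c‖ * ‖f‖ ≤ ‖c‖ * (‖c‖⁻¹ * ‖c • f‖) := mul_le_mul_of_nonneg_left h hc'.le
        _ = ‖c • f‖ := by rw [← mul_assoc, mul_inv_cancel₀ hc'.ne', one_mul]
  norm_triangle := by
    intro f g
    refine Lip0.norm_le _ (add_nonneg f.norm_nonneg' g.norm_nonneg') fun x y => ?_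
    have h1 := f.abs_sub_le x y
    have h2 := g.abs_sub_le x y
    calc |(f + g) x - (f + g) y| = |(f x - f y) + (g x - g y)| := by
          rw [Lip0.add_apply', Lip0.add_apply']; congr 1; ring
      _ ≤ |f x - f y| + |g x - g y| := abs_add_le _ _
      _ ≤ (‖f‖ + ‖g‖) * dist x y := by rw [add_mul]; exact add_le_add h1 h2
  norm_eq_zero_iff := by
    intro f
    constructor
    · intro h
      apply DFunLike.ext
      intro x
      have h1 := f.abs_sub_le x p
      rw [h, zero_mul, f.map_base, sub_zero] at h1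
      exact abs_eq_zero.mp (le_antisymm h1 (abs_nonneg _))
    · rintro rfl
      exact le_antisymm (Lip0.norm_le _ le_rfl fun x y => by simp [Lip0.zero_apply'])
        (Lip0.norm_nonneg' _)

noncomputable instance : NormedAddCommGroup (Lip0 M p) := NormedAddCommGroup.ofCore Lip0.core

noncomputable instance : NormedSpace ℝ (Lip0 M p) := NormedSpace.ofCore Lip0.core

end

section

variable {M : Type*} [MetricSpace M] {p : M}

@[simp] theorem Lip0.add_apply (f g : Lip0 M p) (x : M) : (f + g) x = f x + g x := rfl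
@[simp] theorem Lip0.sub_apply (f g : Lip0 M p) (x : M) : (f - g) x = f x - g x := rfl
@[simp] theorem Lip0.neg_apply (f : Lip0 M p) (x : M) : (-f) x = -f x := rfl
@[simp] theorem Lip0.smul_apply (c : ℝ) (f : Lip0 M p) (x : M) : (c • f) x = c * f x := rfl
@[simp] theorem Lip0.zero_apply (x : M) : (0 : Lip0 M p) x = 0 := rfl

end

/-- A subset `M` of a Banach space `X` is porous: there is `c > 0` such that for every `p ∈ X` and
every `0 < r ≤ diam X` some closed ball `B(x, c r)` is contained in `B(p, r) \ M`. -/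
def Porous {X : Type*} [NormedAddCommGroup X] (M : Set X) : Prop :=
  ∃ c : ℝ, 0 < c ∧ ∀ (p : X) (r : ℝ), 0 < r → ENNReal.ofReal r ≤ Metric.ediam (univ : Set X) →
    ∃ x : X, closedBall x (c * r) ⊆ closedBall p r \ M

/-- `X` contains the spaces `ℓ₁ⁿ`, `n ∈ ℕ`, uniformly complemented: for some `C` and all `n`, the
identity of `ℓ₁ⁿ` is a composition `P ∘ i` of linear maps `i : ℓ₁ⁿ → X`, `P : X → ℓ₁ⁿ` of norm at
most `C`. -/
def UniformlyComplementedL1 (X : Type*) [NormedAddCommGroup X] [NormedSpace ℝ X] : Prop :=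
  ∃ C : ℝ, ∀ n : ℕ, ∃ (i : PiLp 1 (fun _ : Fin n => ℝ) →L[ℝ] X)
    (P : X →L[ℝ] PiLp 1 (fun _ : Fin n => ℝ)), (∀ a, P (i a) = a) ∧ ‖i‖ ≤ C ∧ ‖P‖ ≤ C

end Pool.Agent.Lib.MP_65fa9b_an
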