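import Pool.Agent.Lib.MP_65fa9b_an.Defs

/-!
# Examples of spaces containing `ℓ₁ⁿ` uniformly complemented
-/

set_option autoImplicit false

open Metric Set

open scoped ENNReal

namespace Pool.Agent.Lib.MP_65fa9b_an

/-- `ℓ₁` contains `ℓ₁ⁿ` uniformly complemented. -/
theorem uniformlyComplementedL1_ellOne :
    UniformlyComplementedL1 (lp (fun _ : ℕ => ℝ) 1) := by
  classical
  refine ⟨1, fun n => ?_⟩
  have hnorm : ∀ a : PiLp 1 (fun _ : Fin n => ℝ), ‖a‖ = ∑ k, ‖a k‖ := fun a => by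
    rw [PiLp.norm_eq_sum (by norm_num)]
    simp
  have hnorm' : ∀ f : lp (fun _ : ℕ => ℝ) 1, ‖f‖ = ∑' k, ‖f k‖ := fun f => by
    rw [lp.norm_eq_tsum_rpow (by norm_num)]
    simp
  have hsum : ∀ f : lp (fun _ : ℕ => ℝ) 1, Summable fun k => ‖f k‖ := fun f => by
    have := (lp.memℓp f).summable (by norm_num)
    simpa using this
  let i0 : PiLp 1 (fun _ : Fin n => ℝ) →ₗ[ℝ] lp (fun _ : ℕ => ℝ) 1 :=
    { toFun := fun a => ∑ k : Fin n, a k • (lp.single 1 (k : ℕ) (1 : ℝ) : lp (fun _ : ℕ => ℝ) 1)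
      map_add' := fun a b => by
        simp only [PiLp.add_apply, add_smul, Finset.sum_add_distrib]
      map_smul' := fun c a => by
        simp only [PiLp.smul_apply, smul_eq_mul, mul_smul, Finset.smul_sum, RingHom.id_apply] }
  let P0 : lp (fun _ : ℕ => ℝ) 1 →ₗ[ℝ] PiLp 1 (fun _ : Fin n => ℝ) :=
    { toFun := fun f => WithLp.toLp 1 fun k : Fin n => f (k : ℕ)
      map_add' := fun f g => by ext k; simp
      map_smul' := fun c f => by ext k; simp }
  have hi0 : ∀ a, ‖i0 a‖ ≤ 1 * ‖a‖ := by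
    intro a
    rw [one_mul, hnorm]
    show ‖∑ k : Fin n, a k • (lp.single 1 (k : ℕ) (1 : ℝ) : lp (fun _ : ℕ => ℝ) 1)‖ ≤ _
    refine (norm_sum_le _ _).trans (Finset.sum_le_sum fun k _ => ?_)
    rw [norm_smul]
    have : ‖(lp.single 1 (k : ℕ) (1 : ℝ) : lp (fun _ : ℕ => ℝ) 1)‖ = ‖(1 : ℝ)‖ :=
      lp.norm_single (by norm_num) _ _
    rw [this, norm_one, mul_one]
  have hP0 : ∀ f, ‖P0 f‖ ≤ 1 * ‖f‖ := by
    intro f
    rw [one_mul, hnorm, hnorm']
    have h2 : ∑ k : Fin n, ‖(P0 f) k‖ = ∑ k ∈ Finset.range n, ‖f k‖ := by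
      rw [Finset.sum_range]
      rfl
    rw [h2]
    exact (hsum f).sum_le_tsum _ fun k _ => norm_nonneg _
  refine ⟨i0.mkContinuous 1 hi0, P0.mkContinuous 1 hP0, fun a => ?_,
    i0.mkContinuous_norm_le zero_le_one hi0, P0.mkContinuous_norm_le zero_le_one hP0⟩
  ext k
  simp only [LinearMap.mkContinuous_apply]
  show (i0 a) (k : ℕ) = a k
  show ((∑ j : Fin n, a j • (lp.single 1 (j : ℕ) (1 : ℝ) : lp (fun _ : ℕ => ℝ) 1)) :
    lp (fun _ : ℕ => ℝ) 1) (k : ℕ) = a k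
  rw [lp.coeFn_sum, Finset.sum_apply]
  rw [Finset.sum_eq_single k]
  · simp
  · intro j _ hj
    have : (j : ℕ) ≠ (k : ℕ) := fun h => hj (Fin.ext h)
    simp [this.symm]
  · simp

/-- The property passes from a complemented subspace to the whole space. -/
theorem UniformlyComplementedL1.of_complemented {X Y : Type*} [NormedAddCommGroup X]
    [NormedSpace ℝ X] [NormedAddCommGroup Y] [NormedSpace ℝ Y] (hX : UniformlyComplementedL1 X)
    (j : X →L[ℝ] Y) (r : Y →L[ℝ] X) (h : ∀ x, r (j x) = x) : UniformlyComplementedL1 Y := by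
  obtain ⟨C, hC⟩ := hX
  refine ⟨max (‖j‖ * C) (C * ‖r‖), fun n => ?_⟩
  obtain ⟨i, P, hiP, hi, hP⟩ := hC n
  refine ⟨j.comp i, P.comp r, fun a => ?_, ?_, ?_⟩
  · simp [h, hiP]
  · exact ((j.opNorm_comp_le i).trans (mul_le_mul_of_nonneg_left hi (norm_nonneg _))).trans
      (le_max_left _ _)
  · exact ((P.opNorm_comp_le r).trans (mul_le_mul_of_nonneg_right hP (norm_nonneg _))).trans
      (le_max_right _ _)

/-- For every normed space `Z`, the product `Z × ℓ₁` contains `ℓ₁ⁿ` uniformly complemented. -/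
theorem uniformlyComplementedL1_prod (Z : Type*) [NormedAddCommGroup Z] [NormedSpace ℝ Z] :
    UniformlyComplementedL1 (Z × lp (fun _ : ℕ => ℝ) 1) :=
  uniformlyComplementedL1_ellOne.of_complemented (ContinuousLinearMap.inr ℝ Z _)
    (ContinuousLinearMap.snd ℝ Z _) fun _ => rfl

end Pool.Agent.Lib.MP_65fa9b_an
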