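import Mathlib

/-!
# Finite multigraphs, cycles modulo 2, and covers of large girth

A finite multigraph is given by two maps `s t : E → V`. Its girth is at least `g` if every nonzero
cycle modulo 2 has at least `g` edges. The cover of the graph with fibre `E → ZMod 2` has at least
twice the girth.
-/

set_option autoImplicit false

namespace Pool.Agent.Lib.MP_65fa9b_an

namespace Gr

section

variable {V E : Type*} [Fintype V] [DecidableEq V] [Fintype E] [DecidableEq E]

/-- The boundary of an edge, modulo 2. -/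
def be (s t : E → V) (e : E) : V → ZMod 2 := Pi.single (s e) 1 + Pi.single (t e) 1

/-- The boundary map modulo 2. -/
def bd (s t : E → V) : (E → ZMod 2) →ₗ[ZMod 2] (V → ZMod 2) :=
  Fintype.linearCombination (ZMod 2) (be s t)

theorem bd_apply (s t : E → V) (S : E → ZMod 2) : bd s t S = ∑ e, S e • be s t e := rfl

theorem bd_single (s t : E → V) (e : E) : bd s t (Pi.single e 1) = be s t e := by
  rw [bd_apply, Finset.sum_eq_single e]
  · simp
  · intro e' _ h
    simp [h]
  · simp

/-- Summation by parts. -/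
theorem stokes (s t : E → V) (χ : V → ZMod 2) (S : E → ZMod 2) :
    ∑ v, χ v * bd s t S v = ∑ e, S e * (χ (s e) + χ (t e)) := by
  have h : ∀ v, χ v * bd s t S v = ∑ e, S e * (χ v * be s t e v) := by
    intro v
    rw [bd_apply, Finset.sum_apply, Finset.mul_sum]
    refine Finset.sum_congr rfl fun e _ => ?_
    simp only [Pi.smul_apply, smul_eq_mul]
    ring
  simp only [h]
  rw [Finset.sum_comm]
  refine Finset.sum_congr rfl fun e _ => ?_
  rw [← Finset.mul_sum]
  congr 1
  simp only [be, Pi.add_apply, mul_add, Finset.sum_add_distrib]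
  simp [Pi.single_apply]

/-- Every nonzero cycle modulo 2 has at least `g` edges. -/
def Girth (s t : E → V) (g : ℕ) : Prop :=
  ∀ S : E → ZMod 2, S ≠ 0 → bd s t S = 0 → g ≤ hammingNorm S

theorem girth_one (s t : E → V) : Girth s t 1 := by
  intro S hS _
  exact Nat.one_le_iff_ne_zero.mpr (hammingNorm_ne_zero_iff.mpr hS)

/-- On a small set of edges the boundary map has a left inverse. -/
theorem exists_left_inverse {s t : E → V} {g : ℕ} (hg : Girth s t g) (D : Finset E)
    (hD : D.card < g) : ∃ μ : (V → ZMod 2) →ₗ[ZMod 2] (E → ZMod 2),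
      (∀ S : E → ZMod 2, (∀ e ∉ D, S e = 0) → μ (bd s t S) = S) := by
  classical
  let U : Submodule (ZMod 2) (E → ZMod 2) :=
    { carrier := {S | ∀ e ∉ D, S e = 0}
      add_mem' := by
        intro a b ha hb e he
        simp [ha e he, hb e he]
      zero_mem' := fun e _ => rfl
      smul_mem' := by
        intro c a ha e he
        simp [ha e he] }
  have hinj : LinearMap.ker ((bd s t).domRestrict U) = ⊥ := by
    rw [LinearMap.ker_eq_bot']
    rintro ⟨S, hS⟩ h
    have hb : bd s t S = 0 := h
    by_contra hne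
    have hS0 : S ≠ 0 := fun h0 => hne (Subtype.ext h0)
    have h1 := hg S hS0 hb
    have h2 : hammingNorm S ≤ D.card := by
      unfold hammingNorm
      refine Finset.card_le_card fun e he => ?_
      by_contra hne'
      exact (Finset.mem_filter.mp he).2 (hS e hne')
    omega
  obtain ⟨μ, hμ⟩ := ((bd s t).domRestrict U).exists_leftInverse_of_injective hinj
  refine ⟨U.subtype.comp μ, fun S hS => ?_⟩
  have h := LinearMap.congr_fun hμ ⟨S, hS⟩
  have h' : μ (bd s t S) = ⟨S, hS⟩ := h
  show ((μ (bd s t S) : U) : E → ZMod 2) = S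
  rw [h']

theorem mu_edge {s t : E → V} {D : Finset E} {μ : (V → ZMod 2) →ₗ[ZMod 2] (E → ZMod 2)}
    (hμ : ∀ S : E → ZMod 2, (∀ e ∉ D, S e = 0) → μ (bd s t S) = S) {e : E} (he : e ∈ D) :
    μ (Pi.single (s e) 1) + μ (Pi.single (t e) 1) = Pi.single e 1 := by
  have h := hμ (Pi.single e 1) fun e' he' => by
    have : e' ≠ e := fun h => he' (h ▸ he)
    simp [this]
  rw [bd_single, be, map_add] at h
  exact h

/-- The cover: source map. -/
def cs (s : E → V) (x : E × (E → ZMod 2)) : V × (E → ZMod 2) := (s x.1, x.2)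

/-- The cover: target map. -/
def ct (t : E → V) (x : E × (E → ZMod 2)) : V × (E → ZMod 2) := (t x.1, x.2 + Pi.single x.1 1)

theorem zmod2_add_self (a : ZMod 2) : a + a = 0 := CharTwo.add_self_eq_zero a

theorem zmod2_cases (a : ZMod 2) : a = 0 ∨ a = 1 := by
  revert a; decide

/-- The fibres over the edges carry an even number of edges of a cycle. -/
theorem cover_even {s t : E → V} {C : E × (E → ZMod 2) → ZMod 2}
    (hC : bd (cs s) (ct t) C = 0) (e : E) : ∑ S : E → ZMod 2, C (e, S) = 0 := by
  have h := stokes (cs s) (ct t) (fun v : V × (E → ZMod 2) => v.2 e) C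
  rw [hC] at h
  simp only [Pi.zero_apply, mul_zero, Finset.sum_const_zero] at h
  have h2 : ∀ x : E × (E → ZMod 2), C x * ((cs s x).2 e + (ct t x).2 e) =
      if x.1 = e then C x else 0 := by
    rintro ⟨e', S⟩
    simp only [cs, ct, Pi.add_apply, ← add_assoc, zmod2_add_self, zero_add]
    by_cases h : e' = e
    · subst h; simp
    · simp [h, Ne.symm h]
  simp only [h2] at h
  rw [Fintype.sum_prod_type] at h
  rw [Finset.sum_eq_single e] at h
  · simpa using h.symm
  · intro e' _ hne
    simp [hne]
  · simp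

/-- A cycle of the cover which lies over a small set of edges vanishes. -/
theorem cover_zero {s t : E → V} {g : ℕ} (hg : Girth s t g) (D : Finset E) (hD : D.card < g)
    {C : E × (E → ZMod 2) → ZMod 2} (hC : bd (cs s) (ct t) C = 0)
    (hsupp : ∀ x, C x ≠ 0 → x.1 ∈ D) : C = 0 := by
  classical
  obtain ⟨μ, hμ⟩ := exists_left_inverse hg D hD
  by_contra hne
  obtain ⟨⟨e₀, S₀⟩, h0⟩ : ∃ x, C x ≠ 0 := by
    by_contra h
    push Not at h
    exact hne (funext h)
  have he₀ : e₀ ∈ D := hsupp _ h0
  let Φ : V × (E → ZMod 2) → (E → ZMod 2) := fun v => v.2 + μ (Pi.single v.1 1)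
  let Φ₀ := Φ (cs s (e₀, S₀))
  let x : V → ZMod 2 := fun v => μ (Pi.single v 1) e₀
  let χ : V × (E → ZMod 2) → ZMod 2 := fun v => if Φ v = Φ₀ then x v.1 else 0
  have hΦ : ∀ y : E × (E → ZMod 2), y.1 ∈ D → Φ (ct t y) = Φ (cs s y) := by
    rintro ⟨e, S⟩ he
    have h1 := mu_edge hμ he
    funext e'
    have h2 := congrFun h1 e'
    simp only [Φ, ct, cs, Pi.add_apply] at h2 ⊢
    rw [← h2]
    have h3 := zmod2_add_self (μ (Pi.single (t e) 1) e')
    linear_combination h3
  have h := stokes (cs s) (ct t) χ C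
  rw [hC] at h
  simp only [Pi.zero_apply, mul_zero, Finset.sum_const_zero] at h
  rw [Finset.sum_eq_single (e₀, S₀)] at h
  · have h1 : χ (cs s (e₀, S₀)) + χ (ct t (e₀, S₀)) = 1 := by
      have hm := congrFun (mu_edge hμ he₀) e₀
      simp only [Pi.add_apply, Pi.single_eq_same] at hm
      have hΦ' := hΦ (e₀, S₀) he₀
      have e1 : χ (cs s (e₀, S₀)) = x (s e₀) := by
        show (if Φ (cs s (e₀, S₀)) = Φ₀ then x (cs s (e₀, S₀)).1 else 0) = _
        rw [if_pos rfl]
        rfl
      have e2 : χ (ct t (e₀, S₀)) = x (t e₀) := by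
        show (if Φ (ct t (e₀, S₀)) = Φ₀ then x (ct t (e₀, S₀)).1 else 0) = _
        rw [if_pos hΦ']
        rfl
      rw [e1, e2]
      exact hm
    rw [h1, mul_one] at h
    exact h0 h.symm
  · rintro ⟨e, S⟩ _ hne'
    by_cases hCx : C (e, S) = 0
    · rw [hCx, zero_mul]
    · have he : e ∈ D := hsupp _ hCx
      have hΦ' := hΦ (e, S) he
      have hm := congrFun (mu_edge hμ he) e₀
      simp only [Pi.add_apply] at hm
      have : χ (cs s (e, S)) + χ (ct t (e, S)) = 0 := by
        show (if Φ (cs s (e, S)) = Φ₀ then x (s e) else 0) +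
          (if Φ (ct t (e, S)) = Φ₀ then x (t e) else 0) = 0
        rw [hΦ']
        by_cases hc : Φ (cs s (e, S)) = Φ₀
        · rw [if_pos hc, if_pos hc]
          show μ (Pi.single (s e) 1) e₀ + μ (Pi.single (t e) 1) e₀ = 0
          rw [hm]
          by_cases hee : e = e₀
          · exfalso
            subst hee
            apply hne'
            have : S = S₀ := by
              have h5 : S + μ (Pi.single (s e) 1) = S₀ + μ (Pi.single (s e) 1) := hc
              exact add_right_cancel h5
            rw [this]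
          · simp [Ne.symm hee]
        · rw [if_neg hc, if_neg hc, add_zero]
      rw [this, mul_zero]
  · intro h'
    exact absurd (Finset.mem_univ _) h'

/-- The cover has at least twice the girth. -/
theorem girth_cover {s t : E → V} {g : ℕ} (hg : Girth s t g) :
    Girth (cs s) (ct t) (2 * g) := by
  classical
  intro C hC0 hC
  let D : Finset E := Finset.univ.filter fun e => ∃ S, C (e, S) ≠ 0
  have hD : g ≤ D.card := by
    by_contra hlt
    push Not at hlt
    refine hC0 (cover_zero hg D hlt hC ?_)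
    rintro ⟨e, S⟩ h
    exact Finset.mem_filter.mpr ⟨Finset.mem_univ _, S, h⟩
  have h2 : ∀ e ∈ D, 2 ≤ (Finset.univ.filter fun S : E → ZMod 2 => C (e, S) ≠ 0).card := by
    intro e he
    obtain ⟨S, hS⟩ := (Finset.mem_filter.mp he).2
    have hev := cover_even hC e
    by_contra hlt
    push Not at hlt
    have hmem : S ∈ Finset.univ.filter fun S : E → ZMod 2 => C (e, S) ≠ 0 :=
      Finset.mem_filter.mpr ⟨Finset.mem_univ _, hS⟩
    have hone : (Finset.univ.filter fun S : E → ZMod 2 => C (e, S) ≠ 0).card = 1 := by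
      have := Finset.card_pos.mpr ⟨S, hmem⟩
      omega
    obtain ⟨S', hS'⟩ := Finset.card_eq_one.mp hone
    have hSS' : S = S' := by
      rw [hS'] at hmem
      exact Finset.mem_singleton.mp hmem
    subst hSS'
    rw [Finset.sum_eq_single S] at hev
    · exact hS hev
    · intro T _ hT
      by_contra hne
      have : T ∈ Finset.univ.filter fun S : E → ZMod 2 => C (e, S) ≠ 0 :=
        Finset.mem_filter.mpr ⟨Finset.mem_univ _, hne⟩
      rw [hS'] at this
      exact hT (Finset.mem_singleton.mp this)
    · intro h'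
      exact absurd (Finset.mem_univ _) h'
  have h3 : hammingNorm C = ∑ e : E, (Finset.univ.filter fun S : E → ZMod 2 => C (e, S) ≠ 0).card := by
    unfold hammingNorm
    simp only [Finset.card_filter]
    rw [Fintype.sum_prod_type]
  rw [h3]
  calc 2 * g ≤ 2 * D.card := Nat.mul_le_mul_left 2 hD
    _ = ∑ e ∈ D, 2 := by rw [Finset.sum_const, smul_eq_mul, mul_comm]
    _ ≤ ∑ e ∈ D, (Finset.univ.filter fun S : E → ZMod 2 => C (e, S) ≠ 0).card :=
        Finset.sum_le_sum h2
    _ ≤ ∑ e : E, (Finset.univ.filter fun S : E → ZMod 2 => C (e, S) ≠ 0).card :=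
        Finset.sum_le_sum_of_subset (Finset.subset_univ _)

end

end Gr

end Pool.Agent.Lib.MP_65fa9b_an
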