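import Pool.Agent.Lib.MP_65fa9b_an.Basic

/-!
# `ℓ_∞`-sums and the decomposition method

`I →ᵇ V`, for a discrete space `I`, is the `ℓ_∞`-sum of `I` copies of `V`.
-/

set_option autoImplicit false

open Metric Set Filter Topology

open scoped BoundedContinuousFunction

namespace Pool.Agent.Lib.MP_65fa9b_an

section

variable {A V W : Type*} [NormedAddCommGroup A] [NormedSpace ℝ A] [NormedAddCommGroup V]
  [NormedSpace ℝ V] [NormedAddCommGroup W] [NormedSpace ℝ W]
  {I I' : Type*} [TopologicalSpace I] [DiscreteTopology I] [TopologicalSpace I']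
  [DiscreteTopology I']

/-- A uniformly bounded family of operators `A → V` is an operator `A → ℓ_∞(I; V)`. -/
noncomputable def toBcf (T : I → A →L[ℝ] V) (C : ℝ) (hT : ∀ i, ‖T i‖ ≤ C) : A →L[ℝ] (I →ᵇ V) :=
  LinearMap.mkContinuous
    { toFun := fun a => BoundedContinuousFunction.ofNormedAddCommGroupDiscrete
        (fun i => T i a) (C * ‖a‖) (fun i => (T i).le_of_opNorm_le (hT i) a)
      map_add' := fun f g => by
        ext i
        exact map_add (T i) f g
      map_smul' := fun c f => by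
        ext i
        exact map_smul (T i) c f }
    (max C 0) (fun a => by
      refine (BoundedContinuousFunction.norm_le (by positivity)).mpr fun i => ?_
      refine ((T i).le_of_opNorm_le (hT i) a).trans ?_
      exact mul_le_mul_of_nonneg_right (le_max_left _ _) (norm_nonneg _))

@[simp] theorem toBcf_apply (T : I → A →L[ℝ] V) (C : ℝ) (hT : ∀ i, ‖T i‖ ≤ C) (a : A) (i : I) :
    toBcf T C hT a i = T i a := rfl

theorem norm_toBcf_le (T : I → A →L[ℝ] V) (C : ℝ) (hT : ∀ i, ‖T i‖ ≤ C) :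
    ‖toBcf T C hT‖ ≤ max C 0 := LinearMap.mkContinuous_norm_le _ (le_max_right _ _) _

/-- Evaluation at `i`. -/
noncomputable def evb (i : I) : (I →ᵇ V) →L[ℝ] V := BoundedContinuousFunction.evalCLM ℝ i

omit [DiscreteTopology I] in
@[simp] theorem evb_apply (i : I) (f : I →ᵇ V) : evb i f = f i := rfl

omit [DiscreteTopology I] in
theorem norm_evb_le (i : I) : ‖(evb i : (I →ᵇ V) →L[ℝ] V)‖ ≤ 1 :=
  ContinuousLinearMap.opNorm_le_bound _ zero_le_one fun f => by
    rw [one_mul]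
    exact f.norm_coe_le_norm i

/-- Reindexing. -/
noncomputable def reindex (e : I ≃ I') : (I →ᵇ V) ≃L[ℝ] (I' →ᵇ V) :=
  ContinuousLinearEquiv.equivOfInverse (toBcf (fun i' => evb (e.symm i')) 1 fun _ => norm_evb_le _)
    (toBcf (fun i => evb (e i)) 1 fun _ => norm_evb_le _)
    (fun f => by ext i; simp) (fun f => by ext i; simp)

/-- The coordinates of a pair of families. -/
noncomputable def sumFam : I ⊕ I' → ((I →ᵇ V) × (I' →ᵇ V)) →L[ℝ] V
  | Sum.inl i => (evb i).comp (ContinuousLinearMap.fst ℝ _ _)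
  | Sum.inr i => (evb i).comp (ContinuousLinearMap.snd ℝ _ _)

omit [DiscreteTopology I] [DiscreteTopology I'] in
theorem norm_sumFam_le (q : I ⊕ I') :
    ‖(sumFam q : ((I →ᵇ V) × (I' →ᵇ V)) →L[ℝ] V)‖ ≤ 1 := by
  rcases q with i | i
  · refine ((ContinuousLinearMap.opNorm_comp_le _ _).trans ?_)
    exact (mul_le_mul (norm_evb_le i) (ContinuousLinearMap.norm_fst_le ℝ _ _)
      (norm_nonneg _) zero_le_one).trans (by norm_num)
  · refine ((ContinuousLinearMap.opNorm_comp_le _ _).trans ?_)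
    exact (mul_le_mul (norm_evb_le i) (ContinuousLinearMap.norm_snd_le ℝ _ _)
      (norm_nonneg _) zero_le_one).trans (by norm_num)

/-- `ℓ_∞(I; V)²` is `ℓ_∞(I ⊕ I; V)`. -/
noncomputable def prodEquiv : ((I →ᵇ V) × (I' →ᵇ V)) ≃L[ℝ] (I ⊕ I' →ᵇ V) :=
  ContinuousLinearEquiv.equivOfInverse
    (toBcf (sumFam (V := V) (I := I) (I' := I')) 1 norm_sumFam_le)
    ((toBcf (fun i : I => (evb (Sum.inl i) : (I ⊕ I' →ᵇ V) →L[ℝ] V)) 1 fun _ =>
      norm_evb_le _).prod
      (toBcf (fun i : I' => (evb (Sum.inr i) : (I ⊕ I' →ᵇ V) →L[ℝ] V)) 1 fun _ => norm_evb_le _))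
    (by
      rintro ⟨f, g⟩
      refine Prod.ext ?_ ?_
      · ext i
        rfl
      · ext i
        rfl)
    (by
      intro f
      ext i
      rcases i with i | i
      · rfl
      · rfl)

/-- Currying. -/
noncomputable def curryEquiv : (I' →ᵇ (I →ᵇ V)) ≃L[ℝ] (I' × I →ᵇ V) :=
  ContinuousLinearEquiv.equivOfInverse
    (toBcf (fun q : I' × I => (evb q.2).comp (evb q.1)) 1 (fun q =>
      (ContinuousLinearMap.opNorm_comp_le _ _).trans
        ((mul_le_mul (norm_evb_le _) (norm_evb_le _) (norm_nonneg _) zero_le_one).trans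
          (by norm_num))))
    (toBcf (fun n => toBcf (fun i => evb (n, i)) 1 fun _ => norm_evb_le _) (max 1 0)
      fun _ => norm_toBcf_le _ _ _)
    (fun f => by ext n i; simp)
    (fun f => by ext q; simp)

end

section Decomposition

variable {U V W : Type*} [NormedAddCommGroup U] [NormedSpace ℝ U] [NormedAddCommGroup V]
  [NormedSpace ℝ V] [NormedAddCommGroup W] [NormedSpace ℝ W]

/-- If `U` is complemented in `W`, then `ℓ_∞(ℕ; W) ≃ U × ℓ_∞(ℕ; W)`. -/
theorem swindle (h : Fac U W) : Nonempty ((ℕ →ᵇ W) ≃L[ℝ] (U × (ℕ →ᵇ W))) := by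
  obtain ⟨J, R, hRJ⟩ := h
  set P : W →L[ℝ] W := J.comp R with hP
  set Q : W →L[ℝ] W := ContinuousLinearMap.id ℝ W - P with hQ
  have hPJ : ∀ u, P (J u) = J u := fun u => by simp [hP, hRJ]
  have hPP : ∀ w, P (P w) = P w := fun w => by simp [hP, hRJ]
  have hRP : ∀ w, R (P w) = R w := fun w => by simp [hP, hRJ]
  have hQa : ∀ w, Q w = w - P w := fun w => rfl
  have hPQ : ∀ w, P (Q w) = 0 := fun w => by rw [hQa, map_sub, hPP, sub_self]
  have hRQ : ∀ w, R (Q w) = 0 := fun w => by rw [hQa, map_sub, hRP, sub_self]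
  have hQJ : ∀ u, Q (J u) = 0 := fun u => by rw [hQa, hPJ, sub_self]
  have hQP : ∀ w, Q (P w) = 0 := fun w => by rw [hQa, hPP, sub_self]
  have hQQ : ∀ w, Q (Q w) = Q w := fun w => by rw [hQa (Q w), hPQ, sub_zero]
  have hPQ1 : ∀ w, P w + Q w = w := fun w => by rw [hQa]; abel
  have hJR : ∀ w, J (R w) = P w := fun w => rfl
  -- the two maps
  let Φ : (ℕ →ᵇ W) →L[ℝ] (U × (ℕ →ᵇ W)) :=
    (R.comp (evb 0)).prod (toBcf (fun n => P.comp (evb (n + 1)) + Q.comp (evb n)) (‖P‖ + ‖Q‖)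
      (fun n => by
        refine (norm_add_le _ _).trans (add_le_add ?_ ?_)
        · refine (ContinuousLinearMap.opNorm_comp_le _ _).trans ?_
          exact mul_le_of_le_one_right (norm_nonneg _) (norm_evb_le _)
        · refine (ContinuousLinearMap.opNorm_comp_le _ _).trans ?_
          exact mul_le_of_le_one_right (norm_nonneg _) (norm_evb_le _)))
  let S : ℕ → (U × (ℕ →ᵇ W)) →L[ℝ] W := fun n => match n with
    | 0 => J.comp (ContinuousLinearMap.fst ℝ _ _) +
        Q.comp ((evb 0).comp (ContinuousLinearMap.snd ℝ _ _))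
    | (n + 1) => P.comp ((evb n).comp (ContinuousLinearMap.snd ℝ _ _)) +
        Q.comp ((evb (n + 1)).comp (ContinuousLinearMap.snd ℝ _ _))
  have hev : ∀ (T : W →L[ℝ] W) (n : ℕ), ‖T.comp ((evb n).comp
      (ContinuousLinearMap.snd ℝ U (ℕ →ᵇ W)))‖ ≤ ‖T‖ := by
    intro T n
    refine (ContinuousLinearMap.opNorm_comp_le _ _).trans ?_
    refine mul_le_of_le_one_right (norm_nonneg _) ?_
    refine (ContinuousLinearMap.opNorm_comp_le _ _).trans ?_
    exact (mul_le_mul (norm_evb_le _) (ContinuousLinearMap.norm_snd_le ℝ _ _)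
            (norm_nonneg _) zero_le_one).trans (by norm_num)
  have hS : ∀ n, ‖S n‖ ≤ ‖J‖ + ‖P‖ + ‖Q‖ := by
    intro n
    rcases n with _ | n
    · refine (norm_add_le _ _).trans ?_
      have h1 : ‖J.comp (ContinuousLinearMap.fst ℝ U (ℕ →ᵇ W))‖ ≤ ‖J‖ := by
        refine (ContinuousLinearMap.opNorm_comp_le _ _).trans ?_
        exact mul_le_of_le_one_right (norm_nonneg _) (ContinuousLinearMap.norm_fst_le ℝ _ _)
      have h2 := hev Q 0
      have h3 := norm_nonneg P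
      linarith
    · refine (norm_add_le _ _).trans ?_
      have h1 := hev P n
      have h2 := hev Q (n + 1)
      have h3 := norm_nonneg J
      linarith
  let Ψ : (U × (ℕ →ᵇ W)) →L[ℝ] (ℕ →ᵇ W) := toBcf S _ hS
  refine ⟨ContinuousLinearEquiv.equivOfInverse Φ Ψ ?_ ?_⟩
  · intro w
    ext n
    rcases n with _ | n
    · show J (R (w 0)) + Q (P (w 1) + Q (w 0)) = w 0
      rw [map_add Q, hQP, hQQ, zero_add, hJR, hPQ1]
    · show P (P (w (n + 1)) + Q (w n)) + Q (P (w (n + 2)) + Q (w (n + 1))) = w (n + 1)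
      rw [map_add P, map_add Q, hPP, hPQ, hQP, hQQ, add_zero, zero_add, hPQ1]
  · rintro ⟨u, w⟩
    apply Prod.ext
    · show R (J u + Q (w 0)) = u
      rw [map_add R, hRJ, hRQ, add_zero]
    · ext n
      rcases n with _ | n
      · show P (P (w 0) + Q (w 1)) + Q (J u + Q (w 0)) = w 0
        rw [map_add P, map_add Q, hPP, hPQ, hQJ, hQQ, add_zero, zero_add, hPQ1]
      · show P (P (w (n + 1)) + Q (w (n + 2))) + Q (P (w n) + Q (w (n + 1))) = w (n + 1)
        rw [map_add P, map_add Q, hPP, hPQ, hQP, hQQ, add_zero, zero_add, hPQ1]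

/-- The decomposition method: if `U` and `W = ℓ_∞(I; V)`, `I` infinite, are complemented in each
other, then they are isomorphic. -/
theorem decomposition {I : Type*} [TopologicalSpace I] [DiscreteTopology I] [Infinite I]
    (h1 : Fac U (I →ᵇ V)) (h2 : Fac (I →ᵇ V) U) : Nonempty (U ≃L[ℝ] (I →ᵇ V)) := by
  -- `ℓ_∞(ℕ; W) ≃ W`
  obtain ⟨e1⟩ : Nonempty (ℕ × I ≃ I) := Cardinal.eq.mp (by simp)
  obtain ⟨e2⟩ : Nonempty (I ⊕ I ≃ I) := Cardinal.eq.mp (by simp)
  have eN : (ℕ →ᵇ (I →ᵇ V)) ≃L[ℝ] (I →ᵇ V) := curryEquiv.trans (reindex e1)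
  have e22 : ((I →ᵇ V) × (I →ᵇ V)) ≃L[ℝ] (I →ᵇ V) := prodEquiv.trans (reindex e2)
  obtain ⟨sw⟩ := swindle h1
  -- `W ≃ U × W`
  have eA : (I →ᵇ V) ≃L[ℝ] (U × (I →ᵇ V)) :=
    eN.symm.trans (sw.trans ((ContinuousLinearEquiv.refl ℝ U).prodCongr eN))
  -- `U ≃ W × B`
  obtain ⟨J2, R2, h2'⟩ := h2
  have eB : U ≃L[ℝ] ((I →ᵇ V) × R2.ker) :=
    ContinuousLinearEquiv.equivOfRightInverse R2 J2 h2'
  -- `U ≃ W × U`
  have eC : U ≃L[ℝ] ((I →ᵇ V) × U) :=
    eB.trans (((e22.symm.prodCongr (ContinuousLinearEquiv.refl ℝ _)).trans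
      (ContinuousLinearEquiv.prodAssoc ℝ _ _ _)).trans
        ((ContinuousLinearEquiv.refl ℝ _).prodCongr eB.symm))
  exact ⟨eC.trans ((ContinuousLinearEquiv.prodComm ℝ _ _).trans eA.symm)⟩

end Decomposition

end Pool.Agent.Lib.MP_65fa9b_an
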