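import Pool.Agent.Lib.MP_65fa9b_an.Pull

/-!
# From finite subsets to all subsets

If the spaces `Lip₀(F)`, `F` a finite subset of `M`, factor uniformly through `V`, then `Lip₀(M)`
factors through an `ℓ_∞`-sum of copies of `V`.
-/

set_option autoImplicit false

open Metric Set Filter Topology

open scoped BoundedContinuousFunction

namespace Pool.Agent.Lib.MP_65fa9b_an

section

variable {M : Type*} [MetricSpace M] {p : M} {Q : Type*} (d : Q → M)

/-- The finite set of base point and images. -/
def FS (p : M) (i : Finset Q) : Set M := insert p (d '' (i : Set Q))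

theorem finite_FS (i : Finset Q) : (FS d p i).Finite := (i.finite_toSet.image d).insert p

noncomputable instance (i : Finset Q) : Fintype (FS d p i) := (finite_FS d i).fintype

/-- The base point of `FS`. -/
def bp (i : Finset Q) : FS d p i := ⟨p, mem_insert _ _⟩

theorem exists_nearest (i : Finset Q) (x : M) :
    ∃ y : FS d p i, ∀ z : FS d p i, dist (y : M) x ≤ dist (z : M) x := by
  have : Nonempty (FS d p i) := ⟨bp d i⟩
  exact Finite.exists_min fun z : FS d p i => dist (z : M) x

/-- A nearest point of `FS`. -/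
noncomputable def near (p : M) (i : Finset Q) (x : M) : FS d p i := (exists_nearest d i x).choose

theorem near_spec (i : Finset Q) (x : M) (z : FS d p i) :
    dist (near d p i x : M) x ≤ dist (z : M) x := (exists_nearest d i x).choose_spec z

/-- The distance to the nearest point. -/
noncomputable def err (p : M) (x : M) (i : Finset Q) : ℝ := dist (near d p i x : M) x

/-- The ultrafilter of large finite sets. -/
noncomputable def UF (Q : Type*) : Ultrafilter (Finset Q) := Ultrafilter.of atTop

theorem UF_le (Q : Type*) : (UF Q : Filter (Finset Q)) ≤ atTop := Ultrafilter.of_le _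

theorem tendsto_err (hd : DenseRange d) (x : M) : Tendsto (err d p x) (UF Q) (𝓝 0) := by
  refine Tendsto.mono_left ?_ (UF_le Q)
  rw [Metric.tendsto_nhds]
  intro ε hε
  obtain ⟨q, hq⟩ := hd.exists_dist_lt x hε
  filter_upwards [eventually_ge_atTop ({q} : Finset Q)] with i hi
  have hqi : q ∈ i := hi (Finset.mem_singleton_self q)
  have h := near_spec d (p := p) i x ⟨d q, mem_insert_of_mem _ ⟨q, hqi, rfl⟩⟩
  have h0 : 0 ≤ err d p x i := dist_nonneg
  rw [Real.dist_eq, sub_zero, abs_of_nonneg h0]
  calc err d p x i ≤ dist (d q) x := h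
    _ < ε := by rwa [dist_comm]

theorem err_le (x : M) (i : Finset Q) : err d p x i ≤ dist p x := near_spec d i x (bp d i)

theorem dist_near_le (i : Finset Q) (x y : M) :
    dist (near d p i x) (near d p i y) ≤ dist x y + (err d p x i + err d p y i) := by
  rw [Subtype.dist_eq]
  calc _ ≤ dist (near d p i x : M) x + dist x y + dist y (near d p i y : M) :=
        dist_triangle4 _ _ _ _
    _ = _ := by rw [dist_comm y]; unfold err; ring

end

/-- Local to global. -/
theorem fac_of_local {M : Type*} [MetricSpace M] (p : M) {Q : Type*} (d : Q → M)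
    (hd : DenseRange d) {V : Type*} [NormedAddCommGroup V] [NormedSpace ℝ V] (C : ℝ)
    (h : ∀ i : Finset Q, FacC C (Lip0 (FS d p i) (bp d i)) V)
    [TopologicalSpace (Finset Q)] [DiscreteTopology (Finset Q)] :
    Fac (Lip0 M p) (Finset Q →ᵇ V) := by
  have hC : 0 ≤ C := (h ∅).nonneg
  choose J R hRJ hJ hR using h
  -- restriction maps
  let ρ : ∀ i : Finset Q, Lip0 M p →L[ℝ] Lip0 (FS d p i) (bp d i) := fun i =>
    pull (fun x => (x : M)) 1 zero_le_one (fun x y => by rw [one_mul]; exact le_of_eq rfl) rfl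
  have hρ : ∀ i, ‖ρ i‖ ≤ 1 := fun i => norm_pull_le _ _ _ _ _
  let JJ : Lip0 M p →L[ℝ] (Finset Q →ᵇ V) := toBcf (fun i => (J i).comp (ρ i)) C (fun i =>
    (ContinuousLinearMap.opNorm_comp_le _ _).trans (by
      calc ‖J i‖ * ‖ρ i‖ ≤ C * 1 := mul_le_mul (hJ i) (hρ i) (norm_nonneg _) hC
        _ = C := mul_one C))
  -- the values before the limit
  let b : (Finset Q →ᵇ V) → M → Finset Q → ℝ := fun ℓ x i => R i (ℓ i) (near d p i x)
  have hb : ∀ ℓ x y i, |b ℓ x i - b ℓ y i| ≤
      C * ‖ℓ‖ * dist x y + C * ‖ℓ‖ * (err d p x i + err d p y i) := by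
    intro ℓ x y i
    have h1 : ‖R i (ℓ i)‖ ≤ C * ‖ℓ‖ :=
      ((R i).le_of_opNorm_le (hR i) _).trans
        (mul_le_mul_of_nonneg_left (ℓ.norm_coe_le_norm i) hC)
    calc |b ℓ x i - b ℓ y i| ≤ ‖R i (ℓ i)‖ * dist (near d p i x) (near d p i y) :=
          (R i (ℓ i)).abs_sub_le _ _
      _ ≤ (C * ‖ℓ‖) * (dist x y + (err d p x i + err d p y i)) :=
          mul_le_mul h1 (dist_near_le d i x y) dist_nonneg (by positivity)
      _ = _ := by ring
  have hb0 : ∀ ℓ i, b ℓ p i = 0 := by
    intro ℓ i
    have h1 : near d p i p = bp d i := by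
      apply Subtype.ext
      have h2 := near_spec d (p := p) i p (bp d i)
      have h3 : dist ((bp d i : FS d p i) : M) p = 0 := dist_self p
      rw [h3] at h2
      exact dist_le_zero.mp h2
    show R i (ℓ i) (near d p i p) = 0
    rw [h1]
    exact (R i (ℓ i)).map_base
  have hbdd : ∀ ℓ x, ∃ A, ∀ᶠ i in (UF Q : Filter (Finset Q)), |b ℓ x i| ≤ A := by
    intro ℓ x
    refine ⟨C * ‖ℓ‖ * dist x p + C * ‖ℓ‖ * (dist p x + dist p p), Eventually.of_forall fun i => ?_⟩
    have h1 := hb ℓ x p i
    rw [hb0, sub_zero] at h1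
    refine h1.trans ?_
    have := err_le d (p := p) x i
    have := err_le d (p := p) p i
    gcongr
  have htend : ∀ ℓ x, Tendsto (b ℓ x) (UF Q) (𝓝 (ulim (UF Q) (b ℓ x))) := by
    intro ℓ x
    obtain ⟨A, hA⟩ := hbdd ℓ x
    exact tendsto_ulim _ hA
  have hlip : ∀ ℓ x y, |ulim (UF Q) (b ℓ x) - ulim (UF Q) (b ℓ y)| ≤ C * ‖ℓ‖ * dist x y := by
    intro ℓ x y
    refine abs_ulim_sub_le (UF Q) (hbdd ℓ x) (hbdd ℓ y)
      (e := fun i => C * ‖ℓ‖ * (err d p x i + err d p y i)) ?_ (Eventually.of_forall fun i =>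
        hb ℓ x y i)
    have h1 := ((tendsto_err d (p := p) hd x).add (tendsto_err d (p := p) hd y)).const_mul
      (C * ‖ℓ‖)
    rw [add_zero, mul_zero] at h1
    exact h1
  let RR : (Finset Q →ᵇ V) →L[ℝ] Lip0 M p := LinearMap.mkContinuous
    { toFun := fun ℓ => ⟨fun x => ulim (UF Q) (b ℓ x), by
        show ulim (UF Q) (b ℓ p) = 0
        refine ulim_eq _ ?_
        rw [show b ℓ p = fun _ => 0 from funext fun i => hb0 ℓ i]
        exact tendsto_const_nhds, ⟨C * ‖ℓ‖, by positivity⟩,
        LipschitzWith.of_dist_le_mul fun x y => by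
          rw [Real.dist_eq]
          exact hlip ℓ x y⟩
      map_add' := fun ℓ ℓ' => by
        apply DFunLike.ext
        intro x
        show ulim (UF Q) (b (ℓ + ℓ') x) = ulim (UF Q) (b ℓ x) + ulim (UF Q) (b ℓ' x)
        refine ulim_eq _ ?_
        have e : b (ℓ + ℓ') x = fun i => b ℓ x i + b ℓ' x i := by
          funext i
          show R i ((ℓ + ℓ') i) (near d p i x) = _
          rw [BoundedContinuousFunction.add_apply, map_add (R i)]
          rfl
        rw [e]
        exact (htend ℓ x).add (htend ℓ' x)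
      map_smul' := fun c ℓ => by
        apply DFunLike.ext
        intro x
        show ulim (UF Q) (b (c • ℓ) x) = c * ulim (UF Q) (b ℓ x)
        refine ulim_eq _ ?_
        have e : b (c • ℓ) x = fun i => c * b ℓ x i := by
          funext i
          show R i ((c • ℓ) i) (near d p i x) = _
          rw [BoundedContinuousFunction.smul_apply, map_smul (R i)]
          rfl
        rw [e]
        exact (htend ℓ x).const_mul c }
    C (fun ℓ => Lip0.norm_le _ (by positivity) fun x y => hlip ℓ x y)
  refine ⟨JJ, RR, fun g => ?_⟩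
  apply DFunLike.ext
  intro x
  show ulim (UF Q) (b (JJ g) x) = g x
  refine ulim_eq _ ?_
  have e : b (JJ g) x = fun i => g (near d p i x : M) := by
    funext i
    show R i (J i (ρ i g)) (near d p i x) = _
    rw [hRJ]
    rfl
  rw [e, tendsto_iff_norm_sub_tendsto_zero]
  have h1 := (tendsto_err d (p := p) hd x).const_mul ‖g‖
  rw [mul_zero] at h1
  refine squeeze_zero (fun _ => norm_nonneg _) (fun i => ?_) h1
  rw [Real.norm_eq_abs]
  exact g.abs_sub_le _ _

end Pool.Agent.Lib.MP_65fa9b_an
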