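import Pool.Agent.Lib.MP_65fa9b_an.Defs

/-!
# The local condition
-/

set_option autoImplicit false

open Metric Set

namespace Pool.Agent.Lib.MP_65fa9b_an

/-- The Lipschitz spaces of the finite subsets of `X` factor uniformly through `Lip₀(X)`: there is
`C` such that for every finite subset `F` of `X` and `p ∈ F` the identity of `Lip₀(F)` is a
composition `R ∘ J` of bounded linear maps `J : Lip₀(F) → Lip₀(X)` and `R : Lip₀(X) → Lip₀(F)` of
norm at most `C`. -/
def LocalCondition (X : Type*) [NormedAddCommGroup X] : Prop :=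
  ∃ C : ℝ, ∀ (F : Set X), F.Finite → ∀ p : F,
    ∃ (J : Lip0 F p →L[ℝ] Lip0 X (0 : X)) (R : Lip0 X (0 : X) →L[ℝ] Lip0 F p),
      (∀ f, R (J f) = f) ∧ ‖J‖ ≤ C ∧ ‖R‖ ≤ C

end Pool.Agent.Lib.MP_65fa9b_an
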