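import Pool.Agent.Lib.MP_65fa9b_an.Basic

/-!
# Finite metric spaces: `Lip₀(F)` factors through `Lip₀(ℓ₁ᴺ)` with a universal constant

Let `F` be a finite metric space with base point `p`, `D ≥ d(y, p)`, `δ ≤ d(u, v)` for `u ≠ v`, and
`m δ ≥ 4 D`. The coordinates of `ℓ₁ᴺ` are the pairs `(u, v)` of points of `F`, with weight
`d(u, v)`. For `y ∈ F` let `fib y` be the set of chains `c` with coefficients in `ℤ/m` whose
boundary is `y - p`, and let `pt c` be the lift of `c` to the box `{0, …, m - 1}ᴺ`.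

* `R f y` is the average of `f` over `fib y` (minus the one over `fib p`);
* `J g x` is the value at `g` of `S x = ∑_b Ψ(∂ x - m b)`, where `Ψ` is the truncated identity.
-/

set_option autoImplicit false

open Metric Set Filter Topology

namespace Pool.Agent.Lib.MP_65fa9b_an

variable {F : Type*} [MetricSpace F] {p : F}

/-- Evaluation at `y`. -/
noncomputable def ev (y : F) : Lip0 F p →L[ℝ] ℝ :=
  LinearMap.mkContinuous
    { toFun := fun g => g y
      map_add' := fun f g => rfl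
      map_smul' := fun c f => rfl } (dist y p) (fun g => by
        have h := g.abs_sub_le y p
        rw [g.map_base, sub_zero] at h
        simpa [Real.norm_eq_abs, mul_comm] using h)

@[simp] theorem ev_apply (y : F) (g : Lip0 F p) : ev y g = g y := rfl

theorem norm_ev_le (y : F) : ‖(ev y : Lip0 F p →L[ℝ] ℝ)‖ ≤ dist y p :=
  LinearMap.mkContinuous_norm_le _ dist_nonneg _

theorem ev_base : (ev p : Lip0 F p →L[ℝ] ℝ) = 0 := by
  ext g
  exact g.map_base

theorem norm_ev_sub_le (y z : F) : ‖(ev y - ev z : Lip0 F p →L[ℝ] ℝ)‖ ≤ dist y z := by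
  refine ContinuousLinearMap.opNorm_le_bound _ dist_nonneg fun g => ?_
  rw [sub_apply, ev_apply, ev_apply, Real.norm_eq_abs, mul_comm]
  exact g.abs_sub_le y z

variable [Fintype F] [DecidableEq F]

/-- The functional `∑ b(v) ev v`. -/
noncomputable def lat (b : F → ℤ) : Lip0 F p →L[ℝ] ℝ := ∑ v, (b v : ℝ) • ev v

theorem lat_sub (b c : F → ℤ) : (lat (b - c) : Lip0 F p →L[ℝ] ℝ) = lat b - lat c := by
  unfold lat
  rw [← Finset.sum_sub_distrib]
  refine Finset.sum_congr rfl fun v _ => ?_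
  rw [Pi.sub_apply, Int.cast_sub]
  exact sub_smul (b v : ℝ) (c v : ℝ) (ev v : Lip0 F p →L[ℝ] ℝ)

theorem le_norm_lat {δ : ℝ} (hδ : 0 < δ) (hδF : ∀ u v : F, u ≠ v → δ ≤ dist u v) {b : F → ℤ}
    (hp : b p = 0) (hb : b ≠ 0) : δ ≤ ‖(lat b : Lip0 F p →L[ℝ] ℝ)‖ := by
  obtain ⟨v, hv⟩ : ∃ v, b v ≠ 0 := by
    by_contra h
    push Not at h
    exact hb (funext h)
  have hvp : v ≠ p := fun h => hv (h ▸ hp)
  -- test function `δ 1_v`
  have hlip : ∀ x y : F, |(if x = v then δ else 0) - (if y = v then δ else 0)| ≤ 1 * dist x y := by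
    intro x y
    by_cases hx : x = v <;> by_cases hy : y = v
    · simp [hx, hy]
    · rw [if_pos hx, if_neg hy, sub_zero, abs_of_pos hδ, one_mul, hx]
      exact hδF v y fun h => hy h.symm
    · rw [if_neg hx, if_pos hy, zero_sub, abs_neg, abs_of_pos hδ, one_mul, hy]
      exact hδF x v hx
    · simp [hx, hy]
  let g : Lip0 F p := ⟨fun x => if x = v then δ else 0, by simp [hvp.symm],
    1, LipschitzWith.of_dist_le_mul fun x y => by rw [Real.dist_eq]; exact hlip x y⟩
  have hg : ‖g‖ ≤ 1 := g.norm_le zero_le_one hlip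
  have hgv : ∀ x, g x = if x = v then δ else 0 := fun x => rfl
  have h1 : (lat b : Lip0 F p →L[ℝ] ℝ) g = b v * δ := by
    simp only [lat, sum_apply, smul_apply, ev_apply, hgv,
      smul_eq_mul, mul_ite, mul_zero, Finset.sum_ite_eq', Finset.mem_univ, if_true]
  have h2 : ‖(lat b : Lip0 F p →L[ℝ] ℝ) g‖ ≤ ‖(lat b : Lip0 F p →L[ℝ] ℝ)‖ * ‖g‖ :=
    ContinuousLinearMap.le_opNorm _ _
  rw [h1, Real.norm_eq_abs, abs_mul, abs_of_pos hδ] at h2
  have h3 : (1 : ℝ) ≤ |(b v : ℝ)| := by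
    have : (1 : ℤ) ≤ |b v| := Int.one_le_abs hv
    exact_mod_cast this
  calc δ = 1 * δ := (one_mul δ).symm
    _ ≤ |(b v : ℝ)| * δ := mul_le_mul_of_nonneg_right h3 hδ.le
    _ ≤ ‖(lat b : Lip0 F p →L[ℝ] ℝ)‖ * ‖g‖ := h2
    _ ≤ ‖(lat b : Lip0 F p →L[ℝ] ℝ)‖ * 1 := mul_le_mul_of_nonneg_left hg (norm_nonneg _)
    _ = _ := mul_one _

/-- The boundary map `ℓ₁ᴺ → Lip₀(F)*`. -/
noncomputable def bd (x : PiLp 1 (fun _ : F × F => ℝ)) : Lip0 F p →L[ℝ] ℝ :=
  ∑ e : F × F, (x e / dist e.1 e.2) • (ev e.1 - ev e.2)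

theorem norm_bd_sub_le (x y : PiLp 1 (fun _ : F × F => ℝ)) :
    ‖(bd x : Lip0 F p →L[ℝ] ℝ) - bd y‖ ≤ ‖x - y‖ := by
  have h : (bd x : Lip0 F p →L[ℝ] ℝ) - bd y =
      ∑ e : F × F, ((x e - y e) / dist e.1 e.2) • (ev e.1 - ev e.2) := by
    unfold bd
    rw [← Finset.sum_sub_distrib]
    refine Finset.sum_congr rfl fun e _ => ?_
    rw [sub_div]
    exact (sub_smul _ _ _).symm
  rw [h, PiLp.norm_eq_of_L1]
  refine (norm_sum_le _ _).trans (Finset.sum_le_sum fun e _ => ?_)
  rw [norm_smul, norm_div, Real.norm_eq_abs (dist e.1 e.2), abs_of_nonneg dist_nonneg]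
  calc ‖x e - y e‖ / dist e.1 e.2 * ‖(ev e.1 - ev e.2 : Lip0 F p →L[ℝ] ℝ)‖
      ≤ ‖x e - y e‖ / dist e.1 e.2 * dist e.1 e.2 :=
        mul_le_mul_of_nonneg_left (norm_ev_sub_le _ _) (by positivity)
    _ ≤ ‖x e - y e‖ := by
        rcases eq_or_ne (dist e.1 e.2) 0 with h0 | h0
        · rw [h0]; simp
        · rw [div_mul_cancel₀ _ h0]
    _ = ‖(x - y) e‖ := rfl

theorem bd_zero : (bd (0 : PiLp 1 (fun _ : F × F => ℝ)) : Lip0 F p →L[ℝ] ℝ) = 0 := by
  simp [bd]

/-- The truncated identity of the dual of `Lip₀(F)`. -/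
noncomputable def trunc (D : ℝ) (ζ : Lip0 F p →L[ℝ] ℝ) : Lip0 F p →L[ℝ] ℝ :=
  cut (‖ζ‖ / D) • ζ

/-- The index set of the periodisation. -/
abbrev Lat (p : F) : Type _ := {b : F → ℤ // b p = 0}

/-- The periodised truncated identity. -/
noncomputable def SS (D : ℝ) (m : ℕ) (x : PiLp 1 (fun _ : F × F => ℝ)) : Lip0 F p →L[ℝ] ℝ :=
  ∑ᶠ b : Lat p, trunc D (bd x - (m : ℝ) • lat b.1)

section

variable {D δ : ℝ} {m : ℕ} (hD : 0 < D) (hδ : 0 < δ) (hδF : ∀ u v : F, u ≠ v → δ ≤ dist u v)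
  (hm : 4 * D ≤ m * δ)

include hD in
omit [Fintype F] [DecidableEq F] in
theorem norm_lt_of_trunc_ne {ζ : Lip0 F p →L[ℝ] ℝ} (h : trunc D ζ ≠ 0) : ‖ζ‖ < 2 * D := by
  by_contra h'
  push Not at h'
  apply h
  unfold trunc
  rw [cut_eq_zero ((le_div_iff₀ hD).mpr h'), zero_smul]

include hδ hδF hm in
theorem lat_sep {ζ : Lip0 F p →L[ℝ] ℝ} {b c : Lat p} (hb : ‖ζ - (m : ℝ) • lat b.1‖ < 2 * D)
    (hc : ‖ζ - (m : ℝ) • lat c.1‖ < 2 * D) : c = b := by
  by_contra h
  have hne : b.1 - c.1 ≠ 0 := fun h0 => h (Subtype.ext (sub_eq_zero.mp h0).symm)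
  have h1 := le_norm_lat (p := p) hδ hδF (b := b.1 - c.1) (by simp [b.2, c.2]) hne
  have h2 : (m : ℝ) • (lat (b.1 - c.1) : Lip0 F p →L[ℝ] ℝ) =
      (ζ - (m : ℝ) • lat c.1) - (ζ - (m : ℝ) • lat b.1) := by
    rw [lat_sub, smul_sub]; abel
  have h3 : ‖(m : ℝ) • (lat (b.1 - c.1) : Lip0 F p →L[ℝ] ℝ)‖ < 4 * D := by
    rw [h2]
    calc _ ≤ ‖ζ - (m : ℝ) • lat c.1‖ + ‖ζ - (m : ℝ) • lat b.1‖ := norm_sub_le _ _
      _ < 4 * D := by linarith
  rw [norm_smul, Real.norm_of_nonneg (Nat.cast_nonneg m)] at h3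
  have h4 : (m : ℝ) * δ ≤ m * ‖(lat (b.1 - c.1) : Lip0 F p →L[ℝ] ℝ)‖ :=
    mul_le_mul_of_nonneg_left h1 (Nat.cast_nonneg m)
  linarith

include hD hδ hδF hm in
theorem norm_SS_sub_le (x y : PiLp 1 (fun _ : F × F => ℝ)) :
    ‖(SS D m x : Lip0 F p →L[ℝ] ℝ) - SS D m y‖ ≤ 6 * ‖x - y‖ := by
  have h := glue (M := PiLp 1 (fun _ : F × F => ℝ)) (E := Lip0 F p →L[ℝ] ℝ) (ι := Lat p)
    (g := fun b x => trunc D (bd x - (m : ℝ) • lat b.1)) (K := 3) (by norm_num) ?_ ?_ x y
  · rw [dist_eq_norm] at h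
    calc _ ≤ _ := h
      _ = 6 * ‖x - y‖ := by ring
  · intro b x y
    have h1 := cut_lipschitz (X := Lip0 F p →L[ℝ] ℝ) (f := fun ζ => ζ) (L := 1) zero_le_one
      (fun ζ ξ => by rw [one_mul]) rfl hD (bd x - (m : ℝ) • lat b.1) (bd y - (m : ℝ) • lat b.1)
    refine h1.trans ?_
    rw [dist_eq_norm, sub_sub_sub_cancel_right, mul_one]
    exact mul_le_mul_of_nonneg_left (norm_bd_sub_le x y) (by norm_num)
  · intro x b c hb hc
    exact lat_sep hδ hδF hm (norm_lt_of_trunc_ne hD hb) (norm_lt_of_trunc_ne hD hc)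

include hD hδ hδF hm in
theorem SS_eq {x : PiLp 1 (fun _ : F × F => ℝ)} {y : F} (hy : dist y p ≤ D) (b : Lat p)
    (h : (bd x : Lip0 F p →L[ℝ] ℝ) = ev y + (m : ℝ) • lat b.1) :
    (SS D m x : Lip0 F p →L[ℝ] ℝ) = ev y := by
  have hev : ‖(ev y : Lip0 F p →L[ℝ] ℝ)‖ ≤ D := (norm_ev_le y).trans hy
  have hb : bd x - (m : ℝ) • lat b.1 = (ev y : Lip0 F p →L[ℝ] ℝ) := by rw [h, add_sub_cancel_right]
  unfold SS
  rw [finsum_eq_single _ b]
  · rw [hb]
    unfold trunc
    rw [cut_eq_one ((div_le_one hD).mpr hev), one_smul]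
  · intro c hc
    by_contra h0
    refine hc (lat_sep (D := D) hδ hδF hm ?_ (norm_lt_of_trunc_ne hD h0))
    rw [hb]
    linarith

end

section Chains

variable (m : ℕ)

/-- The boundary of a chain with coefficients in `ℤ/m`. -/
def bdz {m : ℕ} (c : F × F → ZMod m) (v : F) : ZMod m := ∑ u, c (v, u) - ∑ u, c (u, v)

theorem bdz_add {m : ℕ} (c d : F × F → ZMod m) (v : F) : bdz (c + d) v = bdz c v + bdz d v := by
  simp only [bdz, Pi.add_apply, Finset.sum_add_distrib]
  ring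

theorem bdz_single {m : ℕ} (y z : F) (v : F) (a : ZMod m) :
    bdz (Pi.single (y, z) a) v = (if v = y then a else 0) - (if v = z then a else 0) := by
  unfold bdz
  congr 1
  · simp only [Pi.single_apply, Prod.mk.injEq]
    by_cases h : v = y
    · simp [h]
    · simp [h]
  · simp only [Pi.single_apply, Prod.mk.injEq]
    by_cases h : v = z
    · simp [h]
    · simp [h]

/-- The chains with boundary `y - p`. -/
def fib (p : F) (m : ℕ) [NeZero m] (y : F) : Finset (F × F → ZMod m) :=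
  Finset.univ.filter fun c => ∀ v, bdz c v = (if v = y then 1 else 0) - (if v = p then 1 else 0)

/-- The lift of a chain to the box, in `ℓ₁ᴺ`. -/
noncomputable def pt {m : ℕ} (c : F × F → ZMod m) : PiLp 1 (fun _ : F × F => ℝ) :=
  WithLp.toLp 1 fun e => dist e.1 e.2 * ((c e).val : ℝ)

variable {m} [NeZero m]

theorem mem_fib {y : F} {c : F × F → ZMod m} : c ∈ fib p m y ↔
    ∀ v, bdz c v = (if v = y then 1 else 0) - (if v = p then 1 else 0) := by
  simp [fib]

theorem fib_nonempty (y : F) : (fib p m y).Nonempty :=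
  ⟨Pi.single (y, p) 1, mem_fib.mpr fun v => bdz_single y p v 1⟩

theorem add_mem_fib {y z : F} {c : F × F → ZMod m} (hc : c ∈ fib p m y) :
    c + Pi.single (z, y) 1 ∈ fib p m z := by
  rw [mem_fib] at hc ⊢
  intro v
  rw [bdz_add, hc, bdz_single]
  ring

theorem sub_mem_fib {y z : F} {c : F × F → ZMod m} (hc : c ∈ fib p m z) :
    c - Pi.single (z, y) 1 ∈ fib p m y := by
  rw [mem_fib] at hc ⊢
  intro v
  rw [sub_eq_add_neg, bdz_add, hc, ← Pi.single_neg, bdz_single]
  split_ifs <;> ring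

theorem sum_fib (y z : F) (f : (F × F → ZMod m) → ℝ) :
    ∑ c ∈ fib p m z, f c = ∑ c ∈ fib p m y, f (c + Pi.single (z, y) 1) := by
  symm
  refine Finset.sum_bij' (fun c _ => c + Pi.single (z, y) 1) (fun c _ => c - Pi.single (z, y) 1)
    ?_ ?_ ?_ ?_ ?_
  · intro c hc
    exact add_mem_fib hc
  · intro c hc
    exact sub_mem_fib hc
  · intro c _
    simp
  · intro c _
    simp
  · intro c _
    rfl

theorem card_fib (y z : F) : ((fib p m z).card : ℝ) = (fib p m y).card := by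
  have h := sum_fib (p := p) (m := m) y z fun _ => 1
  simpa using h

/-- The distribution of a coordinate over a fibre is uniform. -/
theorem sum_fib_coord {y z : F} (hyz : y ≠ z) (ψ : ZMod m → ℝ) :
    (m : ℝ) * ∑ c ∈ fib p m y, ψ (c (z, y)) = (fib p m y).card * ∑ j, ψ j := by
  have hshift : ∀ j : ZMod m, ∑ c ∈ fib p m y, ψ (c (z, y)) =
      ∑ c ∈ fib p m y, ψ (c (z, y) + j) := by
    intro j
    set w : F × F → ZMod m := Pi.single (z, y) j + Pi.single (y, z) j with hw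
    have hw0 : ∀ v, bdz w v = 0 := by
      intro v
      rw [hw, bdz_add, bdz_single, bdz_single]
      ring
    have hwe : w (z, y) = j := by
      rw [hw, Pi.add_apply, Pi.single_eq_same, Pi.single_eq_of_ne, add_zero]
      exact fun h => hyz (Prod.mk.inj h).2
    symm
    refine Finset.sum_bij' (fun c _ => c + w) (fun c _ => c - w) ?_ ?_ ?_ ?_ ?_
    · intro c hc
      rw [mem_fib] at hc ⊢
      intro v
      rw [bdz_add, hc, hw0, add_zero]
    · intro c hc
      rw [mem_fib] at hc ⊢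
      intro v
      have h1 := hc v
      have h2 : bdz c v = bdz (c - w) v + bdz w v := by rw [← bdz_add, sub_add_cancel]
      rw [h2, hw0, add_zero] at h1
      exact h1
    · intro c _
      simp
    · intro c _
      simp
    · intro c _
      rw [Pi.add_apply, hwe]
  calc (m : ℝ) * ∑ c ∈ fib p m y, ψ (c (z, y))
      = ∑ j : ZMod m, ∑ c ∈ fib p m y, ψ (c (z, y)) := by
        rw [Finset.sum_const, Finset.card_univ, ZMod.card, nsmul_eq_mul]
    _ = ∑ j : ZMod m, ∑ c ∈ fib p m y, ψ (c (z, y) + j) := Finset.sum_congr rfl fun j _ => hshift j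
    _ = ∑ c ∈ fib p m y, ∑ j : ZMod m, ψ (c (z, y) + j) := Finset.sum_comm
    _ = ∑ c ∈ fib p m y, ∑ j : ZMod m, ψ j := by
        refine Finset.sum_congr rfl fun c _ => ?_
        exact Fintype.sum_equiv (Equiv.addLeft (c (z, y))) _ _ fun j => rfl
    _ = (fib p m y).card * ∑ j, ψ j := by rw [Finset.sum_const, nsmul_eq_mul]

theorem sum_wrap_le : ∑ j : ZMod m, |((j + 1 : ZMod m).val : ℝ) - (j.val : ℝ)| ≤ 2 * m := by
  have key : ∀ j : ZMod m, |((j + 1 : ZMod m).val : ℝ) - (j.val : ℝ)| ≤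
      1 + if j = -1 then (m : ℝ) else 0 := by
    intro j
    by_cases hj : j = -1
    · rw [if_pos hj, hj, neg_add_cancel, ZMod.val_zero, Nat.cast_zero, zero_sub, abs_neg,
        Nat.abs_cast]
      have : ((-1 : ZMod m).val : ℝ) ≤ m := by exact_mod_cast (ZMod.val_lt (-1 : ZMod m)).le
      linarith
    · rw [if_neg hj, add_zero]
      have h1 : (j + 1 : ZMod m).val = j.val + 1 := by
        have hm : m ≠ 0 := NeZero.ne m
        rcases Nat.lt_or_ge 1 m with h | h
        · have : Fact (1 < m) := ⟨h⟩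
          rw [ZMod.val_add_of_lt, ZMod.val_one]
          rw [ZMod.val_one]
          rcases Nat.lt_or_ge (j.val + 1) m with h' | h'
          · exact h'
          · exfalso
            have h2 : j.val + 1 = m := le_antisymm (ZMod.val_lt j) h'
            apply hj
            have h3 : ((j.val + 1 : ℕ) : ZMod m) = 0 := by rw [h2, ZMod.natCast_self]
            rw [Nat.cast_add, ZMod.natCast_zmod_val, Nat.cast_one] at h3
            exact eq_neg_of_add_eq_zero_left h3
        · exfalso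
          have h1 : m = 1 := by omega
          subst h1
          exact hj (Subsingleton.elim _ _)
      rw [h1]
      push_cast
      rw [add_sub_cancel_left, abs_one]
  calc _ ≤ ∑ j : ZMod m, (1 + if j = -1 then (m : ℝ) else 0) := Finset.sum_le_sum fun j _ => key j
    _ = 2 * m := by
        rw [Finset.sum_add_distrib, Finset.sum_ite_eq' , if_pos (Finset.mem_univ _),
          Finset.sum_const, Finset.card_univ, ZMod.card, nsmul_eq_mul]
        ring

theorem dist_pt (y z : F) (c : F × F → ZMod m) :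
    dist (pt c) (pt (c + Pi.single (z, y) 1)) =
      dist z y * |((c (z, y) + 1 : ZMod m).val : ℝ) - ((c (z, y)).val : ℝ)| := by
  rw [dist_eq_norm, PiLp.norm_eq_of_L1, Finset.sum_eq_single (z, y)]
  · have h : (pt c - pt (c + Pi.single (z, y) 1) : PiLp 1 (fun _ : F × F => ℝ)) (z, y) =
        dist z y * ((c (z, y)).val : ℝ) - dist z y * ((c (z, y) + 1 : ZMod m).val : ℝ) := by
      rw [PiLp.sub_apply]
      simp only [pt, Pi.add_apply, Pi.single_eq_same]
    rw [h, ← mul_sub, norm_mul, Real.norm_of_nonneg dist_nonneg, Real.norm_eq_abs, abs_sub_comm]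
  · intro e _ he
    have h : (pt c - pt (c + Pi.single (z, y) 1) : PiLp 1 (fun _ : F × F => ℝ)) e = 0 := by
      rw [PiLp.sub_apply]
      simp only [pt, Pi.add_apply, Pi.single_eq_of_ne he, add_zero, sub_self]
    rw [h, norm_zero]
  · intro h
    exact absurd (Finset.mem_univ _) h

theorem bd_pt {y : F} {c : F × F → ZMod m} (hc : c ∈ fib p m y) :
    ∃ b : Lat p, (bd (pt c) : Lip0 F p →L[ℝ] ℝ) = ev y + (m : ℝ) • lat b.1 := by
  rw [mem_fib] at hc
  -- the integer boundary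
  set a : F → ℤ := fun v => (∑ u, ((c (v, u)).val : ℤ)) - (∑ u, ((c (u, v)).val : ℤ)) with ha
  have hdiv : ∀ v, (m : ℤ) ∣ a v - ((if v = y then 1 else 0) - (if v = p then 1 else 0)) := by
    intro v
    rw [← ZMod.intCast_zmod_eq_zero_iff_dvd]
    have h := hc v
    unfold bdz at h
    push_cast [ha]
    simp only [ZMod.natCast_val, ZMod.cast_id', id_eq]
    rw [h]
    simp
  choose b hb using hdiv
  have h1 : (bd (pt c) : Lip0 F p →L[ℝ] ℝ) =
      ∑ e : F × F, ((c e).val : ℝ) • ((ev e.1 - ev e.2) : Lip0 F p →L[ℝ] ℝ) := by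
    unfold bd
    refine Finset.sum_congr rfl fun e _ => ?_
    by_cases he : dist e.1 e.2 = 0
    · have : e.1 = e.2 := dist_eq_zero.mp he
      rw [this, sub_self, smul_zero, smul_zero]
    · congr 1
      simp only [pt]
      field_simp
  have h2 : (bd (pt c) : Lip0 F p →L[ℝ] ℝ) = ∑ v, (a v : ℝ) • ev v := by
    rw [h1]
    simp only [smul_sub, Finset.sum_sub_distrib, Fintype.sum_prod_type]
    rw [Finset.sum_comm (f := fun x y => ((c (x, y)).val : ℝ) • (ev y : Lip0 F p →L[ℝ] ℝ)),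
      ← Finset.sum_sub_distrib]
    refine Finset.sum_congr rfl fun v _ => ?_
    rw [← Finset.sum_smul, ← Finset.sum_smul, ← sub_smul]
    congr 1
    simp [ha]
  refine ⟨⟨fun v => if v = p then 0 else b v, by simp⟩, ?_⟩
  rw [h2]
  have h3 : ∀ v, (a v : ℝ) = (if v = y then 1 else 0) - (if v = p then 1 else 0) + m * b v := by
    intro v
    have h := hb v
    have h' : a v = (if v = y then 1 else 0) - (if v = p then 1 else 0) + m * b v := by
      rw [← h]; ring
    rw [h']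
    push_cast
    rfl
  have h4 : ∀ v, (a v : ℝ) • (ev v : Lip0 F p →L[ℝ] ℝ) = (if v = y then ev v else 0) +
      (m : ℝ) • (((if v = p then 0 else b v : ℤ) : ℝ) • ev v) := by
    intro v
    rw [h3 v]
    by_cases hvp : v = p
    · subst hvp
      rw [ev_base]
      simp
    · rw [if_neg hvp, if_neg hvp, sub_zero, add_smul, ite_smul, one_smul, zero_smul, smul_smul]
  unfold lat
  rw [Finset.sum_congr rfl fun v _ => h4 v, Finset.sum_add_distrib, Finset.smul_sum]
  simp

end Chains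

section Main

variable {D δ : ℝ} {m : ℕ} [NeZero m] (hD : 0 < D) (hDF : ∀ y : F, dist y p ≤ D) (hδ : 0 < δ)
  (hδF : ∀ u v : F, u ≠ v → δ ≤ dist u v) (hm : 4 * D ≤ m * δ)

/-- The map `J : Lip₀(F) → Lip₀(ℓ₁ᴺ)`. -/
noncomputable def JJ (hS : ∀ x y : PiLp 1 (fun _ : F × F => ℝ),
    ‖(SS D m x : Lip0 F p →L[ℝ] ℝ) - SS D m y‖ ≤ 6 * ‖x - y‖) :
    Lip0 F p →L[ℝ] Lip0 (PiLp 1 (fun _ : F × F => ℝ)) 0 :=
  LinearMap.mkContinuous
    { toFun := fun g => ⟨fun x => SS D m x g - SS D m 0 g, by simp, (6 * ‖g‖₊),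
        LipschitzWith.of_dist_le_mul fun x y => by
          rw [Real.dist_eq, sub_sub_sub_cancel_right, ← sub_apply, dist_eq_norm]
          calc |(SS D m x - SS D m y : Lip0 F p →L[ℝ] ℝ) g|
                ≤ ‖(SS D m x - SS D m y : Lip0 F p →L[ℝ] ℝ)‖ * ‖g‖ := by
                rw [← Real.norm_eq_abs]
                exact ContinuousLinearMap.le_opNorm _ _
            _ ≤ (6 * ‖x - y‖) * ‖g‖ := mul_le_mul_of_nonneg_right (hS x y) (norm_nonneg _)
            _ = ((6 * ‖g‖₊ : NNReal) : ℝ) * ‖x - y‖ := by push_cast; ring⟩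
      map_add' := fun f g => by
        apply DFunLike.ext
        intro x
        show SS D m x (f + g) - SS D m 0 (f + g) =
          (SS D m x f - SS D m 0 f) + (SS D m x g - SS D m 0 g)
        rw [map_add, map_add]
        ring
      map_smul' := fun c f => by
        apply DFunLike.ext
        intro x
        show SS D m x (c • f) - SS D m 0 (c • f) = c * (SS D m x f - SS D m 0 f)
        rw [map_smul, map_smul, smul_eq_mul, smul_eq_mul]
        ring }
    6 (fun g => by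
      refine Lip0.norm_le _ (by positivity) fun x y => ?_
      show |(SS D m x g - SS D m 0 g) - (SS D m y g - SS D m 0 g)| ≤ _
      rw [sub_sub_sub_cancel_right, ← sub_apply, dist_eq_norm]
      calc |(SS D m x - SS D m y : Lip0 F p →L[ℝ] ℝ) g|
            ≤ ‖(SS D m x - SS D m y : Lip0 F p →L[ℝ] ℝ)‖ * ‖g‖ := by
            rw [← Real.norm_eq_abs]
            exact ContinuousLinearMap.le_opNorm _ _
        _ ≤ (6 * ‖x - y‖) * ‖g‖ := mul_le_mul_of_nonneg_right (hS x y) (norm_nonneg _)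
        _ = 6 * ‖g‖ * ‖x - y‖ := by ring)

theorem JJ_apply (hS : ∀ x y : PiLp 1 (fun _ : F × F => ℝ),
    ‖(SS D m x : Lip0 F p →L[ℝ] ℝ) - SS D m y‖ ≤ 6 * ‖x - y‖) (g : Lip0 F p)
    (x : PiLp 1 (fun _ : F × F => ℝ)) : JJ hS g x = SS D m x g - SS D m 0 g := rfl

theorem norm_JJ_le (hS : ∀ x y : PiLp 1 (fun _ : F × F => ℝ),
    ‖(SS D m x : Lip0 F p →L[ℝ] ℝ) - SS D m y‖ ≤ 6 * ‖x - y‖) : ‖JJ hS‖ ≤ 6 :=
  LinearMap.mkContinuous_norm_le _ (by norm_num) _

/-- The average over a fibre. -/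
noncomputable def avg (p : F) (m : ℕ) [NeZero m] (f : (F × F → ZMod m) → ℝ) (y : F) : ℝ :=
  (∑ c ∈ fib p m y, f c) / (fib p m y).card

theorem abs_avg_sub_le (f : Lip0 (PiLp 1 (fun _ : F × F => ℝ)) 0) (y z : F) :
    |avg p m (fun c => f (pt c)) y - avg p m (fun c => f (pt c)) z| ≤ 2 * ‖f‖ * dist y z := by
  rcases eq_or_ne y z with rfl | hyz
  · simp
  have hK : (0 : ℝ) < (fib p m y).card := by exact_mod_cast (fib_nonempty y).card_pos
  have hm0 : (0 : ℝ) < m := by exact_mod_cast NeZero.pos m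
  unfold avg
  rw [card_fib (p := p) (m := m) y z, ← sub_div, abs_div, abs_of_pos hK, div_le_iff₀ hK,
    sum_fib (p := p) y z, ← Finset.sum_sub_distrib]
  calc |∑ c ∈ fib p m y, (f (pt c) - f (pt (c + Pi.single (z, y) 1)))|
      ≤ ∑ c ∈ fib p m y, |f (pt c) - f (pt (c + Pi.single (z, y) 1))| :=
        Finset.abs_sum_le_sum_abs _ _
    _ ≤ ∑ c ∈ fib p m y, ‖f‖ * dist z y *
          |((c (z, y) + 1 : ZMod m).val : ℝ) - ((c (z, y)).val : ℝ)| := by
        refine Finset.sum_le_sum fun c _ => ?_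
        have h := f.abs_sub_le (pt c) (pt (c + Pi.single (z, y) 1))
        rw [dist_pt, ← mul_assoc] at h
        exact h
    _ = ‖f‖ * dist z y * ∑ c ∈ fib p m y,
          |((c (z, y) + 1 : ZMod m).val : ℝ) - ((c (z, y)).val : ℝ)| := by rw [Finset.mul_sum]
    _ ≤ ‖f‖ * dist z y * (2 * (fib p m y).card) := by
        refine mul_le_mul_of_nonneg_left ?_ (by positivity)
        have h1 := sum_fib_coord (p := p) (m := m) hyz
          (fun j => |((j + 1 : ZMod m).val : ℝ) - (j.val : ℝ)|)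
        have h2 := sum_wrap_le (m := m)
        have h3 : (m : ℝ) * ∑ c ∈ fib p m y,
            |((c (z, y) + 1 : ZMod m).val : ℝ) - ((c (z, y)).val : ℝ)| ≤
            m * (2 * (fib p m y).card) := by
          rw [h1]
          calc _ ≤ ((fib p m y).card : ℝ) * (2 * m) := mul_le_mul_of_nonneg_left h2 hK.le
            _ = _ := by ring
        exact le_of_mul_le_mul_left h3 hm0
    _ = 2 * ‖f‖ * dist y z * (fib p m y).card := by rw [dist_comm]; ring

/-- The map `R : Lip₀(ℓ₁ᴺ) → Lip₀(F)`. -/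
noncomputable def RR (p : F) (m : ℕ) [NeZero m] :
    Lip0 (PiLp 1 (fun _ : F × F => ℝ)) 0 →L[ℝ] Lip0 F p :=
  LinearMap.mkContinuous
    { toFun := fun f => ⟨fun y => avg p m (fun c => f (pt c)) y - avg p m (fun c => f (pt c)) p,
        by simp, 2 * ‖f‖₊, LipschitzWith.of_dist_le_mul fun x y => by
          rw [Real.dist_eq, sub_sub_sub_cancel_right]
          exact abs_avg_sub_le f x y⟩
      map_add' := fun f g => by
        apply DFunLike.ext
        intro x
        show avg p m (fun c => (f + g) (pt c)) x - avg p m (fun c => (f + g) (pt c)) p =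
          (avg p m (fun c => f (pt c)) x - avg p m (fun c => f (pt c)) p) +
          (avg p m (fun c => g (pt c)) x - avg p m (fun c => g (pt c)) p)
        simp only [avg, Lip0.add_apply, Finset.sum_add_distrib, add_div]
        ring
      map_smul' := fun a f => by
        apply DFunLike.ext
        intro x
        show avg p m (fun c => (a • f) (pt c)) x - avg p m (fun c => (a • f) (pt c)) p =
          a * (avg p m (fun c => f (pt c)) x - avg p m (fun c => f (pt c)) p)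
        simp only [avg, Lip0.smul_apply, ← Finset.mul_sum, mul_div_assoc]
        ring }
    2 (fun f => by
      refine Lip0.norm_le _ (by positivity) fun x y => ?_
      show |(avg p m (fun c => f (pt c)) x - avg p m (fun c => f (pt c)) p) -
        (avg p m (fun c => f (pt c)) y - avg p m (fun c => f (pt c)) p)| ≤ _
      rw [sub_sub_sub_cancel_right]
      exact abs_avg_sub_le f x y)

theorem RR_apply (f : Lip0 (PiLp 1 (fun _ : F × F => ℝ)) 0) (y : F) :
    RR p m f y = avg p m (fun c => f (pt c)) y - avg p m (fun c => f (pt c)) p := rfl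

theorem norm_RR_le : ‖(RR p m : Lip0 (PiLp 1 (fun _ : F × F => ℝ)) 0 →L[ℝ] Lip0 F p)‖ ≤ 2 :=
  LinearMap.mkContinuous_norm_le _ (by norm_num) _

include hD hDF hδ hδF hm in
theorem avg_SS (g : Lip0 F p) (a : ℝ) (y : F) :
    avg p m (fun c => SS D m (pt c) g - a) y = g y - a := by
  have hK : (0 : ℝ) < (fib p m y).card := by exact_mod_cast (fib_nonempty y).card_pos
  unfold avg
  rw [div_eq_iff hK.ne', Finset.sum_congr rfl (g := fun _ => g y - a), Finset.sum_const,
    nsmul_eq_mul, mul_comm]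
  intro c hc
  obtain ⟨b, hb⟩ := bd_pt hc
  show SS D m (pt c) g - a = g y - a
  rw [SS_eq hD hδ hδF hm (hDF y) b hb, ev_apply]

include hD hDF hδ hδF hm in
theorem RR_JJ (g : Lip0 F p) : RR p m (JJ (norm_SS_sub_le hD hδ hδF hm) g) = g := by
  apply DFunLike.ext
  intro y
  rw [RR_apply]
  simp only [JJ_apply]
  rw [avg_SS hD hDF hδ hδF hm, avg_SS hD hDF hδ hδF hm, g.map_base]
  ring

end Main

omit [DecidableEq F] in
/-- For every finite metric space `F`, the identity of `Lip₀(F)` factors with constant `6` through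
`Lip₀(ℓ₁ᴺ)`, where `N = |F|²`. -/
theorem facC_finite (p : F) :
    FacC 6 (Lip0 F p) (Lip0 (PiLp 1 (fun _ : F × F => ℝ)) 0) := by
  classical
  obtain ⟨D, hD, hDF⟩ : ∃ D : ℝ, 0 < D ∧ ∀ y : F, dist y p ≤ D := by
    refine ⟨1 + ∑ y : F, dist y p, by positivity, fun y => ?_⟩
    have := Finset.single_le_sum (f := fun y : F => dist y p) (fun _ _ => dist_nonneg)
      (Finset.mem_univ y)
    linarith
  obtain ⟨δ, hδ, hδF⟩ : ∃ δ : ℝ, 0 < δ ∧ ∀ u v : F, u ≠ v → δ ≤ dist u v := by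
    by_cases hne : ((Finset.univ : Finset (F × F)).filter fun e => e.1 ≠ e.2).Nonempty
    · obtain ⟨e, he, hmin⟩ := Finset.exists_min_image _ (fun e : F × F => dist e.1 e.2) hne
      refine ⟨dist e.1 e.2, dist_pos.mpr (Finset.mem_filter.mp he).2, fun u v huv => ?_⟩
      exact hmin (u, v) (Finset.mem_filter.mpr ⟨Finset.mem_univ _, huv⟩)
    · refine ⟨1, one_pos, fun u v huv => ?_⟩
      exact absurd ⟨(u, v), Finset.mem_filter.mpr ⟨Finset.mem_univ _, huv⟩⟩ hne
  obtain ⟨m, hm⟩ : ∃ m : ℕ, 4 * D / δ ≤ m := exists_nat_ge _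
  have hm' : 4 * D ≤ m * δ := (div_le_iff₀ hδ).mp hm
  have hm0 : NeZero m := ⟨by
    rintro rfl
    simp at hm'
    linarith⟩
  exact ⟨JJ (norm_SS_sub_le hD hδ hδF hm'), RR p m, RR_JJ hD hDF hδ hδF hm', norm_JJ_le _,
    norm_RR_le.trans (by norm_num)⟩

end Pool.Agent.Lib.MP_65fa9b_an
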