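import Pool.Agent.Lib.MP_65fa9b_an.Base

/-!
# Lipschitz spaces of finite metric spaces factor through `Lip₀(X)`, if `X` contains the cubes
-/

set_option autoImplicit false

open Metric Set

namespace Pool.Agent.Lib.MP_65fa9b_an

open Gr LocTree Base

theorem exists_sep {F : Type*} [MetricSpace F] [Finite F] :
    ∃ δ : ℝ, 0 < δ ∧ ∀ a b : F, a ≠ b → δ ≤ dist a b := by
  classical
  by_cases hne : Nonempty {x : F × F // x.1 ≠ x.2}
  · obtain ⟨x, hx⟩ := Finite.exists_min fun x : {x : F × F // x.1 ≠ x.2} => dist x.1.1 x.1.2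
    exact ⟨dist x.1.1 x.1.2, dist_pos.mpr x.2, fun a b hab => hx ⟨(a, b), hab⟩⟩
  · refine ⟨1, one_pos, fun a b hab => absurd ⟨⟨(a, b), hab⟩⟩ hne⟩

theorem exists_diam {F : Type*} [MetricSpace F] [Finite F] [Nonempty F] :
    ∃ D : ℝ, 0 ≤ D ∧ ∀ a b : F, dist a b ≤ D := by
  obtain ⟨x, hx⟩ := Finite.exists_max fun x : F × F => dist x.1 x.2
  exact ⟨dist x.1 x.2, dist_nonneg, fun a b => hx (a, b)⟩

theorem ext_add {P : Type*} {ρ : P → P → ℕ} {X : Type*} [NormedAddCommGroup X] [Fintype P]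
    [Nonempty P] {A : P → X} {R : ℝ} (f g : P → ℝ) (y : X) :
    ext ρ A R (fun p => f p + g p) y = ext ρ A R f y + ext ρ A R g y := by
  unfold LocTree.ext
  simp only [mul_add, Finset.sum_add_distrib]

theorem ext_smul {P : Type*} {ρ : P → P → ℕ} {X : Type*} [NormedAddCommGroup X] [Fintype P]
    [Nonempty P] {A : P → X} {R : ℝ} (c : ℝ) (f : P → ℝ) (y : X) :
    ext ρ A R (fun p => c * f p) y = c * ext ρ A R f y := by
  unfold LocTree.ext
  have : ∀ z, lam ρ A R z y * (c * f z) = c * (lam ρ A R z y * f z) := fun z => by ring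
  simp only [this, ← Finset.mul_sum]
  ring

theorem cubes_one_le {X : Type*} [NormedAddCommGroup X] {C : ℝ}
    (hC : ∀ n : ℕ, ∃ f : (Fin n → Bool) → X, ∀ s t : Fin n → Bool,
      (hammingDist s t : ℝ) ≤ ‖f s - f t‖ ∧ ‖f s - f t‖ ≤ C * hammingDist s t) : 1 ≤ C := by
  obtain ⟨f, hf⟩ := hC 1
  have h := hf (fun _ => true) (fun _ => false)
  have h1 : hammingDist (fun _ : Fin 1 => true) (fun _ => false) = 1 := by decide
  rw [h1] at h
  have := h.1.trans h.2
  simpa using this

universe u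

/-- Lipschitz spaces of finite metric spaces factor uniformly through `Lip₀(X)`, if `X` contains
the Hamming cubes uniformly. -/
theorem facC_of_cubes {X : Type*} [NormedAddCommGroup X] [NormedSpace ℝ X] {C : ℝ}
    (hC : ∀ n : ℕ, ∃ f : (Fin n → Bool) → X, ∀ s t : Fin n → Bool,
      (hammingDist s t : ℝ) ≤ ‖f s - f t‖ ∧ ‖f s - f t‖ ≤ C * hammingDist s t)
    (F : Type u) [MetricSpace F] [Fintype F] (p₀ : F) :
    FacC (33 + 4 * C) (Lip0 F p₀) (Lip0 X (0 : X)) := by
  classical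
  have hC1 : 1 ≤ C := cubes_one_le hC
  have hC0 : 0 ≤ C := by linarith
  have : Nonempty F := ⟨p₀⟩
  obtain ⟨δ, hδ, hsep⟩ := exists_sep (F := F)
  obtain ⟨D, hD0, hD⟩ := exists_diam (F := F)
  set N : ℕ := ⌈D / δ⌉₊ with hN
  set R : ℝ := D / δ + 1 with hR
  have hR1 : 1 ≤ R := by
    have : 0 ≤ D / δ := by positivity
    linarith
  obtain ⟨k, hk⟩ := pow_unbounded_of_one_lt (40 * R) (show (1 : ℝ) < 2 by norm_num)
  letI : Fintype (Edge F δ N) := Subtype.fintype _
  letI : DecidableEq (Edge F δ N) := Classical.decEq _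
  obtain ⟨V', E', _, _, _, _, s', t', ⟨π, Av, hAv1, hAv2, hAv3⟩, hgirth⟩ :=
    exists_cover k (F × F × Fin (N + 1)) (Edge F δ N) (es δ N) (et δ N)
  set g : ℕ := 2 ^ k with hg
  have hgR : 40 * R < g := by
    rw [hg]; push_cast; exact hk
  have hg1 : 1 < g := by
    have : (1 : ℝ) < g := by linarith
    exact_mod_cast this
  have hLT : LocTree (rho s' t' (2 * g)) g := locTree hgirth (by omega) (by omega)
  -- the embedding of the cover
  let I := E' ⊕ ((V' → ZMod 2) × Fin g)
  obtain ⟨φ, hφ⟩ := hC (Fintype.card I)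
  let e := Fintype.equivFin I
  let A : V' × (E' → ZMod 2) → X := fun p => φ fun i => code s' t' g p (e.symm i)
  have hcode : ∀ p q : V' × (E' → ZMod 2),
      hammingDist (fun i => code s' t' g p (e.symm i)) (fun i => code s' t' g q (e.symm i)) =
        rho s' t' (2 * g) p q := by
    intro p q
    rw [← hd_code]
    unfold hammingDist
    refine Finset.card_bij (fun i _ => e.symm i) (fun i hi => ?_) (fun i _ j _ hij => ?_)
      fun x hx => ?_
    · simpa using hi
    · exact e.symm.injective hij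
    · exact ⟨e x, by simpa using hx, by simp⟩
  have hA1 : ∀ p q, (rho s' t' (2 * g) p q : ℝ) ≤ ‖A p - A q‖ := fun p q => by
    rw [← hcode]; exact (hφ _ _).1
  have hA2 : ∀ p q, ‖A p - A q‖ ≤ C * rho s' t' (2 * g) p q := fun p q => by
    rw [← hcode]; exact (hφ _ _).2
  have hne : Nonempty (V' × (E' → ZMod 2)) := by
    by_contra hcon
    rw [not_nonempty_iff] at hcon
    have hV : IsEmpty V' := ⟨fun v => hcon.false (v, 0)⟩
    -- the averaging operator would annihilate the constants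
    have h1 := hAv1 (fun _ => 1)
    have h2 := hAv1 (fun _ => 0)
    have h3 : ((fun _ => (1 : ℝ)) ∘ π : V' → ℝ) = (fun _ => (0 : ℝ)) ∘ π := by
      funext v
      exact (hV.false v).elim
    rw [h3, h2] at h1
    have := congrFun h1 (p₀, p₀, 0)
    exact zero_ne_one this
  -- the first operator
  let T : (F → ℝ) → X → ℝ := fun f =>
    ext (rho s' t' (2 * g)) A R (fun p => lift δ N f (π p.1))
  have hTadd : ∀ f f' : F → ℝ, ∀ y, T (fun a => f a + f' a) y = T f y + T f' y := by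
    intro f f' y
    simp only [T]
    rw [← ext_add]
    congr 1
    funext p
    exact lift_add _ _ _
  have hTsmul : ∀ (c : ℝ) (f : F → ℝ), ∀ y, T (fun a => c * f a) y = c * T f y := by
    intro c f y
    simp only [T]
    rw [← ext_smul]
    congr 1
    funext p
    exact lift_smul _ _ _
  have hTA : ∀ f p, T f (A p) = lift δ N f (π p.1) := fun f p => ext_apply hLT hR1 hA1 _ p
  have hTlip : ∀ f : Lip0 F p₀, ∀ y y' : X,
      |T f (δ⁻¹ • y) - T f (δ⁻¹ • y')| ≤ 33 * ‖f‖ * ‖y - y'‖ := by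
    intro f y y'
    have hK : 0 ≤ ‖f‖ * δ := by positivity
    have h1 : EL (es δ N) (et δ N) (‖f‖ * δ) (lift δ N f) := by
      refine lift_EL hK fun a b => ?_
      calc |f a - f b| ≤ ‖f‖ * dist a b := f.abs_sub_le a b
        _ = ‖f‖ * δ * (dist a b / δ) := by field_simp
    have h2 : EL s' t' (‖f‖ * δ) (lift δ N f ∘ π) := hAv3 _ _ h1
    have h3 : ∀ p : V' × (E' → ZMod 2), |lift δ N f (π p.1)| ≤ R * (‖f‖ * δ) := by
      intro p
      refine lift_abs_le (fun a => ?_) _
      have h4 := f.abs_sub_le a p₀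
      rw [f.map_base, sub_zero] at h4
      calc |f a| ≤ ‖f‖ * dist a p₀ := h4
        _ ≤ ‖f‖ * D := mul_le_mul_of_nonneg_left (hD _ _) (norm_nonneg _)
        _ ≤ ‖f‖ * (D + δ) := mul_le_mul_of_nonneg_left (by linarith) (norm_nonneg _)
        _ = R * (‖f‖ * δ) := by rw [hR]; field_simp
    have h5 := abs_ext_sub_le hLT hR1 hgR hA1 hK
      (f := fun p : V' × (E' → ZMod 2) => lift δ N f (π p.1))
      (fun p q hpq => abs_sub_le_of_EL (by omega) hK h2 hpq) h3 (δ⁻¹ • y) (δ⁻¹ • y')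
    refine h5.trans (le_of_eq ?_)
    rw [← smul_sub, norm_smul, norm_inv, Real.norm_eq_abs, abs_of_pos hδ]
    field_simp
  let J : Lip0 F p₀ →L[ℝ] Lip0 X (0 : X) := LinearMap.mkContinuous
    { toFun := fun f => ⟨fun y => T f (δ⁻¹ • y) - T f (δ⁻¹ • (0 : X)), sub_self _,
        ⟨33 * ‖f‖, by positivity⟩, LipschitzWith.of_dist_le_mul fun y y' => by
          rw [Real.dist_eq, sub_sub_sub_cancel_right, dist_eq_norm]
          exact hTlip f y y'⟩
      map_add' := fun f f' => by
        apply DFunLike.ext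
        intro y
        show T (fun a => f a + f' a) (δ⁻¹ • y) - T (fun a => f a + f' a) (δ⁻¹ • (0 : X)) =
          (T f (δ⁻¹ • y) - T f (δ⁻¹ • (0 : X))) + (T f' (δ⁻¹ • y) - T f' (δ⁻¹ • (0 : X)))
        rw [hTadd, hTadd]
        ring
      map_smul' := fun c f => by
        apply DFunLike.ext
        intro y
        show T (fun a => c * f a) (δ⁻¹ • y) - T (fun a => c * f a) (δ⁻¹ • (0 : X)) =
          c * (T f (δ⁻¹ • y) - T f (δ⁻¹ • (0 : X)))
        rw [hTsmul, hTsmul]
        ring }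
    (33 + 4 * C) (fun f => by
      refine Lip0.norm_le _ (by positivity) fun y y' => ?_
      show |(T f (δ⁻¹ • y) - T f (δ⁻¹ • (0 : X))) - (T f (δ⁻¹ • y') - T f (δ⁻¹ • (0 : X)))| ≤ _
      rw [sub_sub_sub_cancel_right, dist_eq_norm]
      refine (hTlip f y y').trans ?_
      have h1 : 0 ≤ ‖f‖ * ‖y - y'‖ := by positivity
      nlinarith [mul_nonneg hC0 h1])
  -- the second operator
  let Q : (X → ℝ) →ₗ[ℝ] (F × F × Fin (N + 1) → ℝ) := Av.comp ((avg V' E').comp
    (LinearMap.funLeft ℝ ℝ fun p : V' × (E' → ZMod 2) => δ • A p))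
  have hQ : ∀ h : X → ℝ, Q h = Av (avg V' E' fun p => h (δ • A p)) := fun h => rfl
  have hQlip : ∀ h : Lip0 X (0 : X), ∀ a b : F,
      |Q h (a, a, 0) - Q h (b, b, 0)| ≤ 4 * C * ‖h‖ * dist a b := by
    intro h a b
    have h1 : EL (cs s') (ct t') (‖h‖ * (δ * C)) fun p => h (δ • A p) := by
      intro x
      have h2 := h.abs_sub_le (δ • A (cs s' x)) (δ • A (ct t' x))
      rw [dist_eq_norm, ← smul_sub, norm_smul, Real.norm_eq_abs, abs_of_pos hδ] at h2
      refine h2.trans (mul_le_mul_of_nonneg_left ?_ (norm_nonneg _))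
      refine mul_le_mul_of_nonneg_left ?_ hδ.le
      have h3 := hA2 (cs s' x) (ct t' x)
      rwa [rho_edge, Nat.cast_one, mul_one] at h3
    have h2 : EL (es δ N) (et δ N) (‖h‖ * (δ * C)) (Q h) := hAv2 _ _ (avg_EL s' t' _ _ h1)
    rcases eq_or_ne a b with rfl | hab
    · simp
    · have hd : δ ≤ dist a b := hsep a b hab
      have hpos : 0 < dist a b / δ := div_pos (lt_of_lt_of_le hδ hd) hδ
      have hlen : 0 < len δ a b := Nat.ceil_pos.mpr hpos
      have hlenN : len δ a b ≤ N := Nat.ceil_le_ceil (div_le_div_of_nonneg_right (hD a b) hδ.le)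
      have h3 := chain h2 hlen hlenN
      have h4 : (len δ a b : ℝ) < dist a b / δ + 1 := Nat.ceil_lt_add_one hpos.le
      have h5 : 1 ≤ dist a b / δ := (one_le_div hδ).mpr hd
      refine h3.trans ?_
      calc ((len δ a b : ℝ) + 2) * (‖h‖ * (δ * C)) ≤ (4 * (dist a b / δ)) * (‖h‖ * (δ * C)) :=
            mul_le_mul_of_nonneg_right (by linarith) (by positivity)
        _ = 4 * C * ‖h‖ * dist a b := by field_simp
  let Rop : Lip0 X (0 : X) →L[ℝ] Lip0 F p₀ := LinearMap.mkContinuous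
    { toFun := fun h => ⟨fun a => Q h (a, a, 0) - Q h (p₀, p₀, 0), sub_self _,
        ⟨4 * C * ‖h‖, by positivity⟩, LipschitzWith.of_dist_le_mul fun a b => by
          rw [Real.dist_eq, sub_sub_sub_cancel_right]
          exact hQlip h a b⟩
      map_add' := fun h h' => by
        apply DFunLike.ext
        intro a
        have : Q (⇑(h + h')) = Q (⇑h) + Q (⇑h') := by
          rw [← map_add]; rfl
        show Q (⇑(h + h')) (a, a, 0) - Q (⇑(h + h')) (p₀, p₀, 0) =
          (Q h (a, a, 0) - Q h (p₀, p₀, 0)) + (Q h' (a, a, 0) - Q h' (p₀, p₀, 0))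
        rw [this]
        simp only [Pi.add_apply]
        ring
      map_smul' := fun c h => by
        apply DFunLike.ext
        intro a
        have : Q (⇑(c • h)) = c • Q (⇑h) := by
          rw [← map_smul]; rfl
        show Q (⇑(c • h)) (a, a, 0) - Q (⇑(c • h)) (p₀, p₀, 0) =
          c * (Q h (a, a, 0) - Q h (p₀, p₀, 0))
        rw [this]
        simp only [Pi.smul_apply, smul_eq_mul]
        ring }
    (33 + 4 * C) (fun h => by
      refine Lip0.norm_le _ (by positivity) fun a b => ?_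
      show |(Q h (a, a, 0) - Q h (p₀, p₀, 0)) - (Q h (b, b, 0) - Q h (p₀, p₀, 0))| ≤ _
      rw [sub_sub_sub_cancel_right]
      refine (hQlip h a b).trans ?_
      have h1 : 0 ≤ ‖h‖ * dist a b := by positivity
      nlinarith [mul_nonneg hC0 h1])
  refine ⟨J, Rop, fun f => ?_, LinearMap.mkContinuous_norm_le _ (by positivity) _,
    LinearMap.mkContinuous_norm_le _ (by positivity) _⟩
  apply DFunLike.ext
  intro a
  show Q (⇑(J f)) (a, a, 0) - Q (⇑(J f)) (p₀, p₀, 0) = f a
  set c := T f (δ⁻¹ • (0 : X)) with hc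
  have h1 : (fun p : V' × (E' → ZMod 2) => (J f) (δ • A p)) =
      ((fun v => lift δ N f v - c) ∘ π) ∘ Prod.fst := by
    funext p
    show T f (δ⁻¹ • δ • A p) - T f (δ⁻¹ • (0 : X)) = lift δ N f (π p.1) - c
    rw [smul_smul, inv_mul_cancel₀ hδ.ne', one_smul, hTA]
  have h2 : Q (⇑(J f)) = fun v => lift δ N f v - c := by
    rw [hQ, h1, avg_comp, hAv1]
  rw [h2]
  simp only [lift_zero]
  rw [f.map_base]
  ring

end Pool.Agent.Lib.MP_65fa9b_an
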