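import Pool.Agent.Lib.MP_65fa9b_an.Main
import Pool.Agent.Lib.MP_65fa9b_an.LocDef
import Pool.Agent.Lib.MP_65fa9b_an.Universal

/-!
# The main theorem for general spaces
-/

set_option autoImplicit false

open Metric Set Filter Topology

open scoped BoundedContinuousFunction

namespace Pool.Agent.Lib.MP_65fa9b_an

section

variable {X : Type*} [NormedAddCommGroup X] [NormedSpace ℝ X]

theorem FacC.mono {U V : Type*} [NormedAddCommGroup U] [NormedSpace ℝ U] [NormedAddCommGroup V]
    [NormedSpace ℝ V] {C D : ℝ} (h : FacC C U V) (hCD : C ≤ D) : FacC D U V := by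
  obtain ⟨J, R, h1, h2, h3⟩ := h
  exact ⟨J, R, h1, h2.trans hCD, h3.trans hCD⟩

/-- Isometric bijections. -/
theorem facC_of_isometry {M M' : Type*} [MetricSpace M] [MetricSpace M'] (φ : M ≃ M')
    (hφ : ∀ x y, dist (φ x) (φ y) = dist x y) (p : M) :
    FacC 1 (Lip0 M p) (Lip0 M' (φ p)) := by
  refine ⟨pull φ.symm 1 zero_le_one (fun x y => ?_) (by simp),
    pull φ 1 zero_le_one (fun x y => by rw [hφ, one_mul]) rfl, fun f => ?_,
    norm_pull_le _ _ _ _ _, norm_pull_le _ _ _ _ _⟩
  · rw [one_mul, ← hφ, φ.apply_symm_apply, φ.apply_symm_apply]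
  · apply DFunLike.ext
    intro x
    simp

theorem facC_FS (h : LocalCondition X) : ∃ C : ℝ, ∀ {Q : Type _} {M : Set X} (p : M) (d : Q → M)
    (i : Finset Q), FacC C (Lip0 (FS d p i) (bp d i)) (Lip0 X (0 : X)) := by
  obtain ⟨C, hC⟩ := h
  refine ⟨1 * C, fun {Q M} p d i => ?_⟩
  let F : Set X := Subtype.val '' (FS d p i)
  have hF : F.Finite := (finite_FS d i).image _
  let φ : FS d p i ≃ F :=
    (Equiv.Set.image (Subtype.val : M → X) (FS d p i) Subtype.val_injective)
  have h1 : FacC 1 (Lip0 (FS d p i) (bp d i)) (Lip0 F (φ (bp d i))) :=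
    facC_of_isometry φ (fun x y => rfl) _
  obtain ⟨J, R, h2, h3, h4⟩ := hC F hF (φ (bp d i))
  exact h1.trans ⟨J, R, h2, h3, h4⟩

theorem fac_subset_gen (hinf : ¬ FiniteDimensional ℝ X) (hX : LocalCondition X) {S : Set X}
    (hS : Maximal Sep S) [TopologicalSpace S] [DiscreteTopology S] {M : Set X} (p : M) :
    Fac (Lip0 M p) (S →ᵇ Lip0 X (0 : X)) := by
  have hinf' : Infinite S := infinite_of_maximal hS hinf
  obtain ⟨C, hC⟩ := facC_FS hX
  letI : TopologicalSpace (Finset (List (S × ℚ) × ℕ)) := ⊥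
  haveI : DiscreteTopology (Finset (List (S × ℚ) × ℕ)) := ⟨rfl⟩
  have h1 := fac_of_local p (dd (S := S) p) (dd_dense hS p) C fun i => hC _ _ _
  obtain ⟨e⟩ := card_Q (S := S)
  exact h1.trans (fac_of_equiv_index e)

theorem nontrivial_of_not_fd (hinf : ¬ FiniteDimensional ℝ X) : Nontrivial X := by
  by_contra h
  rw [not_nontrivial_iff_subsingleton] at h
  exact hinf inferInstance

theorem fac_sum [Nontrivial X] {S : Set X} (hS : Maximal Sep S) [TopologicalSpace S]
    [DiscreteTopology S] : Fac (S →ᵇ Lip0 X (0 : X)) (Lip0 X (0 : X)) := by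
  obtain ⟨B⟩ := ballData_univ (X := X) (S := S) (fun s => (s : X)) (fun s => hS.prop.1 s s.2)
    (fun s t hst => hS.prop.2 s s.2 t t.2 fun h => hst (Subtype.ext h))
  exact (B.fac ⟨0, mem_univ 0⟩).trans (Fac.of_equiv (univEquiv ⟨0, mem_univ 0⟩))

/-- The positive answer for spaces satisfying the local condition. -/
theorem main_equiv_gen (hinf : ¬ FiniteDimensional ℝ X) (hX : LocalCondition X) {M : Set X}
    (hM : ¬ Porous M) (p : M) (q : X) : Nonempty (Lip0 M p ≃L[ℝ] Lip0 X q) := by
  have hnt := nontrivial_of_not_fd hinf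
  obtain ⟨S, hS⟩ := exists_maximal_sep (X := X)
  have hinf' : Infinite S := infinite_of_maximal hS hinf
  letI : TopologicalSpace S := ⊥
  haveI : DiscreteTopology S := ⟨rfl⟩
  have hWV : Fac (S →ᵇ Lip0 X (0 : X)) (Lip0 X (0 : X)) := fac_sum hS
  have hVU : Fac (Lip0 X (0 : X)) (Lip0 M p) := by
    obtain ⟨B⟩ := exists_ballData hM
    exact fac_single.trans (B.fac p)
  have hUW : Fac (Lip0 M p) (S →ᵇ Lip0 X (0 : X)) := fac_subset_gen hinf hX hS p
  obtain ⟨e1⟩ := decomposition hUW (hWV.trans hVU)
  obtain ⟨e2⟩ := decomposition (fac_single (V := Lip0 X (0 : X)) (I := S)) hWV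
  exact ⟨(e1.trans e2.symm).trans (rebaseEquiv (0 : X) q)⟩

/-- All Lipschitz spaces over subsets are complemented. -/
theorem complemented_gen (hinf : ¬ FiniteDimensional ℝ X) (hX : LocalCondition X) {M : Set X}
    (p : M) (q : X) : Fac (Lip0 M p) (Lip0 X q) := by
  have hnt := nontrivial_of_not_fd hinf
  obtain ⟨S, hS⟩ := exists_maximal_sep (X := X)
  letI : TopologicalSpace S := ⊥
  haveI : DiscreteTopology S := ⟨rfl⟩
  exact ((fac_subset_gen hinf hX hS p).trans (fac_sum hS)).trans
    (Fac.of_equiv (rebaseEquiv (0 : X) q))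

/-- A finite dimensional space does not contain the Hamming cubes uniformly. -/
theorem not_finiteDimensional_of_cubes (hX : ContainsCubes X) : ¬ FiniteDimensional ℝ X := by
  classical
  intro hfd
  obtain ⟨C, hC⟩ := hX
  have : ProperSpace X := FiniteDimensional.proper ℝ X
  have hcomp : IsCompact (closedBall (0 : X) C) := isCompact_closedBall _ _
  obtain ⟨t, ht, hcov⟩ := Metric.totallyBounded_iff.mp hcomp.totallyBounded (1 / 2) (by norm_num)
  obtain ⟨f, hf⟩ := hC (ht.toFinset.card + 1)
  let n := ht.toFinset.card + 1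
  let ei : Fin n → (Fin n → Bool) := fun i k => decide (k = i)
  let e0 : Fin n → Bool := fun _ => false
  have h0 : ∀ i, hammingDist (ei i) e0 = 1 := by
    intro i
    unfold hammingDist
    have : (Finset.univ.filter fun k => ei i k ≠ e0 k) = {i} := by
      ext k
      simp [ei, e0]
    rw [this, Finset.card_singleton]
  have hne : ∀ i j, i ≠ j → 1 ≤ hammingDist (ei i) (ei j) := by
    intro i j hij
    rw [Nat.one_le_iff_ne_zero]
    intro h
    have h' := hammingDist_eq_zero.mp h
    have h2 := congrFun h' i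
    simp only [ei, decide_true] at h2
    exact hij (of_decide_eq_true h2.symm)
  have hx : ∀ i, ∃ y ∈ t, f (ei i) - f e0 ∈ ball y (1 / 2) := by
    intro i
    have h1 : f (ei i) - f e0 ∈ closedBall (0 : X) C := by
      rw [mem_closedBall_zero_iff]
      have := (hf (ei i) e0).2
      rw [h0] at this
      simpa using this
    have h2 := hcov h1
    simpa only [mem_iUnion, exists_prop] using h2
  choose y hyt hy using hx
  have hinj : Function.Injective (fun i => (⟨y i, ht.mem_toFinset.mpr (hyt i)⟩ : ht.toFinset)) := by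
    intro i j hij
    by_contra hne'
    have hyij : y i = y j := congrArg Subtype.val hij
    have h1 := (hf (ei i) (ei j)).1
    have h2 : (1 : ℝ) ≤ hammingDist (ei i) (ei j) := by exact_mod_cast hne i j hne'
    have h3 := mem_ball.mp (hy i)
    have h4 := mem_ball.mp (hy j)
    rw [← hyij] at h4
    have h5 : dist (f (ei i) - f e0) (f (ei j) - f e0) < 1 := by
      calc _ ≤ dist (f (ei i) - f e0) (y i) + dist (f (ei j) - f e0) (y i) :=
            dist_triangle_right _ _ _
        _ < 1 := by linarith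
    rw [dist_eq_norm, sub_sub_sub_cancel_right] at h5
    linarith
  have hcard := Fintype.card_le_of_injective _ hinj
  simp only [Fintype.card_fin, Fintype.card_coe] at hcard
  omega

theorem localCondition_of_cubes (hX : ContainsCubes X) : LocalCondition X := by
  obtain ⟨C, hC⟩ := hX
  refine ⟨33 + 4 * C, fun F hF p => ?_⟩
  haveI : Fintype F := hF.fintype
  exact facC_of_cubes hC F p

/-- The positive answer for spaces containing the Hamming cubes. -/
theorem main_cubes (hX : ContainsCubes X) {M : Set X} (hM : ¬ Porous M) (p : M) (q : X) :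
    Nonempty (Lip0 M p ≃L[ℝ] Lip0 X q) :=
  main_equiv_gen (not_finiteDimensional_of_cubes hX) (localCondition_of_cubes hX) hM p q

end

end Pool.Agent.Lib.MP_65fa9b_an
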