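import Pool.Agent.Lib.MP_65fa9b_an.Select
import Pool.Agent.Lib.MP_65fa9b_an.Limit

/-!
# Maximal separated sets and dense families of the same cardinality
-/

set_option autoImplicit false

open Metric Set Filter Topology Cardinal

namespace Pool.Agent.Lib.MP_65fa9b_an

variable {X : Type*} [NormedAddCommGroup X] [NormedSpace ℝ X]

/-- Separated subsets of the unit ball. -/
def Sep (S : Set X) : Prop := (∀ x ∈ S, ‖x‖ ≤ 1) ∧ ∀ x ∈ S, ∀ y ∈ S, x ≠ y → 1 / 2 ≤ ‖x - y‖

omit [NormedSpace ℝ X] in
theorem exists_maximal_sep : ∃ S : Set X, Maximal Sep S := by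
  refine zorn_subset {S | Sep S} fun c hc hchain => ⟨⋃₀ c, ?_, fun s hs => subset_sUnion_of_mem hs⟩
  constructor
  · rintro x ⟨s, hs, hx⟩
    exact (hc hs).1 x hx
  · rintro x ⟨s, hs, hx⟩ y ⟨t, ht, hy⟩ hxy
    rcases hchain.total hs ht with h | h
    · exact (hc ht).2 x (h hx) y hy hxy
    · exact (hc hs).2 x hx y (h hy) hxy

theorem span_dense {S : Set X} (hS : Maximal Sep S) :
    (Submodule.span ℝ S).topologicalClosure = ⊤ := by
  by_contra hne
  obtain ⟨x, hx⟩ : ∃ x, x ∉ (Submodule.span ℝ S).topologicalClosure := by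
    by_contra h
    push Not at h
    exact hne (Submodule.eq_top_iff'.mpr h)
  obtain ⟨x₀, hx₀, h⟩ := riesz_lemma (Submodule.isClosed_topologicalClosure _) ⟨x, hx⟩
    (show (1 / 2 : ℝ) < 1 by norm_num)
  have hx0 : x₀ ≠ 0 := fun h0 => hx₀ (h0 ▸ Submodule.zero_mem _)
  have hn : 0 < ‖x₀‖ := norm_pos_iff.mpr hx0
  set z : X := (‖x₀‖⁻¹ : ℝ) • x₀ with hz
  have hz1 : ‖z‖ = 1 := by rw [hz, norm_smul, norm_inv, norm_norm, inv_mul_cancel₀ hn.ne']
  have hzS : ∀ y ∈ S, 1 / 2 ≤ ‖z - y‖ := by
    intro y hy
    have h1 := h (‖x₀‖ • y) (Submodule.smul_mem _ _ (Submodule.le_topologicalClosure _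
      (Submodule.subset_span hy)))
    have h2 : x₀ - ‖x₀‖ • y = ‖x₀‖ • (z - y) := by
      rw [hz, smul_sub, smul_smul, mul_inv_cancel₀ hn.ne', one_smul]
    rw [h2, norm_smul, norm_norm, mul_comm] at h1
    exact le_of_mul_le_mul_left h1 hn
  have hzn : z ∉ S := by
    intro hzS'
    have := hzS z hzS'
    rw [sub_self, norm_zero] at this
    norm_num at this
  have hsep : Sep (insert z S) := by
    constructor
    · rintro x (rfl | hx)
      · exact hz1.le
      · exact hS.prop.1 x hx
    · rintro x (rfl | hx) y (rfl | hy) hxy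
      · exact absurd rfl hxy
      · exact hzS y hy
      · rw [norm_sub_rev]
        exact hzS x hx
      · exact hS.prop.2 x hx y hy hxy
  exact hzn (hS.le_of_ge hsep (subset_insert z S) (mem_insert z S))

/-- Rational combinations. -/
noncomputable def comb {S : Set X} (l : List (S × ℚ)) : X :=
  (l.map fun q => ((q.2 : ℝ)) • (q.1 : X)).sum

theorem comb_append {S : Set X} (l l' : List (S × ℚ)) : comb (l ++ l') = comb l + comb l' := by
  unfold comb
  rw [List.map_append, List.sum_append]

theorem comb_smul {S : Set X} (c : ℚ) (l : List (S × ℚ)) :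
    comb (l.map fun q => (q.1, c * q.2)) = (c : ℝ) • comb l := by
  unfold comb
  induction l with
  | nil => simp
  | cons a l ih =>
    simp only [List.map_cons, List.sum_cons] at ih ⊢
    rw [ih, smul_add, smul_smul]
    push_cast
    rfl

theorem comb_dense {S : Set X} (hS : Maximal Sep S) : DenseRange (comb : List (S × ℚ) → X) := by
  have hspan : ∀ x ∈ Submodule.span ℝ S, x ∈ closure (range (comb : List (S × ℚ) → X)) := by
    intro x hx
    induction hx using Submodule.span_induction with
    | mem x hx =>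
      refine subset_closure ⟨[(⟨x, hx⟩, 1)], ?_⟩
      simp [comb]
    | zero => exact subset_closure ⟨[], by simp [comb]⟩
    | add x y _ _ hx hy =>
      refine map_mem_closure₂ continuous_add hx hy ?_
      rintro _ ⟨l, rfl⟩ _ ⟨l', rfl⟩
      exact ⟨l ++ l', comb_append l l'⟩
    | smul a x _ hx =>
      have ha : a ∈ closure (range ((↑) : ℚ → ℝ)) := by
        rw [Rat.denseRange_cast.closure_range]
        exact mem_univ a
      refine map_mem_closure₂ continuous_smul ha hx ?_
      rintro _ ⟨c, rfl⟩ _ ⟨l, rfl⟩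
      exact ⟨_, comb_smul c l⟩
  have h1 : closure ((Submodule.span ℝ S : Submodule ℝ X) : Set X) = Set.univ := by
    rw [← Submodule.topologicalClosure_coe, span_dense hS]
    rfl
  intro x
  have hx : x ∈ closure ((Submodule.span ℝ S : Submodule ℝ X) : Set X) := by
    rw [h1]; exact Set.mem_univ x
  exact closure_minimal (fun y hy => hspan y hy) isClosed_closure hx

theorem infinite_of_maximal {S : Set X} (hS : Maximal Sep S)
    (hX : ¬ FiniteDimensional ℝ X) : Infinite S := by
  by_contra hfin
  rw [not_infinite_iff_finite] at hfin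
  apply hX
  have hfin' : S.Finite := Set.toFinite S
  have h1 : FiniteDimensional ℝ (Submodule.span ℝ S) := FiniteDimensional.span_of_finite ℝ hfin'
  have h2 : (Submodule.span ℝ S) = ⊤ := by
    have h3 : (Submodule.span ℝ S).topologicalClosure = Submodule.span ℝ S :=
      (Submodule.closed_of_finiteDimensional _).submodule_topologicalClosure_eq
    rw [← h3]
    exact span_dense hS
  rw [h2] at h1
  exact Module.finite_def.mpr (by
    have := Module.finite_def.mp ((Submodule.topEquiv (R := ℝ) (M := X)).finiteDimensional)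
    exact this)

theorem card_Q {S : Type*} [Infinite S] :
    Nonempty (Finset (List (S × ℚ) × ℕ) ≃ S) := by
  refine Cardinal.eq.mp ?_
  have h1 : #(S × ℚ) = #S := by simp
  have h2 : #(List (S × ℚ)) = #S := by rw [Cardinal.mk_list_eq_mk, h1]
  have h3 : #(List (S × ℚ) × ℕ) = #S := by
    rw [Cardinal.mk_prod, h2]
    simp
  rw [Cardinal.mk_finset_of_infinite, h3]

open Classical in
/-- A dense family in a subset. -/
noncomputable def dd {S : Set X} {M : Set X} (p : M) (q : List (S × ℚ) × ℕ) : M :=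
  if h : ∃ m : M, ‖(m : X) - comb q.1‖ < 1 / ((q.2 : ℝ) + 1) then h.choose else p

theorem dd_dense {S : Set X} (hS : Maximal Sep S) {M : Set X} (p : M) :
    DenseRange (dd (S := S) p) := by
  rw [Metric.denseRange_iff]
  intro x ε hε
  obtain ⟨n, hn⟩ := exists_nat_one_div_lt (show 0 < ε / 2 by positivity)
  obtain ⟨l, hl⟩ := (comb_dense hS).exists_dist_lt (x : X)
    (show (0 : ℝ) < 1 / ((n : ℝ) + 1) by positivity)
  have h : ∃ m : M, ‖(m : X) - comb (l, n).1‖ < 1 / (((l, n).2 : ℝ) + 1) :=
    ⟨x, by rw [← dist_eq_norm]; exact hl⟩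
  refine ⟨(l, n), ?_⟩
  have h1 : ‖((dd p (l, n) : M) : X) - comb l‖ < 1 / ((n : ℝ) + 1) := by
    unfold dd
    rw [dif_pos h]
    exact h.choose_spec
  rw [Subtype.dist_eq]
  calc dist (x : X) (dd p (l, n) : M) ≤ dist (x : X) (comb l) + dist (comb l) (dd p (l, n) : M) :=
        dist_triangle _ _ _
    _ < 1 / ((n : ℝ) + 1) + 1 / ((n : ℝ) + 1) := by
        refine add_lt_add hl ?_
        rw [dist_comm, dist_eq_norm]
        exact h1
    _ < ε := by linarith

theorem not_finiteDimensional (hX : UniformlyComplementedL1 X) : ¬ FiniteDimensional ℝ X := by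
  intro hfin
  obtain ⟨C, hC⟩ := hX
  obtain ⟨i, P, h, -, -⟩ := hC (Module.finrank ℝ X + 1)
  have hinj : Function.Injective i.toLinearMap := by
    intro a b hab
    have : P (i a) = P (i b) := by
      have : i a = i b := hab
      rw [this]
    rwa [h, h] at this
  have h1 := LinearMap.finrank_le_finrank_of_injective hinj
  have h2 : Module.finrank ℝ (PiLp 1 (fun _ : Fin (Module.finrank ℝ X + 1) => ℝ)) =
      Module.finrank ℝ X + 1 := by
    rw [LinearEquiv.finrank_eq (WithLp.linearEquiv 1 ℝ (Fin (Module.finrank ℝ X + 1) → ℝ))]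
    simp
  omega

end Pool.Agent.Lib.MP_65fa9b_an
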