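import Pool.Agent.Lib.MP_65fa9b_an.LInf
import Pool.Agent.Lib.MP_65fa9b_an.Local

/-!
# Composition operators between Lipschitz spaces
-/

set_option autoImplicit false

open Metric Set Filter Topology

open scoped BoundedContinuousFunction

namespace Pool.Agent.Lib.MP_65fa9b_an

variable {M M' : Type*} [MetricSpace M] [MetricSpace M'] {p : M} {p' : M'}

/-- Composition with a `K`-Lipschitz map preserving the base points. -/
noncomputable def pull (φ : M → M') (K : ℝ) (hK : 0 ≤ K)
    (hφ : ∀ x y, dist (φ x) (φ y) ≤ K * dist x y) (hp : φ p = p') : Lip0 M' p' →L[ℝ] Lip0 M p :=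
  LinearMap.mkContinuous
    { toFun := fun f => ⟨fun x => f (φ x), by show f (φ p) = 0; rw [hp, f.map_base],
        ⟨‖f‖ * K, by positivity⟩, LipschitzWith.of_dist_le_mul fun x y => by
          rw [Real.dist_eq]
          calc |f (φ x) - f (φ y)| ≤ ‖f‖ * dist (φ x) (φ y) := f.abs_sub_le _ _
            _ ≤ ‖f‖ * (K * dist x y) := mul_le_mul_of_nonneg_left (hφ x y) (norm_nonneg _)
            _ = ‖f‖ * K * dist x y := by ring⟩
      map_add' := fun f g => rfl
      map_smul' := fun c f => rfl }
    K (fun f => by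
      refine Lip0.norm_le _ (by positivity) fun x y => ?_
      show |f (φ x) - f (φ y)| ≤ _
      calc |f (φ x) - f (φ y)| ≤ ‖f‖ * dist (φ x) (φ y) := f.abs_sub_le _ _
        _ ≤ ‖f‖ * (K * dist x y) := mul_le_mul_of_nonneg_left (hφ x y) (norm_nonneg _)
        _ = K * ‖f‖ * dist x y := by ring)

@[simp] theorem pull_apply (φ : M → M') (K : ℝ) (hK : 0 ≤ K)
    (hφ : ∀ x y, dist (φ x) (φ y) ≤ K * dist x y) (hp : φ p = p') (f : Lip0 M' p') (x : M) :
    pull φ K hK hφ hp f x = f (φ x) := rfl

theorem norm_pull_le (φ : M → M') (K : ℝ) (hK : 0 ≤ K)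
    (hφ : ∀ x y, dist (φ x) (φ y) ≤ K * dist x y) (hp : φ p = p') :
    ‖pull φ K hK hφ hp‖ ≤ K := LinearMap.mkContinuous_norm_le _ hK _

/-- Change of the base point. -/
noncomputable def rebase (p q : M) : Lip0 M p →L[ℝ] Lip0 M q :=
  LinearMap.mkContinuous
    { toFun := fun f => ⟨fun x => f x - f q, sub_self _, ‖f‖₊,
        LipschitzWith.of_dist_le_mul fun x y => by
          rw [Real.dist_eq, sub_sub_sub_cancel_right]
          exact f.abs_sub_le x y⟩
      map_add' := fun f g => by
        apply DFunLike.ext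
        intro x
        show (f x + g x) - (f q + g q) = (f x - f q) + (g x - g q)
        ring
      map_smul' := fun c f => by
        apply DFunLike.ext
        intro x
        show c * f x - c * f q = c * (f x - f q)
        ring }
    1 (fun f => by
      refine Lip0.norm_le _ (by positivity) fun x y => ?_
      show |(f x - f q) - (f y - f q)| ≤ _
      rw [sub_sub_sub_cancel_right, one_mul]
      exact f.abs_sub_le x y)

@[simp] theorem rebase_apply (p q : M) (f : Lip0 M p) (x : M) : rebase p q f x = f x - f q := rfl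

/-- The isomorphism class does not depend on the base point. -/
noncomputable def rebaseEquiv (p q : M) : Lip0 M p ≃L[ℝ] Lip0 M q :=
  ContinuousLinearEquiv.equivOfInverse (rebase p q) (rebase q p)
    (fun f => by
      apply DFunLike.ext
      intro x
      simp [f.map_base])
    (fun f => by
      apply DFunLike.ext
      intro x
      simp [f.map_base])

/-- `Lip₀` of the subset `univ`. -/
noncomputable def univEquiv (p : (univ : Set M)) : Lip0 (univ : Set M) p ≃L[ℝ] Lip0 M (p : M) :=
  ContinuousLinearEquiv.equivOfInverse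
    (pull (fun x : M => (⟨x, mem_univ x⟩ : (univ : Set M))) 1 zero_le_one
      (fun x y => by rw [one_mul]; exact le_of_eq rfl) rfl)
    (pull (fun x : (univ : Set M) => (x : M)) 1 zero_le_one
      (fun x y => by rw [one_mul]; exact le_of_eq rfl) rfl)
    (fun f => by
      apply DFunLike.ext
      intro x
      rfl)
    (fun f => by
      apply DFunLike.ext
      intro x
      rfl)

/-- Complemented linear embeddings induce complemented embeddings of the Lipschitz spaces. -/
theorem facC_of_linear {A B : Type*} [NormedAddCommGroup A] [NormedSpace ℝ A]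
    [NormedAddCommGroup B] [NormedSpace ℝ B] {C : ℝ} (i : A →L[ℝ] B) (P : B →L[ℝ] A)
    (h : ∀ a, P (i a) = a) (hi : ‖i‖ ≤ C) (hP : ‖P‖ ≤ C) :
    FacC C (Lip0 A (0 : A)) (Lip0 B (0 : B)) := by
  have hC : 0 ≤ C := (norm_nonneg i).trans hi
  refine ⟨pull P C hC (fun x y => ?_) (map_zero P), pull i C hC (fun x y => ?_) (map_zero i),
    fun f => ?_, norm_pull_le _ _ _ _ _, norm_pull_le _ _ _ _ _⟩
  · rw [dist_eq_norm, dist_eq_norm, ← map_sub]
    exact P.le_of_opNorm_le hP _
  · rw [dist_eq_norm, dist_eq_norm, ← map_sub]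
    exact i.le_of_opNorm_le hi _
  · apply DFunLike.ext
    intro x
    simp [h]

/-- The local condition: the Lipschitz spaces of finite metric spaces factor uniformly through
`Lip₀(X)`, if `X` contains `ℓ₁ⁿ` uniformly complemented. -/
theorem local_factor {X : Type*} [NormedAddCommGroup X] [NormedSpace ℝ X]
    (hX : UniformlyComplementedL1 X) : ∃ C : ℝ, ∀ (F : Type _) [MetricSpace F] [Fintype F] (p : F),
    FacC C (Lip0 F p) (Lip0 X (0 : X)) := by
  obtain ⟨C, hC⟩ := hX
  refine ⟨6 * (1 * C), fun F _ _ p => ?_⟩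
  obtain ⟨i, P, h, hi, hP⟩ := hC (Fintype.card (F × F))
  have e : PiLp 1 (fun _ : F × F => ℝ) ≃ₗᵢ[ℝ] PiLp 1 (fun _ : Fin (Fintype.card (F × F)) => ℝ) :=
    LinearIsometryEquiv.piLpCongrLeft 1 ℝ ℝ (Fintype.equivFin (F × F))
  have h1 : FacC 1 (Lip0 (PiLp 1 (fun _ : F × F => ℝ)) 0)
      (Lip0 (PiLp 1 (fun _ : Fin (Fintype.card (F × F)) => ℝ)) 0) :=
    facC_of_linear (e.toContinuousLinearEquiv.toContinuousLinearMap)
      (e.symm.toContinuousLinearEquiv.toContinuousLinearMap) (fun a => by simp)
      (ContinuousLinearMap.opNorm_le_bound _ zero_le_one fun x => by simp)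
      (ContinuousLinearMap.opNorm_le_bound _ zero_le_one fun x => by simp)
  exact (facC_finite p).trans (h1.trans (facC_of_linear i P h hi hP))

end Pool.Agent.Lib.MP_65fa9b_an
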