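import Pool.Agent.Lib.MP_65fa9b_an.Balls

/-!
# Non-porous sets are almost dense in disjoint balls
-/

set_option autoImplicit false

open Metric Set Filter Topology

namespace Pool.Agent.Lib.MP_65fa9b_an

variable {X : Type*} [NormedAddCommGroup X] [NormedSpace ℝ X]

/-- `M` is `ε r`-dense in the ball `B(p, r)`. -/
def Good (M : Set X) (p : X) (r ε : ℝ) : Prop := ∀ x, ‖x - p‖ ≤ r → ∃ m ∈ M, ‖m - x‖ ≤ ε * r

omit [NormedSpace ℝ X] in
theorem Good.mono {M : Set X} {p : X} {r ε ε' : ℝ} (h : Good M p r ε) (hr : 0 ≤ r) (hε : ε ≤ ε') :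
    Good M p r ε' := fun x hx => by
  obtain ⟨m, hm, h'⟩ := h x hx
  exact ⟨m, hm, h'.trans (mul_le_mul_of_nonneg_right hε hr)⟩

omit [NormedSpace ℝ X] in
theorem Good.sub {M : Set X} {p p' : X} {r r' ε ε' : ℝ} (h : Good M p r ε)
    (hp : ‖p' - p‖ + r' ≤ r) (hε : ε * r ≤ ε' * r') : Good M p' r' ε' := fun x hx => by
  obtain ⟨m, hm, h'⟩ := h x (by
    calc ‖x - p‖ = ‖(x - p') + (p' - p)‖ := by rw [sub_add_sub_cancel]
      _ ≤ ‖x - p'‖ + ‖p' - p‖ := norm_add_le _ _
      _ ≤ r := by linarith)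
  exact ⟨m, hm, h'.trans hε⟩

/-- There are arbitrarily good balls avoiding `Z`. -/
def Rich (M Z : Set X) : Prop :=
  ∀ ε : ℝ, 0 < ε → ∃ (p : X) (r : ℝ), 0 < r ∧ Good M p r ε ∧ Disjoint (closedBall p (2 * r)) Z

omit [NormedSpace ℝ X] in
theorem closedBall_sub {p q : X} {r s : ℝ} (h : ‖p - q‖ + r ≤ s) :
    closedBall p r ⊆ closedBall q s := by
  refine closedBall_subset_closedBall' ?_
  rw [dist_eq_norm]
  linarith

theorem exists_unit [Nontrivial X] : ∃ u : X, ‖u‖ = 1 := by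
  obtain ⟨v, hv⟩ := exists_ne (0 : X)
  refine ⟨(‖v‖⁻¹ : ℝ) • v, ?_⟩
  rw [norm_smul, norm_inv, norm_norm, inv_mul_cancel₀ (norm_ne_zero_iff.mpr hv)]

omit [NormedSpace ℝ X] in
/-- Two balls meeting a third one. -/
theorem norm_sub_le_of_meet {a b c : X} {r s t : ℝ} (h1 : ¬ Disjoint (closedBall a r) (closedBall b s))
    (h2 : ¬ Disjoint (closedBall a r) (closedBall c t)) : ‖b - c‖ ≤ 2 * r + s + t := by
  rw [Set.not_disjoint_iff] at h1 h2
  obtain ⟨x, hx1, hx2⟩ := h1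
  obtain ⟨y, hy1, hy2⟩ := h2
  rw [mem_closedBall, dist_eq_norm] at hx1 hx2 hy1 hy2
  have e : b - c = -(x - b) + (x - a) + -(y - a) + (y - c) := by abel
  rw [e]
  calc _ ≤ ‖-(x - b) + (x - a) + -(y - a)‖ + ‖y - c‖ := norm_add_le _ _
    _ ≤ (‖-(x - b) + (x - a)‖ + ‖-(y - a)‖) + ‖y - c‖ := by gcongr; exact norm_add_le _ _
    _ ≤ ((‖-(x - b)‖ + ‖x - a‖) + ‖-(y - a)‖) + ‖y - c‖ := by gcongr; exact norm_add_le _ _
    _ ≤ _ := by rw [norm_neg, norm_neg]; linarith

theorem Rich.step [Nontrivial X] {M Z : Set X} (h : Rich M Z) {ε : ℝ} (hε : 0 < ε) :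
    ∃ (p : X) (r : ℝ), 0 < r ∧ Good M p r ε ∧ Disjoint (closedBall p (2 * r)) Z ∧
      Rich M (Z ∪ closedBall p (2 * r)) := by
  obtain ⟨u, hu⟩ := exists_unit (X := X)
  obtain ⟨q, t, ht, hG, hZ⟩ := h (ε / 100) (by positivity)
  have hut : ∀ s : ℝ, ‖s • u‖ = |s| := fun s => by rw [norm_smul, hu, mul_one, Real.norm_eq_abs]
  -- the two candidates
  have hcand : ∀ s : ℝ, |s| = t / 2 → Good M (q + s • u) (t / 100) ε ∧
      Disjoint (closedBall (q + s • u) (2 * (t / 100))) Z := by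
    intro s hs
    have hn : ‖(q + s • u) - q‖ = t / 2 := by rw [add_sub_cancel_left, hut, hs]
    refine ⟨hG.sub (by rw [hn]; linarith) (by linarith), ?_⟩
    exact hZ.mono_left (closedBall_sub (by rw [hn]; linarith))
  have habs1 : |t / 2| = t / 2 := abs_of_pos (by linarith)
  have habs2 : |-(t / 2)| = t / 2 := by rw [abs_neg, habs1]
  obtain ⟨hG1, hZ1⟩ := hcand (t / 2) habs1
  obtain ⟨hG2, hZ2⟩ := hcand (-(t / 2)) habs2
  by_cases hR1 : Rich M (Z ∪ closedBall (q + (t / 2) • u) (2 * (t / 100)))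
  · exact ⟨_, _, by positivity, hG1, hZ1, hR1⟩
  by_cases hR2 : Rich M (Z ∪ closedBall (q + (-(t / 2)) • u) (2 * (t / 100)))
  · exact ⟨_, _, by positivity, hG2, hZ2, hR2⟩
  exfalso
  unfold Rich at hR1 hR2
  push Not at hR1 hR2
  obtain ⟨ε1, hε1, h1⟩ := hR1
  obtain ⟨ε2, hε2, h2⟩ := hR2
  obtain ⟨p', r', hr', hG', hZ'⟩ := h (min ε1 ε2 / 100) (by positivity)
  have hm1 := min_le_left ε1 ε2
  have hm2 := min_le_right ε1 ε2
  have hm0 : 0 < min ε1 ε2 := lt_min hε1 hε2
  have hd1 : ¬ Disjoint (closedBall p' (2 * r')) (closedBall (q + (t / 2) • u) (2 * (t / 100))) :=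
    fun hd => h1 p' r' hr' (hG'.mono hr'.le (by linarith)) (Disjoint.union_right hZ' hd)
  have hd2 : ¬ Disjoint (closedBall p' (2 * r'))
      (closedBall (q + (-(t / 2)) • u) (2 * (t / 100))) :=
    fun hd => h2 p' r' hr' (hG'.mono hr'.le (by linarith)) (Disjoint.union_right hZ' hd)
  have hlow : t ≤ 4 * r' + t / 25 := by
    have h3 := norm_sub_le_of_meet hd1 hd2
    have e : (q + (t / 2) • u) - (q + (-(t / 2)) • u) = t • u := by
      rw [add_sub_add_left_eq_sub, ← sub_smul]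
      congr 1
      ring
    rw [e, hut, abs_of_pos ht] at h3
    linarith
  -- sub-balls of the large ball
  have hsub : ∀ s : ℝ, |s| = r' / 2 →
      ¬ Disjoint (closedBall (p' + s • u) (2 * (r' / 100)))
        (closedBall (q + (t / 2) • u) (2 * (t / 100))) := by
    intro s hs hd
    have hn : ‖(p' + s • u) - p'‖ = r' / 2 := by rw [add_sub_cancel_left, hut, hs]
    refine h1 (p' + s • u) (r' / 100) (by positivity) ?_ (Disjoint.union_right ?_ hd)
    · refine hG'.sub (by rw [hn]; linarith) ?_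
      calc min ε1 ε2 / 100 * r' = min ε1 ε2 * (r' / 100) := by ring
        _ ≤ ε1 * (r' / 100) := mul_le_mul_of_nonneg_right hm1 (by positivity)
    · exact hZ'.mono_left (closedBall_sub (by rw [hn]; linarith))
  have ha := hsub (r' / 2) (abs_of_pos (by linarith))
  have hb := hsub (-(r' / 2)) (by rw [abs_neg]; exact abs_of_pos (by linarith))
  have h4 := norm_sub_le_of_meet (fun h => ha h.symm) (fun h => hb h.symm)
  have e : (p' + (r' / 2) • u) - (p' + (-(r' / 2)) • u) = r' • u := by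
    rw [add_sub_add_left_eq_sub, ← sub_smul]
    congr 1
    ring
  rw [e, hut, abs_of_pos hr'] at h4
  linarith

/-- The whole space has infinite diameter. -/
theorem ediam_univ [Nontrivial X] : Metric.ediam (univ : Set X) = ⊤ := by
  obtain ⟨u, hu⟩ := exists_unit (X := X)
  refine ENNReal.eq_top_of_forall_nnreal_le fun r => ?_
  have h := Metric.edist_le_ediam_of_mem (mem_univ ((r : ℝ) • u)) (mem_univ (0 : X))
  rw [edist_dist, dist_zero_right, norm_smul, hu, mul_one, NNReal.norm_eq,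
    ENNReal.ofReal_coe_nnreal] at h
  exact h

theorem Rich.of_not_porous [Nontrivial X] {M : Set X} (h : ¬ Porous M) : Rich M ∅ := by
  intro ε hε
  unfold Porous at h
  push Not at h
  set c : ℝ := min ε 1 / 2 with hc
  have hc0 : 0 < c := by positivity
  have hc1 : c ≤ 1 / 2 := by
    have := min_le_right ε 1
    linarith
  have hc2 : c ≤ ε / 2 := by
    have := min_le_left ε 1
    linarith
  obtain ⟨p, r, hr, -, hM⟩ := h c hc0
  refine ⟨p, (1 - c) * r, mul_pos (by linarith) hr, fun x hx => ?_, disjoint_empty _⟩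
  have hx' : closedBall x (c * r) ⊆ closedBall p r := closedBall_sub (by linarith)
  have hne := hM x
  rw [Set.not_subset] at hne
  obtain ⟨y, hy, hy'⟩ := hne
  have hyM : y ∈ M := by
    by_contra h0
    exact hy' ⟨hx' hy, h0⟩
  refine ⟨y, hyM, ?_⟩
  rw [mem_closedBall, dist_eq_norm] at hy
  calc ‖y - x‖ ≤ c * r := hy
    _ ≤ (ε / 2) * r := mul_le_mul_of_nonneg_right hc2 hr.le
    _ = ε * (1 / 2) * r := by ring
    _ ≤ ε * (1 - c) * r := by
        refine mul_le_mul_of_nonneg_right (mul_le_mul_of_nonneg_left (by linarith) hε.le) hr.le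
    _ = ε * ((1 - c) * r) := by ring

/-- A non-porous set is almost dense in a sequence of disjoint balls. -/
theorem exists_ballData [Nontrivial X] {M : Set X} (h : ¬ Porous M) :
    Nonempty (BallData M Unit) := by
  classical
  have hstep : ∀ (Z : {Z : Set X // Rich M Z}) (n : ℕ), ∃ (p : X) (r : ℝ), 0 < r ∧
      Good M p r (1 / ((n : ℝ) + 1) ^ 2) ∧ Disjoint (closedBall p (2 * r)) Z.1 ∧
        Rich M (Z.1 ∪ closedBall p (2 * r)) := fun Z n => Z.2.step (by positivity)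
  choose pp rr h1 h2 h3 h4 using hstep
  let Zs : ℕ → {Z : Set X // Rich M Z} := fun n => Nat.rec ⟨∅, Rich.of_not_porous h⟩
    (fun n Z => ⟨Z.1 ∪ closedBall (pp Z n) (2 * rr Z n), h4 Z n⟩) n
  have hZs : ∀ n, (Zs (n + 1)).1 = (Zs n).1 ∪ closedBall (pp (Zs n) n) (2 * rr (Zs n) n) :=
    fun n => rfl
  have hmono : ∀ k l, k ≤ l → (Zs k).1 ⊆ (Zs l).1 := by
    intro k l hkl
    induction l, hkl using Nat.le_induction with
    | base => exact subset_rfl
    | succ l _ ih => rw [hZs]; exact ih.trans subset_union_left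
  have hlt : ∀ k l, k < l → ∀ x, x ∈ closedBall (pp (Zs k) k) (2 * rr (Zs k) k) →
      x ∈ closedBall (pp (Zs l) l) (2 * rr (Zs l) l) → False := by
    intro k l hkl x hx hy
    have h5 : x ∈ (Zs l).1 := hmono (k + 1) l hkl (by rw [hZs]; exact Or.inr hx)
    exact Set.disjoint_left.mp (h3 (Zs l) l) hy h5
  refine ⟨⟨fun _ k => pp (Zs k) k, fun k => rr (Zs k) k, fun k => h1 _ _, ?_, ?_⟩⟩
  · intro _ k x hx
    obtain ⟨m, hm, hm'⟩ := h2 (Zs k) k x hx
    refine ⟨m, hm, hm'.trans (le_of_eq ?_)⟩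
    ring
  · rintro ⟨⟨⟩, k⟩ ⟨⟨⟩, l⟩ x hx hy
    have hx' : x ∈ closedBall (pp (Zs k) k) (2 * rr (Zs k) k) := by
      rw [mem_closedBall, dist_eq_norm]
      exact hx.le
    have hy' : x ∈ closedBall (pp (Zs l) l) (2 * rr (Zs l) l) := by
      rw [mem_closedBall, dist_eq_norm]
      exact hy.le
    rcases lt_trichotomy k l with h | h | h
    · exact (hlt k l h x hx' hy').elim
    · rw [h]
    · exact (hlt l k h x hy' hx').elim

/-- A separated family in the unit ball gives ball data for the whole space. -/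
theorem ballData_univ {S : Type*} (e : S → X) (h1 : ∀ s, ‖e s‖ ≤ 1)
    (h2 : ∀ s t, s ≠ t → 1 / 2 ≤ ‖e s - e t‖) [Nontrivial X] :
    Nonempty (BallData (univ : Set X) S) := by
  obtain ⟨u, hu⟩ := exists_unit (X := X)
  refine ⟨⟨fun s k => (24 * ((k : ℝ) + 1) ^ 2) • u + (10 * ((k : ℝ) + 1)) • e s,
    fun k => (k : ℝ) + 1, fun k => by positivity, ?_, ?_⟩⟩
  · intro s k x _
    exact ⟨x, mem_univ x, by rw [sub_self, norm_zero]; positivity⟩
  · rintro ⟨s, k⟩ ⟨t, l⟩ x hx hy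
    simp only at hx hy
    have key : ∀ (s t : S) (k l : ℕ), k < l →
        ‖x - ((24 * ((k : ℝ) + 1) ^ 2) • u + (10 * ((k : ℝ) + 1)) • e s)‖ < 2 * ((k : ℝ) + 1) →
        ‖x - ((24 * ((l : ℝ) + 1) ^ 2) • u + (10 * ((l : ℝ) + 1)) • e t)‖ < 2 * ((l : ℝ) + 1) →
        False := by
      intro s t k l hkl hx hy
      have hk0 : (0 : ℝ) ≤ k := Nat.cast_nonneg k
      have hkl' : (k : ℝ) + 1 ≤ l := by exact_mod_cast hkl
      have e1 : (24 * (((l : ℝ) + 1) ^ 2 - ((k : ℝ) + 1) ^ 2)) • u =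
          (x - ((24 * ((k : ℝ) + 1) ^ 2) • u + (10 * ((k : ℝ) + 1)) • e s)) -
          (x - ((24 * ((l : ℝ) + 1) ^ 2) • u + (10 * ((l : ℝ) + 1)) • e t)) +
          (10 * ((k : ℝ) + 1)) • e s - (10 * ((l : ℝ) + 1)) • e t := by
        rw [mul_sub, sub_smul]
        abel
      have e2 : ‖(24 * (((l : ℝ) + 1) ^ 2 - ((k : ℝ) + 1) ^ 2)) • u‖ =
          24 * (((l : ℝ) + 1) ^ 2 - ((k : ℝ) + 1) ^ 2) := by
        rw [norm_smul, hu, mul_one, Real.norm_of_nonneg]
        nlinarith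
      have hs : ‖(10 * ((k : ℝ) + 1)) • e s‖ ≤ 10 * ((k : ℝ) + 1) := by
        rw [norm_smul, Real.norm_of_nonneg (by positivity)]
        exact mul_le_of_le_one_right (by positivity) (h1 s)
      have ht : ‖(10 * ((l : ℝ) + 1)) • e t‖ ≤ 10 * ((l : ℝ) + 1) := by
        rw [norm_smul, Real.norm_of_nonneg (by positivity)]
        exact mul_le_of_le_one_right (by positivity) (h1 t)
      have h5 : ‖(24 * (((l : ℝ) + 1) ^ 2 - ((k : ℝ) + 1) ^ 2)) • u‖ ≤
          2 * ((k : ℝ) + 1) + 2 * ((l : ℝ) + 1) + 10 * ((k : ℝ) + 1) + 10 * ((l : ℝ) + 1) := by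
        rw [e1]
        refine (norm_sub_le _ _).trans (add_le_add ((norm_add_le _ _).trans (add_le_add
          ((norm_sub_le _ _).trans (add_le_add hx.le hy.le)) hs)) ht)
      rw [e2] at h5
      nlinarith
    rcases lt_trichotomy k l with h | h | h
    · exact (key s t k l h hx hy).elim
    · subst h
      by_cases hst : s = t
      · rw [hst]
      · exfalso
        have hk0 : (0 : ℝ) < (k : ℝ) + 1 := by positivity
        have e1 : (10 * ((k : ℝ) + 1)) • (e s - e t) =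
            (x - ((24 * ((k : ℝ) + 1) ^ 2) • u + (10 * ((k : ℝ) + 1)) • e t)) -
            (x - ((24 * ((k : ℝ) + 1) ^ 2) • u + (10 * ((k : ℝ) + 1)) • e s)) := by
          rw [smul_sub]
          abel
        have h5 : ‖(10 * ((k : ℝ) + 1)) • (e s - e t)‖ < 4 * ((k : ℝ) + 1) := by
          rw [e1]
          calc _ ≤ _ := norm_sub_le _ _
            _ < _ := by linarith
        rw [norm_smul, Real.norm_of_nonneg (by positivity)] at h5
        have h6 := h2 s t hst
        nlinarith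
    · exact (key t s l k h hy hx).elim

end Pool.Agent.Lib.MP_65fa9b_an
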