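import Mathlib

/-!
# Locally tree-like finite metric spaces are locally absolute retracts

`LocTree ρ g`: an integer valued metric which looks like a tree (with unit edges) at distances
smaller than `g`. If such a space is embedded in a normed space `X` without decreasing distances,
then bounded functions on it extend to `X` with the same Lipschitz constant up to a factor.
-/

set_option autoImplicit false

namespace Pool.Agent.Lib.MP_65fa9b_an

/-- An integer valued metric which looks like a tree at distances smaller than `g`. -/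
structure LocTree {P : Type*} (ρ : P → P → ℕ) (g : ℕ) : Prop where
  self : ∀ p, ρ p p = 0
  eq_of : ∀ p q, ρ p q = 0 → p = q
  symm : ∀ p q, ρ p q = ρ q p
  tri : ∀ p q r, ρ p r ≤ ρ p q + ρ q r
  step : ∀ p q, p ≠ q → ρ p q < g → ∃ p', ρ p p' = 1 ∧ ρ p' q + 1 = ρ p q
  med : ∀ c x₁ x₂ z, ρ c x₁ + ρ c x₂ + ρ c z < g → ρ x₁ c + ρ c x₂ = ρ x₁ x₂ →
    ρ z c + ρ c x₁ = ρ z x₁ ∨ ρ z c + ρ c x₂ = ρ z x₂
  par : ∀ z u v, ρ z u + ρ z v < g → ρ u v = 1 → ρ z u ≠ ρ z v

namespace LocTree

variable {P : Type*} {ρ : P → P → ℕ} {g : ℕ}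

/-- Points on geodesics. -/
theorem exists_between (h : LocTree ρ g) (x₁ x₂ : P) (hm : ρ x₁ x₂ < g) :
    ∀ j, j ≤ ρ x₁ x₂ → ∃ u, ρ x₁ u = j ∧ ρ u x₂ + j = ρ x₁ x₂ := by
  intro j
  induction j with
  | zero => exact fun _ => ⟨x₁, h.self x₁, rfl⟩
  | succ j ih =>
    intro hj
    obtain ⟨u, hu1, hu2⟩ := ih (by omega)
    have hne : u ≠ x₂ := by
      rintro rfl
      rw [h.self] at hu2
      omega
    obtain ⟨v, hv1, hv2⟩ := h.step u x₂ hne (by omega)
    refine ⟨v, ?_, by omega⟩
    have h1 := h.tri x₁ u v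
    have h2 := h.tri x₁ v x₂
    omega

variable {X : Type*} [NormedAddCommGroup X]

/-- The truncated length scale. -/
def th (R s : ℝ) : ℝ := max s (2 * s - R)

theorem le_th (R s : ℝ) : s ≤ th R s := le_max_left _ _

theorem le_th' (R s : ℝ) : 2 * s - R ≤ th R s := le_max_right _ _

theorem th_of_le {R s : ℝ} (h : s ≤ R) : th R s = s := max_eq_left (by linarith)

theorem abs_th_sub_le (R s s' : ℝ) : |th R s - th R s'| ≤ 2 * |s - s'| := by
  unfold th
  refine (abs_max_sub_max_le_max _ _ _ _).trans (max_le ?_ ?_)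
  · linarith [abs_nonneg (s - s')]
  · rw [show 2 * s - R - (2 * s' - R) = 2 * (s - s') by ring, abs_mul, abs_two]

section

variable [Fintype P] [Nonempty P] (ρ) (A : P → X) (R : ℝ)

/-- The weights. -/
noncomputable def wt (x : P) (y : X) : ℝ := th R ‖y - A x‖

/-- The distance to the farthest weighted point. -/
noncomputable def far (z : P) (y : X) : ℝ :=
  Finset.univ.sup' Finset.univ_nonempty fun x => (ρ z x : ℝ) - wt A R x y

/-- The weighted radius. -/
noncomputable def rad (y : X) : ℝ :=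
  (Finset.univ : Finset (P × P)).sup' Finset.univ_nonempty
    fun x => ((ρ x.1 x.2 : ℝ) - wt A R x.1 y - wt A R x.2 y) / 2

/-- The weights of the local retraction. -/
noncomputable def lam (z : P) (y : X) : ℝ := max 0 (1 - far ρ A R z y + rad ρ A R y)

/-- The distance to the set. -/
noncomputable def dd (y : X) : ℝ := Finset.univ.inf' Finset.univ_nonempty fun p => ‖y - A p‖

/-- The cut-off. -/
noncomputable def cf (y : X) : ℝ := max 0 (1 - dd A y / R)

/-- The extension operator. -/
noncomputable def ext (f : P → ℝ) (y : X) : ℝ := cf A R y * ∑ z, lam ρ A R z y * f z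

end

variable [Fintype P] [Nonempty P] {A : P → X} {R : ℝ}

omit [Fintype P] [Nonempty P] in
theorem abs_wt_sub_le (x : P) (y y' : X) : |wt A R x y - wt A R x y'| ≤ 2 * ‖y - y'‖ := by
  unfold wt
  refine (abs_th_sub_le R _ _).trans ?_
  have h := abs_norm_sub_norm_le (y - A x) (y' - A x)
  rw [sub_sub_sub_cancel_right] at h
  linarith

theorem le_far (z x : P) (y : X) : (ρ z x : ℝ) - wt A R x y ≤ far ρ A R z y :=
  Finset.le_sup' (fun x => (ρ z x : ℝ) - wt A R x y) (Finset.mem_univ x)

theorem far_le {z : P} {y : X} {a : ℝ} (h : ∀ x, (ρ z x : ℝ) - wt A R x y ≤ a) :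
    far ρ A R z y ≤ a := Finset.sup'_le _ _ fun x _ => h x

theorem far_le_far (z : P) (y y' : X) : far ρ A R z y ≤ far ρ A R z y' + 2 * ‖y - y'‖ := by
  refine far_le fun x => ?_
  have h1 := le_far (ρ := ρ) (A := A) (R := R) z x y'
  have h2 := abs_wt_sub_le (A := A) (R := R) x y y'
  rw [abs_le] at h2
  linarith

theorem le_rad (x₁ x₂ : P) (y : X) :
    ((ρ x₁ x₂ : ℝ) - wt A R x₁ y - wt A R x₂ y) / 2 ≤ rad ρ A R y :=
  Finset.le_sup' (fun x : P × P => ((ρ x.1 x.2 : ℝ) - wt A R x.1 y - wt A R x.2 y) / 2)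
    (Finset.mem_univ (x₁, x₂))

theorem rad_le {y : X} {a : ℝ} (h : ∀ x₁ x₂, ((ρ x₁ x₂ : ℝ) - wt A R x₁ y - wt A R x₂ y) / 2 ≤ a) :
    rad ρ A R y ≤ a := Finset.sup'_le _ _ fun x _ => h x.1 x.2

theorem rad_le_rad (y y' : X) : rad ρ A R y ≤ rad ρ A R y' + 2 * ‖y - y'‖ := by
  refine rad_le fun x₁ x₂ => ?_
  have h1 := le_rad (ρ := ρ) (A := A) (R := R) x₁ x₂ y'
  have h2 := abs_wt_sub_le (A := A) (R := R) x₁ y y'
  have h3 := abs_wt_sub_le (A := A) (R := R) x₂ y y'
  rw [abs_le] at h2 h3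
  linarith

theorem exists_rad (y : X) :
    ∃ x₁ x₂, rad ρ A R y = ((ρ x₁ x₂ : ℝ) - wt A R x₁ y - wt A R x₂ y) / 2 := by
  obtain ⟨x, -, hx⟩ := Finset.exists_mem_eq_sup' (Finset.univ_nonempty (α := P × P))
    (fun x : P × P => ((ρ x.1 x.2 : ℝ) - wt A R x.1 y - wt A R x.2 y) / 2)
  exact ⟨x.1, x.2, hx⟩

theorem lam_nonneg (z : P) (y : X) : 0 ≤ lam ρ A R z y := le_max_left _ _

theorem abs_lam_sub_le (z : P) (y y' : X) :
    |lam ρ A R z y - lam ρ A R z y'| ≤ 4 * ‖y - y'‖ := by
  unfold lam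
  have h1 := far_le_far (ρ := ρ) (A := A) (R := R) z y y'
  have h2 := far_le_far (ρ := ρ) (A := A) (R := R) z y' y
  have h3 := rad_le_rad (ρ := ρ) (A := A) (R := R) y y'
  have h4 := rad_le_rad (ρ := ρ) (A := A) (R := R) y' y
  rw [norm_sub_rev y' y] at h2 h4
  refine (abs_max_sub_max_le_max _ _ _ _).trans (max_le ?_ ?_)
  · rw [sub_self, abs_zero]
    positivity
  · rw [abs_le]
    constructor <;> linarith

theorem dd_le (p : P) (y : X) : dd A y ≤ ‖y - A p‖ :=
  Finset.inf'_le (fun p => ‖y - A p‖) (Finset.mem_univ p)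

theorem exists_dd (y : X) : ∃ p, dd A y = ‖y - A p‖ := by
  obtain ⟨p, -, hp⟩ := Finset.exists_mem_eq_inf' (Finset.univ_nonempty (α := P))
    (fun p => ‖y - A p‖)
  exact ⟨p, hp⟩

theorem dd_nonneg (y : X) : 0 ≤ dd A y := by
  obtain ⟨p, hp⟩ := exists_dd (A := A) y
  rw [hp]
  exact norm_nonneg _

theorem dd_le_dd (y y' : X) : dd A y ≤ dd A y' + ‖y - y'‖ := by
  obtain ⟨p, hp⟩ := exists_dd (A := A) y'
  rw [hp]
  refine (dd_le p y).trans ?_
  have : y - A p = (y' - A p) + (y - y') := by abel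
  rw [this]
  exact norm_add_le _ _

theorem cf_nonneg (y : X) : 0 ≤ cf A R y := le_max_left _ _

theorem cf_le_one (hR : 0 < R) (y : X) : cf A R y ≤ 1 := by
  unfold cf
  have := dd_nonneg (A := A) y
  have : 0 ≤ dd A y / R := by positivity
  exact max_le zero_le_one (by linarith)

theorem abs_cf_sub_le (hR : 0 < R) (y y' : X) : |cf A R y - cf A R y'| ≤ ‖y - y'‖ / R := by
  unfold cf
  have h1 := dd_le_dd (A := A) y y'
  have h2 := dd_le_dd (A := A) y' y
  rw [norm_sub_rev y' y] at h2
  refine (abs_max_sub_max_le_max _ _ _ _).trans (max_le ?_ ?_)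
  · rw [sub_self, abs_zero]
    positivity
  · rw [show 1 - dd A y / R - (1 - dd A y' / R) = (dd A y' - dd A y) / R by ring, abs_div,
      abs_of_pos hR]
    refine div_le_div_of_nonneg_right ?_ hR.le
    rw [abs_le]
    constructor <;> linarith

theorem cf_eq_zero (hR : 0 < R) {y : X} (h : R ≤ dd A y) : cf A R y = 0 := by
  unfold cf
  refine max_eq_left ?_
  have : 1 ≤ dd A y / R := (one_le_div hR).mpr h
  linarith

/-- The local structure: near the set there is a well defined centre, on the edge `u v`. -/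
theorem structure_lemma (h : LocTree ρ g) (hR : 1 ≤ R) (hg : 40 * R < g)
    (hA : ∀ p q, (ρ p q : ℝ) ≤ ‖A p - A q‖) {y : X} {p : P} (hp : ‖y - A p‖ ≤ R) :
    ∃ (u v : P) (t : ℝ), 0 ≤ t ∧ t < 1 ∧ far ρ A R u y = rad ρ A R y + t ∧
      (v ≠ u → far ρ A R v y = rad ρ A R y + 1 - t) ∧ (v = u → t = 0) ∧
      (∀ z, z ≠ u → z ≠ v → rad ρ A R y + 1 ≤ far ρ A R z y) ∧
      (∀ z, far ρ A R z y < rad ρ A R y + 2 → ρ z u ≤ 2) := by
  set r := rad ρ A R y with hr
  have hwp : wt A R p y = ‖y - A p‖ := th_of_le hp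
  have hs0 : 0 ≤ ‖y - A p‖ := norm_nonneg _
  have hρA : ∀ a b : P, (ρ a b : ℝ) ≤ ‖y - A a‖ + ‖y - A b‖ := by
    intro a b
    refine (hA a b).trans ?_
    have : A a - A b = (y - A b) - (y - A a) := by abel
    rw [this]
    refine (norm_sub_le _ _).trans ?_
    linarith
  have hwa : ∀ a : P, ‖y - A a‖ ≤ wt A R a y := fun a => le_th _ _
  have hwa' : ∀ a : P, 2 * ‖y - A a‖ - R ≤ wt A R a y := fun a => le_th' _ _
  -- bounds for the radius
  have hr0 : r ≤ 0 := by
    refine rad_le fun x₁ x₂ => ?_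
    have := hρA x₁ x₂
    have := hwa x₁
    have := hwa x₂
    linarith
  have hrs : -‖y - A p‖ ≤ r := by
    have := le_rad (ρ := ρ) (A := A) (R := R) p p y
    rw [h.self, hwp] at this
    push_cast at this
    linarith
  obtain ⟨x₁, x₂, hx⟩ := exists_rad (ρ := ρ) (A := A) (R := R) y
  rw [← hr] at hx
  set w₁ := wt A R x₁ y with hw₁
  set w₂ := wt A R x₂ y with hw₂
  have hm : (ρ x₁ x₂ : ℝ) = w₁ + w₂ + 2 * r := by linarith
  have hr1 : -w₁ ≤ r := by
    have := le_rad (ρ := ρ) (A := A) (R := R) x₁ x₁ y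
    rw [h.self] at this
    push_cast at this
    linarith
  have hr2 : -w₂ ≤ r := by
    have := le_rad (ρ := ρ) (A := A) (R := R) x₂ x₂ y
    rw [h.self] at this
    push_cast at this
    linarith
  have ha1 : ‖y - A x₁‖ ≤ 3 * R := by
    have := hρA x₁ x₂
    have := hwa x₂
    have := hwa' x₁
    linarith
  have ha2 : ‖y - A x₂‖ ≤ 3 * R := by
    have := hρA x₁ x₂
    have := hwa x₁
    have := hwa' x₂
    linarith
  have hρ12 : (ρ x₁ x₂ : ℝ) ≤ 6 * R := by
    have := hρA x₁ x₂
    linarith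
  have hρ1p : (ρ x₁ p : ℝ) ≤ 4 * R := by
    have := hρA x₁ p
    linarith
  have hρ2p : (ρ x₂ p : ℝ) ≤ 4 * R := by
    have := hρA x₂ p
    linarith
  have htri : ∀ a b c : P, (ρ a c : ℝ) ≤ ρ a b + ρ b c := fun a b c => by
    exact_mod_cast h.tri a b c
  have hsymm : ∀ a b : P, (ρ a b : ℝ) = ρ b a := fun a b => by rw [h.symm]
  have hglt : ∀ n : ℕ, (n : ℝ) ≤ 30 * R → n < g := by
    intro n hn
    have : (n : ℝ) < g := by linarith
    exact_mod_cast this
  -- value of `far` along the geodesic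
  have hgeo : ∀ q : P, ∀ i : ℕ, ρ x₁ q = i → ρ q x₂ + i = ρ x₁ x₂ →
      far ρ A R q y = r + |(i : ℝ) - (w₁ + r)| ∧ (ρ q p : ℝ) ≤ 10 * R ∧ (ρ q x₁ : ℝ) ≤ 6 * R ∧
        (ρ q x₂ : ℝ) ≤ 6 * R := by
    intro q i hi1 hi2
    have hi1' : (ρ x₁ q : ℝ) = i := by exact_mod_cast hi1
    have hi2' : (ρ q x₂ : ℝ) + i = ρ x₁ x₂ := by exact_mod_cast hi2
    have hi0 : (0 : ℝ) ≤ i := Nat.cast_nonneg i
    have hq20 : (0 : ℝ) ≤ ρ q x₂ := Nat.cast_nonneg _
    have hq1 : (ρ q x₁ : ℝ) ≤ 6 * R := by rw [hsymm]; linarith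
    have hq2 : (ρ q x₂ : ℝ) ≤ 6 * R := by linarith
    have hqp : (ρ q p : ℝ) ≤ 10 * R := by
      have := htri q x₁ p
      linarith
    refine ⟨le_antisymm ?_ ?_, hqp, hq1, hq2⟩
    · refine far_le fun x => ?_
      by_cases hloc : ‖y - A x‖ ≤ 13 * R
      · have hxp : (ρ x p : ℝ) ≤ 14 * R := by
          have := hρA x p
          linarith
        have hqx : (ρ q x : ℝ) ≤ 24 * R := by
          have := htri q p x
          have := hsymm p x
          linarith
        have hsum : ρ q x₁ + ρ q x₂ + ρ q x < g := by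
          apply hglt
          push_cast
          have : (ρ q x₁ : ℝ) = i := by rw [hsymm, hi1']
          linarith
        have hmed := h.med q x₁ x₂ x hsum (by omega)
        rcases hmed with h1 | h1
        · have h1' : (ρ x q : ℝ) + ρ q x₁ = ρ x x₁ := by exact_mod_cast h1
          have h2 := le_rad (ρ := ρ) (A := A) (R := R) x x₁ y
          rw [← hr, ← hw₁] at h2
          have h3 : (ρ q x₁ : ℝ) = i := by rw [hsymm, hi1']
          have h4 := hsymm q x
          have h5 := neg_abs_le ((i : ℝ) - (w₁ + r))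
          linarith
        · have h1' : (ρ x q : ℝ) + ρ q x₂ = ρ x x₂ := by exact_mod_cast h1
          have h2 := le_rad (ρ := ρ) (A := A) (R := R) x x₂ y
          rw [← hr, ← hw₂] at h2
          have h4 := hsymm q x
          have h5 := le_abs_self ((i : ℝ) - (w₁ + r))
          linarith
      · push Not at hloc
        have h1 := htri q p x
        have h2 := hρA p x
        have h3 := hwa' x
        have h5 := abs_nonneg ((i : ℝ) - (w₁ + r))
        linarith
    · have h1 := le_far (ρ := ρ) (A := A) (R := R) q x₁ y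
      have h2 := le_far (ρ := ρ) (A := A) (R := R) q x₂ y
      rw [← hw₁] at h1
      rw [← hw₂] at h2
      have h3 : (ρ q x₁ : ℝ) = i := by rw [hsymm, hi1']
      rcases abs_cases ((i : ℝ) - (w₁ + r)) with ⟨h4, -⟩ | ⟨h4, -⟩ <;> rw [h4] <;> linarith
  -- the position of the centre
  set τ := w₁ + r with hτ
  have hτ0 : 0 ≤ τ := by linarith
  have hτm : τ ≤ ρ x₁ x₂ := by linarith
  set j := ⌊τ⌋₊ with hj
  have hj1 : (j : ℝ) ≤ τ := Nat.floor_le hτ0
  have hj2 : τ < j + 1 := Nat.lt_floor_add_one τ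
  have hjm : j ≤ ρ x₁ x₂ := by
    have : (j : ℝ) ≤ ρ x₁ x₂ := hj1.trans hτm
    exact_mod_cast this
  have hmg : ρ x₁ x₂ < g := hglt _ (by linarith)
  obtain ⟨u, hu1, hu2⟩ := h.exists_between x₁ x₂ hmg j hjm
  obtain ⟨hfu, hup, hux1, hux2⟩ := hgeo u j hu1 hu2
  have hfu' : far ρ A R u y = r + (τ - j) := by
    rw [hfu, abs_of_nonpos (by linarith)]
    ring
  have hu1' : (ρ x₁ u : ℝ) = j := by exact_mod_cast hu1
  have hu2' : (ρ u x₂ : ℝ) + j = ρ x₁ x₂ := by exact_mod_cast hu2
  -- nonlocal points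
  have hnl : ∀ z, far ρ A R z y < r + 2 → (ρ z p : ℝ) ≤ 3 * R := by
    intro z hz
    have := le_far (ρ := ρ) (A := A) (R := R) z p y
    rw [hwp] at this
    linarith
  -- case B: `u` is between `z` and `x₂`
  have caseB : ∀ z, ρ z u + ρ u x₂ = ρ z x₂ → (ρ z u : ℝ) + r + (τ - j) ≤ far ρ A R z y := by
    intro z hz
    have hz' : (ρ z u : ℝ) + ρ u x₂ = ρ z x₂ := by exact_mod_cast hz
    have h2 := le_far (ρ := ρ) (A := A) (R := R) z x₂ y
    rw [← hw₂] at h2
    linarith
  by_cases hjm' : j = ρ x₁ x₂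
  · -- the centre is `x₂`
    have hux : u = x₂ := by
      apply h.eq_of
      omega
    have ht0 : τ - j = 0 := by
      have : (j : ℝ) = ρ x₁ x₂ := by exact_mod_cast hjm'
      linarith
    have hB : ∀ z, (ρ z u : ℝ) + r ≤ far ρ A R z y := by
      intro z
      have := caseB z (by rw [hux, h.self]; rfl)
      linarith
    refine ⟨u, u, τ - j, by linarith, by linarith, hfu', fun hne => absurd rfl hne, fun _ => ht0,
      fun z hz _ => ?_, fun z hz => ?_⟩
    · have h1 := hB z
      have h2 : 1 ≤ ρ z u := by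
        by_contra hlt
        exact hz (h.eq_of _ _ (by omega))
      have h3 : (1 : ℝ) ≤ ρ z u := by exact_mod_cast h2
      linarith
    · have h1 := hB z
      have : (ρ z u : ℝ) < 2 := by linarith
      have : ρ z u < 2 := by exact_mod_cast this
      omega
  · have hjlt : j < ρ x₁ x₂ := lt_of_le_of_ne hjm hjm'
    have hne : u ≠ x₂ := by
      intro h0
      rw [h0, h.self] at hu2
      omega
    obtain ⟨v, hv1, hv2⟩ := h.step u x₂ hne (by omega)
    have hv3 : ρ x₁ v = j + 1 := by
      have h1 := h.tri x₁ u v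
      have h2 := h.tri x₁ v x₂
      omega
    obtain ⟨hfv, hvp, hvx1, hvx2⟩ := hgeo v (j + 1) hv3 (by omega)
    have hfv' : far ρ A R v y = r + 1 - (τ - j) := by
      rw [hfv, abs_of_nonneg (by push_cast; linarith)]
      push_cast
      ring
    have hv3' : (ρ x₁ v : ℝ) = j + 1 := by exact_mod_cast hv3
    have hv4' : (ρ v x₂ : ℝ) + (j + 1) = ρ x₁ x₂ := by
      have : ρ v x₂ + (j + 1) = ρ x₁ x₂ := by omega
      exact_mod_cast this
    -- case A: `v` is between `z` and `x₁`
    have caseA : ∀ z, ρ z v + ρ v x₁ = ρ z x₁ →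
        (ρ z v : ℝ) + r + 1 - (τ - j) ≤ far ρ A R z y := by
      intro z hz
      have hz' : (ρ z v : ℝ) + ρ v x₁ = ρ z x₁ := by exact_mod_cast hz
      have h2 := le_far (ρ := ρ) (A := A) (R := R) z x₁ y
      rw [← hw₁] at h2
      have h3 := hsymm v x₁
      linarith
    -- local points are in one of the two cases
    have hcases : ∀ z, (ρ z p : ℝ) ≤ 3 * R →
        ρ z v + ρ v x₁ = ρ z x₁ ∨ ρ z u + ρ u x₂ = ρ z x₂ := by
      intro z hz
      have hzu : (ρ u z : ℝ) ≤ 13 * R := by
        have := htri u p z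
        have := hsymm p z
        linarith
      have hzv : (ρ v z : ℝ) ≤ 13 * R := by
        have := htri v p z
        have := hsymm p z
        linarith
      have hsu : ρ u x₁ + ρ u x₂ + ρ u z < g := by
        apply hglt
        push_cast
        linarith
      have hsv : ρ v x₁ + ρ v x₂ + ρ v z < g := by
        apply hglt
        push_cast
        linarith
      have hmu := h.med u x₁ x₂ z hsu (by omega)
      have hmv := h.med v x₁ x₂ z hsv (by omega)
      have hpar := h.par z u v (by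
        rw [h.symm z u, h.symm z v]
        apply hglt
        push_cast
        linarith) hv1
      have hzuv := h.tri z u v
      have hzvu := h.tri z v u
      rw [h.symm v u] at hzvu
      have hs1 := h.symm u x₁
      have hs2 := h.symm v x₁
      rcases hmu with h1 | h1
      · rcases hmv with h2 | h2
        · exact Or.inl h2
        · omega
      · exact Or.inr h1
    have hvu : v ≠ u := by
      intro h0
      rw [h0, h.self] at hv1
      omega
    refine ⟨u, v, τ - j, by linarith, by linarith, hfu', fun _ => hfv', fun h0 => absurd h0 hvu,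
      fun z hzu hzv => ?_, fun z hz => ?_⟩
    · by_cases hloc : (ρ z p : ℝ) ≤ 3 * R
      · have h1u : (1 : ℝ) ≤ ρ z u := by
          have : 1 ≤ ρ z u := by
            by_contra hlt
            exact hzu (h.eq_of _ _ (by omega))
          exact_mod_cast this
        have h1v : (1 : ℝ) ≤ ρ z v := by
          have : 1 ≤ ρ z v := by
            by_contra hlt
            exact hzv (h.eq_of _ _ (by omega))
          exact_mod_cast this
        rcases hcases z hloc with h1 | h1
        · have := caseA z h1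
          linarith
        · have := caseB z h1
          linarith
      · by_contra hlt
        push Not at hlt
        exact hloc (hnl z (by linarith))
    · rcases hcases z (hnl z hz) with h1 | h1
      · have h2 := caseA z h1
        have h3 : (ρ z v : ℝ) < 2 := by linarith
        have h4 : ρ z v < 2 := by exact_mod_cast h3
        have h5 := h.tri z v u
        rw [h.symm v u] at h5
        omega
      · have h2 := caseB z h1
        have h3 : (ρ z u : ℝ) < 2 := by linarith
        have h4 : ρ z u < 2 := by exact_mod_cast h3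
        omega

end LocTree

end Pool.Agent.Lib.MP_65fa9b_an
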